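import Mathlib

/-!
# Differential polynomials over `ℚ`: evolutionary derivations, Euler operator, local functionals
-/

set_option autoImplicit false
set_option linter.all false

open MvPolynomial Finset

namespace Pool.Agent.Y665.RH

/-- differential polynomials `ℚ[u, u_1, u_2, …]`; `X n` is `u_n`. -/
abbrev A := MvPolynomial ℕ ℚ

/-- the total derivative `∂_x` -/
noncomputable def d : Derivation ℚ A A := mkDerivation ℚ (fun n => (X (n + 1) : A))

theorem d_X (n : ℕ) : d (X n : A) = X (n + 1) := mkDerivation_X _ _ _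

/-- iterates of `∂_x` -/
noncomputable def dn (n : ℕ) : A →ₗ[ℚ] A := ((d : A →ₗ[ℚ] A) : Module.End ℚ A) ^ n

theorem dn_zero (a : A) : dn 0 a = a := rfl
theorem dn_succ (n : ℕ) (a : A) : dn (n + 1) a = d (dn n a) := by
  show (((d : A →ₗ[ℚ] A) : Module.End ℚ A) ^ (n + 1)) a = _
  rw [pow_succ']; rfl
theorem dn_succ' (n : ℕ) (a : A) : dn (n + 1) a = dn n (d a) := by
  show (((d : A →ₗ[ℚ] A) : Module.End ℚ A) ^ (n + 1)) a = _
  rw [pow_succ]; rfl
theorem dn_one (a : A) : dn 1 a = d a := by rw [dn_succ, dn_zero]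
theorem dn_X (n m : ℕ) : dn n (X m : A) = X (m + n) := by
  induction n with
  | zero => rfl
  | succ n ih => rw [dn_succ, ih, d_X]; rfl

/-- the evolutionary derivation with characteristic `F`: `u_n ↦ ∂_x^n F` -/
noncomputable def V (F : A) : Derivation ℚ A A := mkDerivation ℚ (fun n => dn n F)

theorem V_X (F : A) (n : ℕ) : V F (X n : A) = dn n F := mkDerivation_X _ _ _

theorem der_ext {D1 D2 : Derivation ℚ A A} (h : ∀ n, D1 (X n) = D2 (X n)) : D1 = D2 :=
  MvPolynomial.derivation_ext h

theorem V_add (F G : A) : V (F + G) = V F + V G :=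
  der_ext fun n => by rw [Derivation.add_apply, V_X, V_X, V_X, map_add]
theorem V_smul (c : ℚ) (F : A) : V (c • F) = c • V F :=
  der_ext fun n => by rw [Derivation.smul_apply, V_X, V_X, map_smul]
theorem V_zero : V (0 : A) = 0 := der_ext fun n => by rw [V_X, map_zero]; rfl
theorem V_neg (F : A) : V (-F) = -V F :=
  der_ext fun n => by rw [Derivation.neg_apply, V_X, V_X, map_neg]
theorem V_sub (F G : A) : V (F - G) = V F - V G :=
  der_ext fun n => by rw [Derivation.sub_apply, V_X, V_X, V_X, map_sub]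
theorem V_sum {ι : Type*} (s : Finset ι) (f : ι → A) (a : A) :
    V (∑ i ∈ s, f i) a = ∑ i ∈ s, V (f i) a := by
  classical
  induction s using Finset.induction_on with
  | empty => simp [V_zero]
  | insert i s hi ih => rw [Finset.sum_insert hi, V_add, Derivation.add_apply, ih, Finset.sum_insert hi]
theorem V_X1 : V (X 1 : A) = d := der_ext fun n => by rw [V_X, dn_X, d_X, add_comm]

theorem V_d (F a : A) : V F (d a) = d (V F a) := by
  have h : ⁅V F, d⁆ = 0 := der_ext fun n => by
    rw [Derivation.commutator_apply, d_X, V_X, V_X, dn_succ, sub_self]; rfl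
  have := congrArg (fun D : Derivation ℚ A A => D a) h
  simp only [Derivation.commutator_apply, Derivation.zero_apply] at this
  exact sub_eq_zero.1 this
theorem V_dn (F a : A) (n : ℕ) : V F (dn n a) = dn n (V F a) := by
  induction n with
  | zero => rfl
  | succ n ih => rw [dn_succ, dn_succ, V_d, ih]

theorem V_comm (F G a : A) : V F (V G a) - V G (V F a) = V (V F G - V G F) a := by
  have h : ⁅V F, V G⁆ = V (V F G - V G F) := der_ext fun n => by
    rw [Derivation.commutator_apply, V_X, V_X, V_X, V_dn, V_dn, map_sub]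
  rw [← h, Derivation.commutator_apply]

/-! ### partial derivatives -/

theorem pd_X (n m : ℕ) : pderiv n (X m : A) = if m = n then 1 else 0 := by
  classical
  rw [pderiv_X, Pi.single_apply]

theorem pd_comm (i j : ℕ) (a : A) : pderiv i (pderiv j a) = pderiv j (pderiv i a) := by
  have h : ⁅(pderiv i : Derivation ℚ A A), pderiv j⁆ = 0 := der_ext fun n => by
    rw [Derivation.commutator_apply, pd_X, pd_X]
    split_ifs <;> simp
  have := congrArg (fun D : Derivation ℚ A A => D a) h
  simp only [Derivation.commutator_apply, Derivation.zero_apply] at this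
  exact sub_eq_zero.1 this

theorem pd_d_succ (n : ℕ) (a : A) : pderiv (n + 1) (d a) = d (pderiv (n + 1) a) + pderiv n a := by
  have h : ⁅(pderiv (n + 1) : Derivation ℚ A A), d⁆ = pderiv n := der_ext fun m => by
    rw [Derivation.commutator_apply, d_X, pd_X, pd_X, pd_X]
    by_cases h1 : m = n
    · subst h1; simp
    · rw [if_neg (by omega), if_neg h1]; split_ifs <;> simp
  have := congrArg (fun D : Derivation ℚ A A => D a) h
  simp only [Derivation.commutator_apply] at this
  rw [← this]; ring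

theorem pd_d_zero (a : A) : pderiv 0 (d a) = d (pderiv 0 a) := by
  have h : ⁅(pderiv 0 : Derivation ℚ A A), d⁆ = 0 := der_ext fun m => by
    rw [Derivation.commutator_apply, d_X, pd_X, pd_X, if_neg (by omega)]
    split_ifs <;> simp
  have := congrArg (fun D : Derivation ℚ A A => D a) h
  simp only [Derivation.commutator_apply, Derivation.zero_apply] at this
  exact sub_eq_zero.1 this

theorem pd_dn_zero (n : ℕ) (a : A) : pderiv 0 (dn n a) = dn n (pderiv 0 a) := by
  induction n with
  | zero => rfl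
  | succ n ih => rw [dn_succ, dn_succ, pd_d_zero, ih]

theorem pd_V_zero (F a : A) : pderiv 0 (V F a) = V (pderiv 0 F) a + V F (pderiv 0 a) := by
  have h : ⁅(pderiv 0 : Derivation ℚ A A), V F⁆ = V (pderiv 0 F) := der_ext fun m => by
    rw [Derivation.commutator_apply, V_X, V_X, pd_X, pd_dn_zero]
    split_ifs <;> simp
  rw [← h, Derivation.commutator_apply]; ring

/-- a bound for the variables of `a` -/
noncomputable def bd (a : A) : ℕ := a.vars.sup id + 1

theorem pd_bd (a : A) (n : ℕ) (h : bd a ≤ n) : pderiv n a = 0 := by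
  apply pderiv_eq_zero_of_notMem_vars
  intro hn
  have : n ≤ a.vars.sup id := Finset.le_sup (f := id) hn
  unfold bd at h
  omega

/-- the derivation as a sum -/
theorem der_eq_sum (D : Derivation ℚ A A) (a : A) :
    ∃ M, ∀ N, M ≤ N → D a = ∑ n ∈ range N, pderiv n a * D (X n) := by
  induction a using MvPolynomial.induction_on with
  | C c => exact ⟨0, fun N _ => by simp⟩
  | add p q hp hq =>
    obtain ⟨M1, h1⟩ := hp
    obtain ⟨M2, h2⟩ := hq
    refine ⟨max M1 M2, fun N hN => ?_⟩
    rw [map_add, h1 N (by omega), h2 N (by omega), ← Finset.sum_add_distrib]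
    exact Finset.sum_congr rfl fun n _ => by rw [map_add]; ring
  | mul_X p i hp =>
    obtain ⟨M1, h1⟩ := hp
    refine ⟨max M1 (i + 1), fun N hN => ?_⟩
    have : ∀ n ∈ range N, pderiv n (p * X i) * D (X n) =
        pderiv n p * D (X n) * X i + if n = i then p * D (X i) else 0 := by
      intro n _
      rw [Derivation.leibniz, pd_X, smul_eq_mul, smul_eq_mul]
      by_cases h : i = n
      · subst h; simp; ring
      · rw [if_neg h, if_neg (Ne.symm h)]; ring
    rw [Finset.sum_congr rfl this, Finset.sum_add_distrib, Finset.sum_ite_eq',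
      if_pos (Finset.mem_range.2 (by omega)), ← Finset.sum_mul, ← h1 N (by omega),
      Derivation.leibniz, smul_eq_mul, smul_eq_mul]
    ring

theorem sum_stable {f : ℕ → A} {M N : ℕ} (hMN : M ≤ N) (h : ∀ n, M ≤ n → f n = 0) :
    ∑ n ∈ range N, f n = ∑ n ∈ range M, f n := by
  symm
  apply Finset.sum_subset
  · intro x hx; simp only [Finset.mem_range] at *; omega
  · intro x _ hx; simp only [Finset.mem_range, not_lt] at hx; exact h x hx

theorem der_eq (D : Derivation ℚ A A) (a : A) (N : ℕ) (hN : ∀ n, N ≤ n → pderiv n a = 0) :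
    D a = ∑ n ∈ range N, pderiv n a * D (X n) := by
  obtain ⟨M, hM⟩ := der_eq_sum D a
  rw [hM (max M N) (by omega)]
  exact sum_stable (by omega) fun n hn => by rw [hN n hn, zero_mul]

theorem V_eq (F a : A) (N : ℕ) (hN : ∀ n, N ≤ n → pderiv n a = 0) :
    V F a = ∑ n ∈ range N, pderiv n a * dn n F := by
  rw [der_eq _ a N hN]
  exact Finset.sum_congr rfl fun n _ => by rw [V_X]

/-! ### the Euler operator -/

/-- `δ/δu` -/
noncomputable def E (a : A) : A := ∑ n ∈ range (bd a), ((-1 : ℚ) ^ n) • dn n (pderiv n a)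

theorem E_eq (a : A) (N : ℕ) (hN : ∀ n, N ≤ n → pderiv n a = 0) :
    E a = ∑ n ∈ range N, ((-1 : ℚ) ^ n) • dn n (pderiv n a) := by
  unfold E
  rw [← sum_stable (N := max (bd a) N) (M := bd a) (by omega)
      (fun n hn => by rw [pd_bd a n hn, map_zero, smul_zero]),
    sum_stable (N := max (bd a) N) (M := N) (by omega)
      (fun n hn => by rw [hN n hn, map_zero, smul_zero])]

theorem E_add (a b : A) : E (a + b) = E a + E b := by
  have ha := pd_bd a
  have hb := pd_bd b
  rw [E_eq a (max (bd a) (bd b)) (fun n hn => ha n (by omega)),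
    E_eq b (max (bd a) (bd b)) (fun n hn => hb n (by omega)),
    E_eq (a + b) (max (bd a) (bd b)) (fun n hn => by rw [map_add, ha n (by omega), hb n (by omega), add_zero]),
    ← Finset.sum_add_distrib]
  exact Finset.sum_congr rfl fun n _ => by rw [map_add, map_add, smul_add]

theorem E_smul (c : ℚ) (a : A) : E (c • a) = c • E a := by
  have ha := pd_bd a
  rw [E_eq a _ ha, E_eq (c • a) (bd a) (fun n hn => by rw [Derivation.map_smul, ha n hn, smul_zero]), Finset.smul_sum]
  exact Finset.sum_congr rfl fun n _ => by rw [Derivation.map_smul, map_smul, smul_comm]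

/-- the Euler operator as a linear map -/
noncomputable def El : A →ₗ[ℚ] A where
  toFun := E
  map_add' := E_add
  map_smul' := E_smul

theorem El_apply (a : A) : El a = E a := rfl
theorem E_zero : E 0 = 0 := El.map_zero
theorem E_neg (a : A) : E (-a) = -E a := El.map_neg a
theorem E_sub (a b : A) : E (a - b) = E a - E b := El.map_sub a b
theorem E_sum {ι : Type*} (s : Finset ι) (f : ι → A) : E (∑ i ∈ s, f i) = ∑ i ∈ s, E (f i) := map_sum El f s

theorem E_d (a : A) : E (d a) = 0 := by
  have ha := pd_bd a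
  have h1 : ∀ n, bd a + 1 ≤ n → pderiv n (d a) = 0 := by
    intro n hn
    obtain ⟨m, rfl⟩ : ∃ m, n = m + 1 := ⟨n - 1, by omega⟩
    rw [pd_d_succ, ha _ (by omega), ha _ (by omega), map_zero, add_zero]
  rw [E_eq _ _ h1, Finset.sum_range_succ']
  have h2 : ∀ n ∈ range (bd a), ((-1 : ℚ) ^ (n + 1)) • dn (n + 1) (pderiv (n + 1) (d a)) =
      ((-1 : ℚ) ^ (n + 1)) • dn (n + 2) (pderiv (n + 1) a) - ((-1 : ℚ) ^ n) • dn (n + 1) (pderiv n a) := by
    intro n _
    rw [pd_d_succ, map_add, ← dn_succ', smul_add, pow_succ]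
    simp only [mul_neg, mul_one, neg_smul]
    rw [show n + 1 + 1 = n + 2 from rfl]
    ring
  rw [Finset.sum_congr rfl h2, Finset.sum_range_sub (fun n => ((-1 : ℚ) ^ n) • dn (n + 1) (pderiv n a)),
    pd_d_zero, ha _ le_rfl]
  simp [dn_zero, dn_one]

theorem pd_E_zero (a : A) : pderiv 0 (E a) = E (pderiv 0 a) := by
  have ha := pd_bd a
  rw [E_eq a _ ha, E_eq (pderiv 0 a) (bd a) (fun n hn => by rw [pd_comm, ha n hn, map_zero]), map_sum]
  exact Finset.sum_congr rfl fun n _ => by rw [Derivation.map_smul, pd_dn_zero, pd_comm]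

/-- exact densities -/
noncomputable def Ex : Submodule ℚ A := LinearMap.range (d : A →ₗ[ℚ] A)

theorem d_mem_Ex (a : A) : d a ∈ Ex := ⟨a, rfl⟩
theorem V_mem_Ex (F : A) {a : A} (h : a ∈ Ex) : V F a ∈ Ex := by
  obtain ⟨b, rfl⟩ := h
  exact ⟨V F b, (V_d F b).symm⟩

theorem mul_dn (a b : A) (n : ℕ) : a * dn n b - ((-1 : ℚ) ^ n) • (dn n a * b) ∈ Ex := by
  induction n generalizing a with
  | zero => simp [dn_zero]
  | succ n ih =>
    have h1 : a * dn (n + 1) b - ((-1 : ℚ) ^ (n + 1)) • (dn (n + 1) a * b)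
        = d (a * dn n b) - (d a * dn n b - ((-1 : ℚ) ^ n) • (dn n (d a) * b)) := by
      rw [dn_succ, dn_succ', Derivation.leibniz, smul_eq_mul, smul_eq_mul, pow_succ]
      simp only [mul_neg, mul_one, neg_smul]
      ring
    rw [h1]
    exact Ex.sub_mem (d_mem_Ex _) (ih _)

theorem V_E (F a : A) : V F a - F * E a ∈ Ex := by
  have ha := pd_bd a
  rw [V_eq F a _ ha, E_eq a _ ha, Finset.mul_sum, ← Finset.sum_sub_distrib]
  refine Ex.sum_mem fun n _ => ?_
  have h := mul_dn (pderiv n a) F n
  have h2 : pderiv n a * dn n F - F * ((-1 : ℚ) ^ n) • dn n (pderiv n a) =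
      pderiv n a * dn n F - ((-1 : ℚ) ^ n) • (dn n (pderiv n a) * F) := by
    rw [mul_smul_comm, mul_comm F]
  rw [h2]; exact h

theorem E_sub_pd (a : A) : E a - pderiv 0 a ∈ Ex := by
  have ha : ∀ n, bd a + 1 ≤ n → pderiv n a = 0 := fun n hn => pd_bd a n (by omega)
  rw [E_eq a _ ha, Finset.sum_range_succ', dn_zero, pow_zero, one_smul, add_sub_cancel_right]
  refine Ex.sum_mem fun n _ => Ex.smul_mem _ ?_
  rw [dn_succ]
  exact d_mem_Ex _

theorem E_of_Ex {a : A} (h : a ∈ Ex) : E a = 0 := by
  obtain ⟨b, rfl⟩ := h; exact E_d b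

theorem E_E (a : A) : E (E a) = E (pderiv 0 a) := by
  have := E_of_Ex (E_sub_pd a)
  rw [E_sub] at this
  exact sub_eq_zero.1 this

/-- nondegeneracy of the pairing -/
theorem pairing_nondeg (W : A) (h : ∀ F : A, F * W ∈ Ex) : W = 0 := by
  obtain ⟨N, hN⟩ : ∃ N, ∀ n, N ≤ n → pderiv n W = 0 := ⟨_, pd_bd W⟩
  obtain ⟨c, hc⟩ := h (X (N + 1) ^ 2)
  have hc' : d c = X (N + 1) ^ 2 * W := hc
  have hq : ∀ j, N + 2 ≤ j → pderiv j (d c) = 0 := by
    intro j hj
    rw [hc', Derivation.leibniz, hN j (by omega), Derivation.leibniz_pow, pd_X, if_neg (by omega)]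
    simp
  have key : ∀ k, ∀ j, N + 1 ≤ j → bd c ≤ j + k → pderiv j c = 0 := by
    intro k
    induction k with
    | zero => intro j _ h2; exact pd_bd c j (by omega)
    | succ k ih =>
      intro j h1 h2
      have h3 := ih (j + 1) (by omega) (by omega)
      have h4 := hq (j + 1) (by omega)
      rw [pd_d_succ, h3, map_zero, zero_add] at h4
      exact h4
  have h5 : pderiv (N + 1) (d c) = pderiv N c := by
    rw [pd_d_succ, key (bd c) (N + 1) le_rfl (by omega), map_zero, zero_add]
  have h6 : pderiv (N + 1) (pderiv (N + 1) (d c)) = 0 := by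
    rw [h5, pd_comm, key (bd c) (N + 1) le_rfl (by omega), map_zero]
  rw [hc', Derivation.leibniz, hN _ (by omega), smul_zero, zero_add, Derivation.leibniz_pow, pd_X, if_pos rfl] at h6
  simp only [smul_eq_mul, mul_one] at h6
  rw [Derivation.leibniz, hN _ (by omega), smul_zero, add_zero] at h6
  rw [show (2 - 1 : ℕ) = 1 from rfl, pow_one, map_nsmul, pd_X, if_pos rfl] at h6
  simpa using h6

theorem P1 (H F a : A) : F * V H (E a) - (V H (V F a) - V (V H F) a) ∈ Ex := by
  have h1 := V_mem_Ex H (V_E F a)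
  have h2 := V_E (V H F) a
  rw [map_sub, Derivation.leibniz, smul_eq_mul, smul_eq_mul] at h1
  have h3 : F * V H (E a) - (V H (V F a) - V (V H F) a) =
      -(V H (V F a) - (F * V H (E a) + E a * V H F)) + (V (V H F) a - V H F * E a) := by ring
  rw [h3]
  exact Ex.add_mem (Ex.neg_mem h1) h2

theorem helm (F K b : A) : K * V F (E b) - F * V K (E b) ∈ Ex := by
  have h1 := P1 F K b
  have h2 := P1 K F b
  have h3 := V_comm F K b
  rw [V_sub, Derivation.sub_apply] at h3
  have h4 : K * V F (E b) - F * V K (E b) = (K * V F (E b) - (V F (V K b) - V (V F K) b)) -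
      (F * V K (E b) - (V K (V F b) - V (V K F) b)) := by
    linear_combination h3
  rw [h4]
  exact Ex.sub_mem h1 h2

/-- the variational derivative of the Poisson bracket -/
theorem E_bracket (a b : A) : E (V (d (E b)) a) = V (d (E b)) (E a) - V (d (E a)) (E b) := by
  rw [← sub_eq_zero]
  apply pairing_nondeg
  intro F
  set H := d (E b) with hH
  have h1 := V_E F (V H a)
  have h2 := V_comm F H a
  have h3 := P1 H F a
  have h4 := V_E (V F H) a
  have h5 : V F H = d (V F (E b)) := V_d F (E b)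
  have h6 := helm F (d (E a)) b
  have h7 : d (V F (E b) * E a) ∈ Ex := d_mem_Ex _
  rw [Derivation.leibniz, smul_eq_mul, smul_eq_mul] at h7
  rw [V_sub, Derivation.sub_apply] at h2
  rw [h5] at h4 h2
  have h8 : F * (E (V H a) - (V H (E a) - V (d (E a)) (E b))) =
      -(V F (V H a) - F * E (V H a)) - (F * V H (E a) - (V H (V F a) - V (V H F) a))
      + (V (d (V F (E b))) a - d (V F (E b)) * E a)
      - (d (E a) * V F (E b) - F * V (d (E a)) (E b))
      + (V F (E b) * d (E a) + E a * d (V F (E b))) := by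
    linear_combination h2
  rw [h8]
  exact Ex.add_mem (Ex.sub_mem (Ex.add_mem (Ex.sub_mem (Ex.neg_mem h1) h3) h4) h6) h7

theorem anti (a b : A) : V (d (E b)) a + V (d (E a)) b ∈ Ex := by
  have h1 := V_E (d (E b)) a
  have h2 := V_E (d (E a)) b
  have h3 : d (E a * E b) ∈ Ex := d_mem_Ex _
  rw [Derivation.leibniz, smul_eq_mul, smul_eq_mul] at h3
  have h4 : V (d (E b)) a + V (d (E a)) b = (V (d (E b)) a - d (E b) * E a) +
      (V (d (E a)) b - d (E a) * E b) + (E a * d (E b) + E b * d (E a)) := by ring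
  rw [h4]
  exact Ex.add_mem (Ex.add_mem h1 h2) h3

end Pool.Agent.Y665.RH
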