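import Pool.Agent.H93RH.Defs

/-!
# Tau-symmetric deformations of the Riemann hierarchy and their standard form

`DP = ℂ[[u]][u_1, u_2, …]` (the variable `X k` is `u_{k+1}`), `EDP = DP[[ε]]`, the partial derivatives
`pd k = ∂/∂u_k`, `dx = ∂_x`, homogeneity `Deg0` and commutation of flows `FlowsCommute` are those of
`Pool.Agent.H93RH.Defs`.
-/

set_option autoImplicit false
set_option linter.all false

open MvPolynomial

namespace Pool.Agent.Y665.RH

open Pool.Agent.H93RH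

/-- the variational derivative `δ/δu ∫ f dx = ∑_{k ≥ 0} (-∂_x)^k ∂f/∂u_k`. -/
noncomputable def vd (f : DP) : DP := ∑ᶠ k : ℕ, (-1) ^ k * dx^[k] (pd k f)

/-- `δ/δu` on `𝒜_u[[ε]]`, coefficientwise. -/
noncomputable def vdE (F : EDP) : EDP := PowerSeries.mk (fun n => vd (PowerSeries.coeff n F))

/-- the bracket `{f, ∫ h dx} = ∑_n (∂f/∂u_n) ∂_x^n (K (δ/δu) ∫ h dx)` of a density and a local
functional, for the Poisson operator `K = ∂_x`. -/
noncomputable def pb (f h : DP) : DP := ∑ᶠ n : ℕ, pd n f * dx^[n] (dx (vd h))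

/-- the bracket `{f, ∫ h dx}` on `𝒜_u[[ε]]`, `K = ∂_x`. -/
noncomputable def pbE (f h : EDP) : EDP :=
  PowerSeries.mk fun n => ∑ ij ∈ Finset.HasAntidiagonal.antidiagonal n,
    pb (PowerSeries.coeff ij.1 f) (PowerSeries.coeff ij.2 h)

/-- the element `u` of `𝒜_u[[ε]]` -/
noncomputable def uE : EDP := PowerSeries.C (C PowerSeries.X : DP)

/-- the element `u_x = u_1` of `𝒜_u[[ε]]` -/
noncomputable def uxE : EDP := PowerSeries.C (X 0 : DP)

/-- the sequence `h_{p-1}`, `p = 0, 1, 2, …`, with `h_{-1} = u`. -/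
noncomputable def prev (h : ℕ → EDP) : ℕ → EDP
  | 0 => uE
  | p + 1 => h p

/-- A tau-symmetric deformation of the Riemann hierarchy with Poisson operator `K = ∂_x`, given by its
densities `h_d`, `d ≥ 0`: they are homogeneous of degree `0` and equal to `u^{d+2}/(d+2)! + O(ε)`, the flows
`u_{t_d} = ∂_x δh̄_d/δu` commute pairwise, `{h_{p-1}, h̄_q} = {h_{q-1}, h̄_p}` for all `p, q ≥ 0`
(`h_{-1} = u`), `{u, h̄_0} = u_x` and `{u, ∫ u dx} = 0`. -/
structure IsTauSymmetric (h : ℕ → EDP) : Prop where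
  deg : ∀ d, Deg0 (h d)
  lead : ∀ d, PowerSeries.coeff 0 (h d) = C (PowerSeries.monomial (d + 2) (((d + 2).factorial : ℂ)⁻¹))
  comm : ∀ d e, FlowsCommute (vdE (h d)) (vdE (h e))
  tau : ∀ p q, pbE (prev h p) (h q) = pbE (prev h q) (h p)
  trans : pbE uE (h 0) = uxE
  casimir : pbE uE uE = 0

/-- The exponent `s` (`s k` = multiplicity of `u_{k+1}`) is a partition in `𝒫'`: the largest part
occurs at least twice and no part equals `1`. -/
def InP' (s : ℕ →₀ ℕ) : Prop := s 0 = 0 ∧ ∃ k, 2 ≤ s k ∧ ∀ j, k < j → s j = 0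

/-- `f` is a standard form with constant `a`: `f = u³/6 + a ε² u_1² + ∑_{k ≥ 4} ε^k f_k`, where
`f_k = ∑_{λ ∈ 𝒫'_k} a_λ u_λ` with complex constants `a_λ`, and `a_λ = 0` when `|λ|` is odd. -/
structure IsStandardForm (a : ℂ) (f : EDP) : Prop where
  deg : Deg0 f
  c0 : PowerSeries.coeff 0 f = C (PowerSeries.monomial 3 ((6 : ℂ)⁻¹))
  c1 : PowerSeries.coeff 1 f = 0
  c2 : PowerSeries.coeff 2 f = C (PowerSeries.C a) * X 0 ^ 2
  c3 : PowerSeries.coeff 3 f = 0
  cst : ∀ k, 4 ≤ k → ∀ s, coeff s (PowerSeries.coeff k f) ≠ 0 →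
    InP' s ∧ ∃ z : ℂ, coeff s (PowerSeries.coeff k f) = PowerSeries.C z
  odd : ∀ k, Odd k → PowerSeries.coeff k f = 0

/-- two densities define the same local functional: they differ by a `∂_x`-exact term. -/
def SameFunctional (h f : EDP) : Prop := ∀ n, ∃ g : DP, PowerSeries.coeff n h = PowerSeries.coeff n f + dx g

end Pool.Agent.Y665.RH
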