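import Pool.Agent.Y665.RH.Step
import Pool.Agent.Y665.RH.Stm

/-!
# Translation to `ℂ[[u]][u_1, u_2, …][[ε]]`
-/

set_option autoImplicit false
set_option linter.all false

open MvPolynomial Finset

namespace Pool.Agent.Y665.RH

open Pool.Agent.H93RH

theorem dU_mul_C (P : DP) (a : PowerSeries ℂ) : dU (P * C a) = dU P * C a + P * C (PowerSeries.derivative ℂ a) := by
  ext1 s
  have hc : ∀ (s : ℕ →₀ ℕ) (P : DP) (b : PowerSeries ℂ), coeff s (P * C b) = coeff s P * b := fun s P b => by
    rw [mul_comm, coeff_C_mul, mul_comm]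
  rw [coeff_dU, coeff_add, hc, hc, hc, coeff_dU, Derivation.leibniz]
  simp only [smul_eq_mul]
  ring

theorem pd_mul_C (k : ℕ) (P : DP) (a : PowerSeries ℂ) :
    pd k (P * C a) = pd k P * C a + if k = 0 then P * C (PowerSeries.derivative ℂ a) else 0 := by
  cases k with
  | zero => rw [if_pos rfl]; exact dU_mul_C P a
  | succ k =>
    rw [if_neg (by omega)]
    show pderiv k (P * C a) = pderiv k P * C a + 0
    rw [Derivation.leibniz, pderiv_C, smul_zero, zero_add, add_zero, smul_eq_mul, mul_comm]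

theorem dx_mul_C (P : DP) (a : PowerSeries ℂ) : dx (P * C a) = dx P * C a + P * (X 0 * C (PowerSeries.derivative ℂ a)) := by
  obtain ⟨N, hN⟩ := pd_fin P
  rw [dx_eq, dx_eq, EE_sum _ P (max N 1) (fun k hk => hN k (by omega)),
    EE_sum _ (P * C a) (max N 1) (fun k hk => by
      rw [pd_mul_C, hN k (by omega), if_neg (by omega)]; simp), Finset.sum_mul]
  have h : ∀ k ∈ range (max N 1), X k * pd k (P * C a) = X k * pd k P * C a +
      if k = 0 then P * (X 0 * C (PowerSeries.derivative ℂ a)) else 0 := by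
    intro k _
    rw [pd_mul_C]
    split_ifs with h
    · subst h; ring
    · ring
  rw [Finset.sum_congr rfl h, Finset.sum_add_distrib, Finset.sum_ite_eq', if_pos (Finset.mem_range.2 (by omega))]

/-- the embedding `ℚ[u, u_1, …] → ℂ[[u]][u_1, …]` -/
noncomputable def io : A →ₐ[ℚ] DP := aeval (fun n => match n with
  | 0 => (C PowerSeries.X : DP)
  | n + 1 => X n)

theorem io_X0 : io (X 0) = C PowerSeries.X := by unfold io; rw [aeval_X]
theorem io_X (n : ℕ) : io (X (n + 1)) = X n := by unfold io; rw [aeval_X]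
theorem io_C (c : ℚ) : io (C c) = C (PowerSeries.C (c : ℂ)) := by
  unfold io
  rw [aeval_C]
  rw [IsScalarTower.algebraMap_apply ℚ (PowerSeries ℂ) DP, IsScalarTower.algebraMap_apply ℚ ℂ (PowerSeries ℂ)]
  rfl

theorem der_X : PowerSeries.derivative ℂ (PowerSeries.X : PowerSeries ℂ) = 1 := PowerSeries.derivative_X

theorem io_pd (k : ℕ) (a : A) : io (pderiv k a) = pd k (io a) := by
  induction a using MvPolynomial.induction_on with
  | C c =>
    rw [pderiv_C, map_zero, io_C, pd_C]
    split_ifs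
    · rw [show PowerSeries.derivative ℂ (PowerSeries.C (c : ℂ)) = 0 from PowerSeries.derivative_C]; simp
    · rfl
  | add p q hp hq => rw [map_add, map_add, hp, hq, map_add, pd_add]
  | mul_X p i hp =>
    rw [Derivation.leibniz, map_add, smul_eq_mul, smul_eq_mul, map_mul, map_mul, hp, map_mul, pd_X]
    rcases i with _ | i
    · rw [io_X0, pd_mul_C, der_X]
      by_cases h : k = 0
      · subst h; simp; ring
      · rw [if_neg (Ne.symm h), if_neg h]; simp; ring
    · rw [io_X, pd_mul_X]
      by_cases h : k = i + 1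
      · subst h; simp; ring
      · rw [if_neg (Ne.symm h), if_neg h]; simp; ring

theorem io_d (a : A) : io (d a) = dx (io a) := by
  induction a using MvPolynomial.induction_on with
  | C c =>
    rw [← algebraMap_eq, Derivation.map_algebraMap, map_zero, algebraMap_eq, io_C, dx_C]
    rw [show PowerSeries.derivative ℂ (PowerSeries.C (c : ℂ)) = 0 from PowerSeries.derivative_C]; simp
  | add p q hp hq => rw [map_add, map_add, hp, hq, map_add, dx_add]
  | mul_X p i hp =>
    rw [Derivation.leibniz, map_add, smul_eq_mul, smul_eq_mul, map_mul, map_mul, hp, map_mul, d_X]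
    rcases i with _ | i
    · rw [io_X0, dx_mul_C, der_X, io_X]; simp; ring
    · rw [show io (X (i + 1)) = (X i : DP) from io_X i, dx_mul_X, show io (X (i + 1 + 1)) = (X (i + 1) : DP) from io_X (i + 1)]; ring

theorem io_dn (n : ℕ) (a : A) : io (dn n a) = dx^[n] (io a) := by
  induction n with
  | zero => rfl
  | succ n ih => rw [dn_succ, io_d, ih, Function.iterate_succ_apply']

theorem io_pd_zero (a : A) (n : ℕ) (h : bd a ≤ n) : pd n (io a) = 0 := by
  rw [← io_pd, pd_bd a n h, map_zero]

theorem dx_zero'' : dx (0 : DP) = 0 := by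
  have := dx_add 0 0
  rw [add_zero] at this
  exact left_eq_add.1 this
theorem dx_iter_zero' (k : ℕ) : dx^[k] (0 : DP) = 0 := by
  induction k with
  | zero => rfl
  | succ k ih => rw [Function.iterate_succ_apply, dx_zero'', ih]

theorem io_E (a : A) : io (E a) = vd (io a) := by
  unfold vd
  rw [E, map_sum, finsum_eq_sum_of_support_subset (s := range (bd a))]
  · refine Finset.sum_congr rfl fun n _ => ?_
    rw [map_smul, io_dn, io_pd]
    rcases Nat.even_or_odd n with h | h
    · rw [show ((-1 : ℚ) ^ n) = 1 from h.neg_one_pow, show ((-1 : DP) ^ n) = 1 from Even.neg_one_pow (α := DP) h, one_smul, one_mul]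
    · rw [show ((-1 : ℚ) ^ n) = -1 from h.neg_one_pow, show ((-1 : DP) ^ n) = -1 from Odd.neg_one_pow (α := DP) h, neg_one_smul]
      exact (neg_one_mul (α := DP) _).symm
  · intro n hn
    simp only [Finset.coe_range, Set.mem_Iio]
    by_contra h
    apply hn
    simp only
    rw [io_pd_zero a n (by omega), dx_iter_zero', mul_zero]

theorem io_V (F a : A) : io (V F a) = ∑ᶠ n : ℕ, pd n (io a) * dx^[n] (io F) := by
  rw [V_eq F a _ (pd_bd a), map_sum, finsum_eq_sum_of_support_subset (s := range (bd a))]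
  · exact Finset.sum_congr rfl fun n _ => by rw [map_mul, io_dn, io_pd]
  · intro n hn
    simp only [Finset.coe_range, Set.mem_Iio]
    by_contra h
    apply hn
    simp only
    rw [io_pd_zero a n (by omega), zero_mul]

theorem io_pb (a b : A) : pb (io a) (io b) = io (V (d (E b)) a) := by
  rw [io_V, pb, io_d, io_E]

theorem io_brk (a b : A) : brk (io a) (io b) = io (V a b - V b a) := by
  rw [brk_eq, map_sub, io_V, io_V]
  unfold EE
  congr 1
  · exact finsum_congr fun k => mul_comm _ _
  · exact finsum_congr fun k => mul_comm _ _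

/-! ### monomials -/

/-- shift of exponents -/
noncomputable def tl (t : ℕ →₀ ℕ) : ℕ →₀ ℕ := Finsupp.comapDomain Nat.succ t (Nat.succ_injective.injOn)

theorem tl_apply (t : ℕ →₀ ℕ) (k : ℕ) : tl t k = t (k + 1) := rfl

theorem io_monomial (t : ℕ →₀ ℕ) (r : ℚ) : io (monomial t r) =
    monomial (tl t) (PowerSeries.C (r : ℂ) * PowerSeries.X ^ (t 0)) := by
  have h1 : ∀ t : ℕ →₀ ℕ, io (monomial t 1) = monomial (tl t) (PowerSeries.X ^ (t 0)) := by
    intro t
    induction t using Finsupp.induction_linear with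
    | zero =>
      have : tl 0 = 0 := by ext k; rw [tl_apply]; rfl
      rw [show (monomial (0 : ℕ →₀ ℕ) (1 : ℚ)) = 1 from rfl, map_one, this]
      simp
    | add t1 t2 h1 h2 =>
      have : tl (t1 + t2) = tl t1 + tl t2 := by ext k; rfl
      rw [show (monomial (t1 + t2) (1 : ℚ)) = monomial t1 1 * monomial t2 1 by rw [monomial_mul, one_mul], map_mul, h1,
        h2, monomial_mul, this, ← pow_add]
      rfl
    | single i m =>
      rw [show (monomial (Finsupp.single i m) (1 : ℚ)) = X i ^ m by rw [X_pow_eq_monomial], map_pow]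
      rcases i with _ | i
      · have : tl (Finsupp.single 0 m) = 0 := by ext k; rw [tl_apply, Finsupp.single_eq_of_ne (by omega)]; rfl
        rw [io_X0, this, Finsupp.single_eq_same, ← map_pow]
        rfl
      · have : tl (Finsupp.single (i + 1) m) = Finsupp.single i m := by
          ext k
          rw [tl_apply]
          by_cases h : k = i
          · subst h; rw [Finsupp.single_eq_same, Finsupp.single_eq_same]
          · rw [Finsupp.single_eq_of_ne (by omega), Finsupp.single_eq_of_ne h]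
        rw [io_X, this, Finsupp.single_eq_of_ne (by omega), pow_zero, X_pow_eq_monomial]
  have h2 : (monomial t r : A) = C r * monomial t 1 := by rw [C_mul_monomial, mul_one]
  rw [h2, map_mul, io_C, h1, C_mul_monomial]

theorem io_WH {m k : ℕ} {a : A} (ha : BH m k a) : (io a).IsWeightedHomogeneous (fun k : ℕ => k + 1) k := by
  rw [a.as_sum, map_sum]
  refine IsWeightedHomogeneous.sum _ _ _ fun t ht => ?_
  rw [io_monomial]
  refine isWeightedHomogeneous_monomial _ _ _ ?_
  have h := ha (mem_support_iff.1 ht)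
  have h2 : ∀ t : ℕ →₀ ℕ, Finsupp.weight (fun k : ℕ => k + 1) (tl t) = (Finsupp.weight (fun n : ℕ => ((1 : ℕ), n)) t).2 := by
    intro t
    induction t using Finsupp.induction_linear with
    | zero =>
      have : tl 0 = 0 := by ext k; rw [tl_apply]; rfl
      rw [this, map_zero, map_zero]; rfl
    | add t1 t2 h1 h2 =>
      have : tl (t1 + t2) = tl t1 + tl t2 := by ext k; rfl
      rw [this, map_add, map_add, h1, h2, Prod.snd_add]
    | single i m =>
      rcases i with _ | i
      · have : tl (Finsupp.single 0 m) = 0 := by ext k; rw [tl_apply, Finsupp.single_eq_of_ne (by omega)]; rfl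
        rw [this, map_zero, Finsupp.weight_single]; simp
      · have : tl (Finsupp.single (i + 1) m) = Finsupp.single i m := by
          ext k
          rw [tl_apply]
          by_cases h : k = i
          · subst h; rw [Finsupp.single_eq_same, Finsupp.single_eq_same]
          · rw [Finsupp.single_eq_of_ne (by omega), Finsupp.single_eq_of_ne h]
        rw [this, Finsupp.weight_single, Finsupp.weight_single]; simp
  rw [h2, h]

theorem coeff_io {a : A} (ha : ∀ t, coeff t a ≠ 0 → t 0 = 0) (s : ℕ →₀ ℕ) :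
    ∃ z : ℚ, coeff s (io a) = PowerSeries.C (z : ℂ) ∧ (z ≠ 0 → ∃ t, coeff t a ≠ 0 ∧ tl t = s) := by
  classical
  have h1 : coeff s (io a) = ∑ t ∈ a.support, if tl t = s then PowerSeries.C ((coeff t a : ℚ) : ℂ) else 0 := by
    conv_lhs => rw [a.as_sum]
    rw [map_sum, coeff_sum]
    refine Finset.sum_congr rfl fun t ht => ?_
    rw [io_monomial, coeff_monomial, ha t (mem_support_iff.1 ht), pow_zero, mul_one]
  refine ⟨∑ t ∈ a.support, if tl t = s then coeff t a else 0, ?_, ?_⟩
  · rw [h1]
    push_cast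
    rw [map_sum]
    refine Finset.sum_congr rfl fun t _ => ?_
    split_ifs
    · rfl
    · simp
  · intro hz
    obtain ⟨t, ht, h⟩ := Finset.exists_ne_zero_of_sum_ne_zero hz
    split_ifs at h with h2
    · exact ⟨t, h, h2⟩
    · exact absurd rfl h

/-! ### sums over multiples of 18 -/

theorem sum18 {M : Type*} [AddCommMonoid M] (g : ℕ → ℕ → M) (hg : ∀ i j, ¬ (18 ∣ i ∧ 18 ∣ j) → g i j = 0) (n : ℕ) :
    ∑ p ∈ HasAntidiagonal.antidiagonal n, g p.1 p.2 =
      if 18 ∣ n then ∑ p ∈ HasAntidiagonal.antidiagonal (n / 18), g (18 * p.1) (18 * p.2) else 0 := by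
  split_ifs with h
  · obtain ⟨m, rfl⟩ := h
    rw [Nat.mul_div_cancel_left _ (by omega)]
    symm
    have hinj : ∀ p ∈ HasAntidiagonal.antidiagonal m, ∀ q ∈ HasAntidiagonal.antidiagonal m,
        ((18 * p.1, 18 * p.2) : ℕ × ℕ) = (18 * q.1, 18 * q.2) → p = q := by
      intro p _ q _ h
      rw [Prod.mk.injEq] at h
      ext <;> omega
    rw [← Finset.sum_image (f := fun p : ℕ × ℕ => g p.1 p.2) (g := fun p : ℕ × ℕ => ((18 * p.1, 18 * p.2) : ℕ × ℕ)) hinj]
    apply Finset.sum_subset
    · intro p hp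
      rw [Finset.mem_image] at hp
      obtain ⟨q, hq, rfl⟩ := hp
      rw [HasAntidiagonal.mem_antidiagonal] at hq ⊢
      simp only
      omega
    · intro p hp hnot
      apply hg
      rintro ⟨⟨a, ha⟩, ⟨b, hb⟩⟩
      apply hnot
      rw [Finset.mem_image]
      rw [HasAntidiagonal.mem_antidiagonal] at hp
      refine ⟨(a, b), ?_, ?_⟩
      · rw [HasAntidiagonal.mem_antidiagonal]; simp only; omega
      · ext
        · exact ha.symm
        · exact hb.symm
  · refine Finset.sum_eq_zero fun p hp => hg _ _ ?_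
    rintro ⟨h1, h2⟩
    rw [HasAntidiagonal.mem_antidiagonal] at hp
    exact h (hp ▸ dvd_add h1 h2)

/-! ### the hierarchy -/

section hier

variable (f : ℕ → A × A)

omit f in
theorem io_pw (e : ℕ) : io (pw e) = C (PowerSeries.monomial e (((e.factorial : ℕ) : ℂ)⁻¹)) := by
  rw [pw, map_smul, map_pow, io_X0, ← map_pow,
    ← algebraMap_smul (PowerSeries ℂ) (((e.factorial : ℕ) : ℚ)⁻¹) (C (PowerSeries.X ^ e) : DP),
    smul_eq_C_mul, ← C_mul]
  congr 1
  rw [IsScalarTower.algebraMap_apply ℚ ℂ (PowerSeries ℂ)]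
  ext1 k
  have h1 : (algebraMap ℂ (PowerSeries ℂ)) (algebraMap ℚ ℂ ((e.factorial : ℕ) : ℚ)⁻¹) =
      PowerSeries.C (((e.factorial : ℕ) : ℂ)⁻¹) := by
    rw [map_inv₀, map_natCast]; rfl
  rw [h1, PowerSeries.coeff_C_mul, PowerSeries.coeff_X_pow, PowerSeries.coeff_monomial]
  split_ifs <;> simp

theorem Gs_zero (e : ℕ) : Gs f 0 e = pw e := by unfold Gs; rw [Hs_zero, E_pw]

theorem Gs_e1 (n : ℕ) : Gs f (n + 1) 1 = 0 := by
  have h2 : ww f 1 n ∈ Ex := by
    unfold ww
    refine Ex.sum_mem fun p hp => ?_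
    rw [Fs_e1']
    split_ifs
    · rw [V_X1]; exact d_mem_Ex _
    · rw [V_zero]; exact Ex.zero_mem
  unfold Gs
  rw [Hs_succ, tt_e1, dv_zero, zero_add, E_of_Ex (Ex.neg_mem (Ex.smul_mem _ h2))]

variable {f} (hf : ∀ n, PP n f)
include hf

theorem pd_Hs' (m e : ℕ) : pderiv 0 (Hs f m (e + 1)) = Hs f m e := pd_Hs m (fun k _ => hf k) e m le_rfl

theorem E_Gs (m e : ℕ) : E (Gs f m (e + 1)) = Gs f m e := by
  unfold Gs; rw [E_E, pd_Hs' hf]

theorem BH_Gs (m e : ℕ) : BH (6 * m + e) (18 * m) (Gs f m e) :=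
  BH.E (PP.BH_Hs (n := m) (fun k _ => hf k) e m le_rfl)

theorem kap_zero (e e' : ℕ) : kap f e e' = 0 := by
  ext1 n
  rw [map_zero]
  exact commute (n := n) (fun k _ => hf k) e e' n le_rfl

end hier

/-- the densities as elements of `𝒜_u[[ε]]` -/
noncomputable def hh (f : ℕ → A × A) (e : ℕ) : EDP :=
  PowerSeries.mk fun n => if 18 ∣ n then io (Gs f (n / 18) e) else 0

theorem coeff_hh (f : ℕ → A × A) (e n : ℕ) : PowerSeries.coeff n (hh f e) = if 18 ∣ n then io (Gs f (n / 18) e) else 0 :=
  PowerSeries.coeff_mk _ _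
theorem coeff_hh18 (f : ℕ → A × A) (e m : ℕ) : PowerSeries.coeff (18 * m) (hh f e) = io (Gs f m e) := by
  rw [coeff_hh, if_pos (Dvd.intro _ rfl), Nat.mul_div_cancel_left _ (by omega)]
theorem coeff_hh_not (f : ℕ → A × A) (e n : ℕ) (h : ¬ 18 ∣ n) : PowerSeries.coeff n (hh f e) = 0 := by
  rw [coeff_hh, if_neg h]

theorem hh_one (f : ℕ → A × A) : hh f 1 = uE := by
  ext1 n
  rw [coeff_hh, uE, PowerSeries.coeff_C]
  by_cases h0 : n = 0
  · subst h0
    rw [if_pos (dvd_zero _), if_pos rfl, Nat.zero_div, Gs_zero, pw_one, io_X0]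
  · rw [if_neg h0]
    split_ifs with h
    · obtain ⟨m, rfl⟩ := h
      obtain ⟨m', rfl⟩ : ∃ m', m = m' + 1 := ⟨m - 1, by omega⟩
      rw [Nat.mul_div_cancel_left _ (by omega), Gs_e1, map_zero]
    · rfl

theorem vd_zero' : vd (0 : DP) = 0 := by
  have := io_E 0
  rw [map_zero, E_zero, map_zero] at this
  exact this.symm

theorem vdE_hh {f : ℕ → A × A} (hf : ∀ n, PP n f) (e : ℕ) : vdE (hh f (e + 1)) = hh f e := by
  ext1 n
  rw [vdE, PowerSeries.coeff_mk, coeff_hh, coeff_hh]
  split_ifs
  · rw [← io_E, E_Gs hf]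
  · exact vd_zero'

theorem pb_zero_left (x : DP) : pb 0 x = 0 := by
  unfold pb
  have : ∀ n : ℕ, pd n (0 : DP) * dx^[n] (dx (vd x)) = 0 := by
    intro n
    have h : pd n (0 : DP) = 0 := by
      have := pd_add n 0 0
      rw [add_zero] at this
      exact left_eq_add.1 this
    rw [h, zero_mul]
  rw [finsum_congr this, finsum_zero]
theorem pb_zero_right (x : DP) : pb x 0 = 0 := by
  unfold pb
  have : ∀ n : ℕ, pd n x * dx^[n] (dx (vd (0 : DP))) = 0 := by
    intro n
    rw [vd_zero', dx_zero'', dx_iter_zero', mul_zero]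
  rw [finsum_congr this, finsum_zero]
theorem brk_zero_left (x : DP) : brk 0 x = 0 := by
  rw [brk_eq]
  unfold EE
  have h1 : ∀ k : ℕ, dx^[k] (0 : DP) * pd k x = 0 := fun k => by rw [dx_iter_zero', zero_mul]
  have h2 : ∀ k : ℕ, dx^[k] x * pd k (0 : DP) = 0 := fun k => by
    have h : pd k (0 : DP) = 0 := by
      have := pd_add k 0 0
      rw [add_zero] at this
      exact left_eq_add.1 this
    rw [h, mul_zero]
  rw [finsum_congr h1, finsum_congr h2, finsum_zero, sub_zero]
theorem brk_zero_right (x : DP) : brk x 0 = 0 := by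
  rw [brk_eq]
  unfold EE
  have h1 : ∀ k : ℕ, dx^[k] (0 : DP) * pd k x = 0 := fun k => by rw [dx_iter_zero', zero_mul]
  have h2 : ∀ k : ℕ, dx^[k] x * pd k (0 : DP) = 0 := fun k => by
    have h : pd k (0 : DP) = 0 := by
      have := pd_add k 0 0
      rw [add_zero] at this
      exact left_eq_add.1 this
    rw [h, mul_zero]
  rw [finsum_congr h1, finsum_congr h2, finsum_zero, sub_zero]

theorem pbE_hh {f : ℕ → A × A} (hf : ∀ n, PP n f) (e e' : ℕ) (n : ℕ) :
    PowerSeries.coeff n (pbE (hh f e) (hh f (e' + 1))) =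
      if 18 ∣ n then io (PowerSeries.coeff (n / 18) (VS (FS f e') (GS f e))) else 0 := by
  rw [pbE, PowerSeries.coeff_mk,
    sum18 (fun i j => pb (PowerSeries.coeff i (hh f e)) (PowerSeries.coeff j (hh f (e' + 1)))) ?_ n]
  · split_ifs with h
    · rw [coeff_VS, map_sum, ← Finset.Nat.sum_antidiagonal_swap (n := n / 18)
        (f := fun p => io (V (PowerSeries.coeff p.1 (FS f e')) (PowerSeries.coeff p.2 (GS f e))))]
      refine Finset.sum_congr rfl fun p _ => ?_
      rw [coeff_hh18, coeff_hh18, io_pb, E_Gs hf, FS, GS, PowerSeries.coeff_mk, PowerSeries.coeff_mk]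
      rfl
    · rfl
  · intro i j hij
    by_cases h1 : 18 ∣ i
    · have h2 : ¬ 18 ∣ j := fun h2 => hij ⟨h1, h2⟩
      rw [coeff_hh_not f _ j h2, pb_zero_right]
    · rw [coeff_hh_not f _ i h1, pb_zero_left]

theorem prev_hh (f : ℕ → A × A) (p : ℕ) : prev (fun d => hh f (d + 2)) p = hh f (p + 1) := by
  rcases p with _ | p
  · exact (hh_one f).symm
  · rfl

theorem tauSym {f : ℕ → A × A} (hf : ∀ n, PP n f) : IsTauSymmetric (fun d => hh f (d + 2)) where
  deg := by
    intro e n
    rw [coeff_hh]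
    split_ifs with h
    · obtain ⟨m, rfl⟩ := h
      rw [Nat.mul_div_cancel_left _ (by omega)]
      exact io_WH (BH_Gs hf m _)
    · exact isWeightedHomogeneous_zero _ _ _
  lead := by
    intro e
    rw [coeff_hh, if_pos (dvd_zero _), Nat.zero_div, Gs_zero, io_pw]
  comm := by
    intro e e' n
    rw [vdE_hh hf, vdE_hh hf,
      sum18 (fun i j => brk (dx (PowerSeries.coeff i (hh f (e + 1)))) (dx (PowerSeries.coeff j (hh f (e' + 1))))) ?_ n]
    · split_ifs with h
      · have h0 : PowerSeries.coeff (n / 18) (dS (kap f (e + 1) (e' + 1))) = 0 := by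
          rw [kap_zero hf, coeff_dS, map_zero, map_zero]
        rw [dS_kap, map_sub, coeff_VS, coeff_VS,
          ← Finset.Nat.sum_antidiagonal_swap (n := n / 18)
            (f := fun p => V (PowerSeries.coeff p.1 (FS f (e' + 1))) (PowerSeries.coeff p.2 (FS f (e + 1)))),
          ← Finset.sum_sub_distrib] at h0
        have h1 := congrArg io h0
        rw [map_sum, map_zero] at h1
        rw [← h1]
        refine Finset.sum_congr rfl fun p _ => ?_
        rw [coeff_hh18, coeff_hh18, ← io_d, ← io_d, io_brk]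
        rw [FS, FS, Prod.fst_swap, Prod.snd_swap]
        simp only [PowerSeries.coeff_mk]
        rfl
      · rfl
    · intro i j hij
      by_cases h1 : 18 ∣ i
      · have h2 : ¬ 18 ∣ j := fun h2 => hij ⟨h1, h2⟩
        rw [coeff_hh_not f _ j h2, dx_zero'', brk_zero_right]
      · rw [coeff_hh_not f _ i h1, dx_zero'', brk_zero_left]
  tau := by
    intro p q
    rw [prev_hh, prev_hh]
    ext1 n
    rw [pbE_hh hf, pbE_hh hf]
    have h := kap_zero hf (q + 1) (p + 1)
    rw [kap, sub_eq_zero] at h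
    rw [h]
  trans := by
    rw [← hh_one f]
    ext1 n
    rw [pbE_hh hf, uxE, PowerSeries.coeff_C]
    by_cases h0 : n = 0
    · subst h0
      rw [if_pos (dvd_zero _), if_pos rfl, Nat.zero_div, coeff_VS, Finset.Nat.antidiagonal_zero, Finset.sum_singleton,
        FS, GS, PowerSeries.coeff_mk, PowerSeries.coeff_mk, Fs_e1', if_pos rfl, Gs_zero, pw_one, V_X1, d_X, io_X]
    · rw [if_neg h0]
      split_ifs with h
      · obtain ⟨m, rfl⟩ := h
        obtain ⟨m', rfl⟩ : ∃ m', m = m' + 1 := ⟨m - 1, by omega⟩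
        rw [Nat.mul_div_cancel_left _ (by omega), coeff_VS]
        have : ∑ p ∈ antidiagonal (m' + 1), V (PowerSeries.coeff p.1 (FS f 1)) (PowerSeries.coeff p.2 (GS f 1)) = 0 := by
          refine Finset.sum_eq_zero fun p hp => ?_
          rw [HasAntidiagonal.mem_antidiagonal] at hp
          rw [FS, GS, PowerSeries.coeff_mk, PowerSeries.coeff_mk, Fs_e1']
          split_ifs with h1
          · obtain ⟨k, hk⟩ : ∃ k, p.2 = k + 1 := ⟨p.2 - 1, by omega⟩
            rw [hk, Gs_e1, map_zero]
          · rw [V_zero]; rfl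
        rw [this, map_zero]
      · rfl
  casimir := by
    rw [← hh_one f]
    ext1 n
    rw [pbE_hh hf, map_zero]
    split_ifs with h
    · have : VS (FS f 0) (GS f 1) = 0 := by
        ext1 k
        rw [coeff_VS, map_zero]
        exact Finset.sum_eq_zero fun p _ => by
          rw [FS, PowerSeries.coeff_mk, Fs_e0, V_zero]; rfl
      rw [this, map_zero, map_zero]
    · rfl

/-- the standard form of the counterexample -/
theorem exists_counterexample : ∃ (h : ℕ → EDP) (F : EDP), IsTauSymmetric h ∧ IsStandardForm 0 F ∧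
    SameFunctional (h 1) F ∧ coeff (Finsupp.single 1 9) (PowerSeries.coeff 18 F) = PowerSeries.C (-25) := by
  obtain ⟨f, hf⟩ := exists_PP
  choose g S hg1 hg2 hg3 hg4 using fun n => (hf n).nf
  -- normal forms of all orders
  set F : EDP := PowerSeries.mk fun n => if n = 0 then C (PowerSeries.monomial 3 ((6 : ℂ)⁻¹)) else
    if 18 ∣ n then io (-((((n / 18 - 1 : ℕ) : ℚ) + 1)⁻¹ • g (n / 18 - 1))) else 0 with hF
  have cF : ∀ m, PowerSeries.coeff (18 * (m + 1)) F = io (-(((m : ℚ) + 1)⁻¹ • g m)) := by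
    intro m
    rw [hF, PowerSeries.coeff_mk, if_neg (by omega), if_pos (Dvd.intro _ rfl), Nat.mul_div_cancel_left _ (by omega),
      Nat.add_sub_cancel]
  have cF0 : PowerSeries.coeff 0 F = C (PowerSeries.monomial 3 ((6 : ℂ)⁻¹)) := by
    rw [hF, PowerSeries.coeff_mk, if_pos rfl]
  have cFn : ∀ n, ¬ 18 ∣ n → PowerSeries.coeff n F = 0 := by
    intro n hn
    rw [hF, PowerSeries.coeff_mk, if_neg (by intro h; apply hn; rw [h]; exact dvd_zero _), if_neg hn]
  have hts := tauSym hf
  refine ⟨_, F, hts, ⟨?_, cF0, cFn 1 (by omega), ?_, cFn 3 (by omega), ?_, ?_⟩, ?_, ?_⟩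
  · intro n
    by_cases h0 : n = 0
    · subst h0
      rw [cF0]
      exact isWeightedHomogeneous_C _ _
    · by_cases h : 18 ∣ n
      · obtain ⟨m, rfl⟩ := h
        obtain ⟨m', rfl⟩ : ∃ m', m = m' + 1 := ⟨m - 1, by omega⟩
        rw [cF]
        have h1 : BH (6 * m' + 9) (18 * (m' + 1)) (-(((m' : ℚ) + 1)⁻¹ • g m')) :=
          (((hg2 m').smul _).neg).congr rfl (by omega)
        exact io_WH h1
      · rw [cFn n h]; exact isWeightedHomogeneous_zero _ _ _
  · rw [cFn 2 (by omega)]; simp
  · intro k hk s hs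
    by_cases h : 18 ∣ k
    · obtain ⟨m, rfl⟩ := h
      obtain ⟨m', rfl⟩ : ∃ m', m = m' + 1 := ⟨m - 1, by omega⟩
      rw [cF] at hs ⊢
      have hnf : IsNF (-(((m' : ℚ) + 1)⁻¹ • g m')) := by
        rw [← neg_one_smul ℚ]; exact ((hg1 m').smul _).smul _
      obtain ⟨z, hz1, hz2⟩ := coeff_io (fun t ht => (hnf t ht).1) s
      refine ⟨?_, z, hz1⟩
      have hz : z ≠ 0 := by
        intro h0
        apply hs
        rw [hz1, h0]; simp
      obtain ⟨t, ht1, ht2⟩ := hz2 hz
      obtain ⟨h0, h1, L, hL, hj⟩ := hnf t ht1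
      obtain ⟨L', rfl⟩ : ∃ L', L = L' + 1 := ⟨L - 1, by
        rcases L with _ | L
        · omega
        · omega⟩
      rw [← ht2]
      exact ⟨h1, L', hL, fun j hjL => hj (j + 1) (by omega)⟩
    · rw [cFn k h, coeff_zero] at hs; exact absurd rfl hs
  · intro k hk
    apply cFn
    intro h
    rw [← Nat.not_even_iff_odd] at hk
    apply hk
    obtain ⟨m, rfl⟩ := h
    exact ⟨9 * m, by ring⟩
  · intro n
    show ∃ x, PowerSeries.coeff n (hh f 3) = _
    by_cases h : 18 ∣ n
    · obtain ⟨m, rfl⟩ := h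
      rw [coeff_hh18]
      obtain ⟨x, hx⟩ := E_sub_pd (Hs f m 3)
      rw [pd_Hs' hf] at hx
      have hx' : Gs f m 3 = Hs f m 2 + d x := by
        have : d x = E (Hs f m 3) - Hs f m 2 := hx
        rw [this]; unfold Gs; ring
      rcases m with _ | m
      · refine ⟨io (d x) |> fun _ => io x, ?_⟩
        rw [hx', map_add, io_d, Nat.mul_zero, cF0, Hs_zero]
        congr 1
        rw [io_pw]
        have h6 : (((2 + 1 : ℕ).factorial : ℕ) : ℂ) = 6 := by norm_num [Nat.factorial]
        rw [h6]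
      · refine ⟨io (x - ((m : ℚ) + 1)⁻¹ • S m), ?_⟩
        rw [hx', cF, ← io_d, ← map_add]
        congr 1
        rw [Hs_succ, hg3, map_sub, Derivation.map_smul, smul_add]
        ring
    · refine ⟨0, ?_⟩
      rw [coeff_hh_not f _ n h, cFn n h, dx_zero'', add_zero]
  · have h := cF 0
    rw [hg4 0 rfl] at h
    rw [show 18 = 18 * (0 + 1) from rfl, h]
    have h2 : -((((0 : ℕ) : ℚ) + 1)⁻¹ • (25 : ℚ) • (X 2 : A) ^ 9) = monomial (Finsupp.single 2 9) (-25 : ℚ) := by
      rw [X_pow_eq_monomial, smul_smul, smul_monomial, ← map_neg]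
      congr 1
      norm_num
    rw [h2, io_monomial, coeff_monomial, if_pos, Finsupp.single_eq_of_ne (by omega), pow_zero, mul_one]
    · congr 1; norm_num
    · ext k
      rw [tl_apply]
      by_cases h : k = 1
      · subst h; rw [Finsupp.single_eq_same, Finsupp.single_eq_same]
      · rw [Finsupp.single_eq_of_ne (by omega), Finsupp.single_eq_of_ne h]

end Pool.Agent.Y665.RH
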