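import Pool.Agent.Y665.RH.Hom

/-!
# Functions on Morse germs and the derivations `D_j`
-/

set_option autoImplicit false
set_option linter.all false

open MvPolynomial Finset

namespace Pool.Agent.Y665.RH

/-! ### the main identity for the derivations `N` -/

theorem N_ID (F G a : A) : X 2 * (N F (N G a) - N G (N F a)) =
    N F (X 2) * N G a - N G (X 2) * N F a + X 2 ^ 2 * N (V F G - V G F) a := by
  have h3 := V_comm F G a
  simp only [N_apply, map_sub, Derivation.leibniz, smul_eq_mul, V_X, d_X, V_d, dn_succ, dn_one, dn_zero,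
    V_sub, Derivation.sub_apply, show (2 : ℕ) = 0 + 1 + 1 from rfl]
  rw [V_sub, Derivation.sub_apply] at h3
  simp only [show (0 : ℕ) + 1 + 1 = 2 from rfl]
  linear_combination (X 2 : A) ^ 3 * h3

/-! ### setting `u = u_1 = 0`, `u_2 = 1` -/

/-- `u, u_1 ↦ 0`, `u_2 ↦ 1` -/
noncomputable def sg : A →ₐ[ℚ] A := aeval (fun n => if n < 2 then (0 : A) else if n = 2 then 1 else X n)

theorem sg_X0 : sg (X 0) = 0 := by simp [sg]
theorem sg_X1 : sg (X 1) = 0 := by simp [sg]
theorem sg_X2 : sg (X 2) = 1 := by simp [sg]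
theorem sg_X (n : ℕ) (h : 3 ≤ n) : sg (X n) = X n := by
  unfold sg
  rw [aeval_X, if_neg (by omega), if_neg (by omega)]

theorem sg_sg (a : A) : sg (sg a) = sg a := by
  have : (sg.comp sg) = sg := by
    apply MvPolynomial.algHom_ext
    intro n
    rw [AlgHom.comp_apply]
    rcases Nat.lt_or_ge n 3 with h | h
    · interval_cases n
      · rw [sg_X0, map_zero]
      · rw [sg_X1, map_zero]
      · rw [sg_X2, map_one]
    · rw [sg_X n h, sg_X n h]
  exact DFunLike.congr_fun this a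

/-- `a` is homogeneous of weight `m`, the weight of `u_n` being `n - 2` -/
def WZ (m : ℤ) (a : A) : Prop := IsWeightedHomogeneous (fun n : ℕ => (n : ℤ) - 2) a m

theorem WZ_zero (m : ℤ) : WZ m 0 := isWeightedHomogeneous_zero ℚ _ _
theorem WZ.congr {m m' : ℤ} {a : A} (h : WZ m a) (hm : m = m') : WZ m' a := hm ▸ h
theorem WZ.smul {m : ℤ} {a : A} (h : WZ m a) (c : ℚ) : WZ m (c • a) := by
  rw [smul_eq_C_mul]; exact IsWeightedHomogeneous.C_mul h c
theorem WZ.add {m : ℤ} {a b : A} (ha : WZ m a) (hb : WZ m b) : WZ m (a + b) :=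
  IsWeightedHomogeneous.add ha hb
theorem WZ.sub {m : ℤ} {a b : A} (ha : WZ m a) (hb : WZ m b) : WZ m (a - b) :=
  IsWeightedHomogeneous.sub ha hb
theorem WZ.neg {m : ℤ} {a : A} (ha : WZ m a) : WZ m (-a) :=
  IsWeightedHomogeneous.neg ha
theorem WZ.mul {m m' : ℤ} {a b : A} (ha : WZ m a) (hb : WZ m' b) : WZ (m + m') (a * b) :=
  IsWeightedHomogeneous.mul ha hb
theorem WZ.pow {m : ℤ} {a : A} (ha : WZ m a) (n : ℕ) : WZ (n * m) (a ^ n) := by
  have := IsWeightedHomogeneous.pow ha n
  simpa [WZ] using this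

theorem weight_rel (t : ℕ →₀ ℕ) : Finsupp.weight (fun n : ℕ => (n : ℤ) - 2) t =
    ((Finsupp.weight (fun n : ℕ => ((1 : ℕ), n)) t).2 : ℤ) -
      2 * ((Finsupp.weight (fun n : ℕ => ((1 : ℕ), n)) t).1 : ℤ) := by
  induction t using Finsupp.induction_linear with
  | zero => simp
  | add t1 t2 h1 h2 => rw [map_add, map_add, h1, h2]; push_cast [Prod.fst_add, Prod.snd_add]; ring
  | single i m =>
    rw [Finsupp.weight_single, Finsupp.weight_single]
    simp only [Prod.smul_mk, smul_eq_mul, nsmul_eq_mul]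
    push_cast; ring

theorem sg_monomial_WZ (t : ℕ →₀ ℕ) : WZ (Finsupp.weight (fun n : ℕ => (n : ℤ) - 2) t)
    (sg (monomial t 1)) := by
  induction t using Finsupp.induction_linear with
  | zero =>
    rw [show (monomial (0 : ℕ →₀ ℕ) (1 : ℚ)) = 1 from rfl, map_one, map_zero]
    exact isWeightedHomogeneous_one ℚ _
  | add t1 t2 h1 h2 =>
    rw [map_add, show (monomial (t1 + t2) (1 : ℚ)) = monomial t1 1 * monomial t2 1 by
      rw [monomial_mul, one_mul], map_mul]
    exact h1.mul h2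
  | single i m =>
    rw [Finsupp.weight_single, show (monomial (Finsupp.single i m) (1 : ℚ)) = X i ^ m by
      rw [X_pow_eq_monomial], map_pow]
    have h : WZ ((i : ℤ) - 2) (sg (X i)) := by
      rcases Nat.lt_or_ge i 3 with h | h
      · interval_cases i
        · rw [sg_X0]; exact WZ_zero _
        · rw [sg_X1]; exact WZ_zero _
        · rw [sg_X2]
          have h1 : WZ 0 (1 : A) := isWeightedHomogeneous_one ℚ _
          exact h1.congr (by norm_num)
      · rw [sg_X i h]; exact isWeightedHomogeneous_X ℚ _ i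
    exact (h.pow m).congr (by simp)

theorem BH.sg {m k : ℕ} {a : A} (ha : BH m k a) : WZ ((k : ℤ) - 2 * m) (sg a) := by
  refine IsWeightedHomogeneous.induction_on (motive := fun p _ => WZ ((k : ℤ) - 2 * m) (RH.sg p)) ?_ ?_ ?_ ha
  · rw [map_zero]; exact WZ_zero _
  · intro p q _ _ hp hq; rw [map_add]; exact hp.add hq
  · intro t r ht
    have h1 := sg_monomial_WZ t
    rw [weight_rel, ht] at h1
    have h2 : (monomial t r : A) = r • monomial t 1 := by rw [smul_monomial, smul_eq_mul, mul_one]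
    rw [h2, map_smul]
    exact h1.smul r

theorem pd_sg (n : ℕ) (hn : n < 3) (a : A) : pderiv n (sg a) = 0 := by
  induction a using MvPolynomial.induction_on with
  | C c => rw [show sg (C c) = C c from aeval_C _ _ |>.trans rfl, pderiv_C]
  | add p q hp hq => rw [map_add, map_add, hp, hq, add_zero]
  | mul_X p i hp =>
    rw [map_mul, Derivation.leibniz, hp, smul_zero, add_zero]
    rcases Nat.lt_or_ge i 3 with h | h
    · interval_cases i
      · rw [sg_X0, map_zero, smul_zero]
      · rw [sg_X1, map_zero, smul_zero]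
      · rw [sg_X2]; simp
    · rw [sg_X i h, pd_X, if_neg (by omega), smul_zero]

theorem supp_sg {a : A} (ha : sg a = a) {t : ℕ →₀ ℕ} (ht : coeff t a ≠ 0) (n : ℕ) (hn : n < 3) : t n = 0 := by
  by_contra h0
  have h1 := pd_sg n hn a
  rw [ha] at h1
  have h2 : coeff (t - Finsupp.single n 1) (pderiv n a) = 0 := by rw [h1, coeff_zero]
  rw [coeff_pderiv] at h2
  have h3 : t - Finsupp.single n 1 + Finsupp.single n 1 = t := by
    ext i
    simp only [Finsupp.coe_add, Finsupp.coe_tsub, Pi.add_apply, Pi.sub_apply]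
    by_cases hi : i = n
    · subst hi; simp; omega
    · rw [Finsupp.single_eq_of_ne hi]; simp
  rw [h3] at h2
  have h4 : (((t - Finsupp.single n 1 : ℕ →₀ ℕ) n : ℕ) : ℚ) + 1 ≠ 0 := by positivity
  rcases mul_eq_zero.1 h2 with h | h
  · exact ht h
  · exact h4 h

/-- the number of factors is at most the weight -/
theorem deg_le_weight {t : ℕ →₀ ℕ} (h : ∀ n, n < 3 → t n = 0) :
    ((t.sum fun _ m => m : ℕ) : ℤ) ≤ Finsupp.weight (fun n : ℕ => (n : ℤ) - 2) t := by
  rw [Finsupp.weight_apply, Finsupp.sum, Finsupp.sum]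
  push_cast
  apply Finset.sum_le_sum
  intro n hn
  have h1 : 3 ≤ n := by
    by_contra h2
    exact (Finsupp.mem_support_iff.1 hn) (h n (by omega))
  simp only [nsmul_eq_mul]
  have h2 : (1 : ℤ) ≤ (n : ℤ) - 2 := by omega
  nlinarith [Int.natCast_nonneg (t n)]

theorem neg_zero' {a : A} (ha : sg a = a) {c : ℤ} (h : WZ c a) (hc : c < 0) : a = 0 := by
  by_contra h0
  obtain ⟨t, ht⟩ := MvPolynomial.ne_zero_iff.1 h0
  have h1 := deg_le_weight (fun n hn => supp_sg ha ht n hn)
  have h2 : Finsupp.weight (fun n : ℕ => (n : ℤ) - 2) t = c := h ht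
  rw [h2] at h1
  have : (0 : ℤ) ≤ ((t.sum fun _ m => m : ℕ) : ℤ) := Int.natCast_nonneg _
  omega

theorem zero_const {a : A} (ha : sg a = a) (h : WZ 0 a) : ∃ c, a = C c := by
  refine ⟨coeff 0 a, ?_⟩
  ext t
  rw [coeff_C]
  split_ifs with h0
  · rw [← h0]
  · by_contra ht
    have h1 := deg_le_weight (fun n hn => supp_sg ha ht n hn)
    have h2 : Finsupp.weight (fun n : ℕ => (n : ℤ) - 2) t = 0 := h ht
    rw [h2] at h1
    apply h0
    symm
    ext i
    have h3 : (t.sum fun _ m => m) = 0 := by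
      have : (0 : ℤ) ≤ ((t.sum fun _ m => m : ℕ) : ℤ) := Int.natCast_nonneg _
      omega
    by_contra h4
    have h5 : i ∈ t.support := Finsupp.mem_support_iff.2 h4
    have h6 := Finset.single_le_sum (f := fun n => t n) (fun _ _ => Nat.zero_le _) h5
    rw [Finsupp.sum] at h3
    have h7 : t i ≠ 0 := h4
    omega

theorem sg_zero_of_BH {m k : ℕ} {a : A} (ha : BH m k a) (h : k < 2 * m) : sg a = 0 :=
  neg_zero' (sg_sg a) ha.sg (by omega)

/-! ### the Riemann flows -/

/-- `u^e / e!` -/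
noncomputable def pw (e : ℕ) : A := ((e.factorial : ℚ)⁻¹) • X 0 ^ e

theorem pw_zero : pw 0 = 1 := by simp [pw]
theorem pw_one : pw 1 = X 0 := by simp [pw]
theorem pd_pw (e : ℕ) : pderiv 0 (pw (e + 1)) = pw e := by
  unfold pw
  rw [Derivation.map_smul, Derivation.leibniz_pow, pd_X, if_pos rfl, Nat.factorial_succ]
  simp only [Nat.add_sub_cancel, smul_eq_mul, mul_one]
  rw [← Nat.cast_smul_eq_nsmul ℚ, smul_smul]
  congr 1
  push_cast
  field_simp
theorem pd_pw_succ (n e : ℕ) : pderiv (n + 1) (pw e) = 0 := by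
  unfold pw
  rw [Derivation.map_smul, Derivation.leibniz_pow, pd_X, if_neg (by omega)]
  simp

theorem BH_pw (e : ℕ) : BH e 0 (pw e) := by
  unfold pw
  exact (((BH_X 0).pow e).smul _).congr (by omega) (by omega)

theorem der_pw (D : Derivation ℚ A A) (e : ℕ) : D (pw (e + 1)) = pw e * D (X 0) := by
  rw [der_eq D (pw (e + 1)) 1 (fun n hn => by
    obtain ⟨m, rfl⟩ : ∃ m, n = m + 1 := ⟨n - 1, by omega⟩
    exact pd_pw_succ m _), Finset.sum_range_one, pd_pw]

theorem der_pw_zero (D : Derivation ℚ A A) : D (pw 0) = 0 := by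
  rw [pw_zero]; exact D.map_one_eq_zero

theorem E_pw (e : ℕ) : E (pw (e + 1)) = pw e := by
  rw [E_eq _ 1 (fun n hn => by
    obtain ⟨m, rfl⟩ : ∃ m, n = m + 1 := ⟨n - 1, by omega⟩
    exact pd_pw_succ m _), Finset.sum_range_one, pd_pw, pow_zero, one_smul, dn_zero]

/-- the characteristic of the Riemann flow -/
noncomputable def Fz (e : ℕ) : A := d (pw e)

theorem Fz_zero : Fz 0 = 0 := der_pw_zero d
theorem Fz_one : Fz 1 = X 1 := by unfold Fz; rw [pw_one, d_X]
theorem Fz_succ (e : ℕ) : Fz (e + 1) = pw e * X 1 := by unfold Fz; rw [der_pw, d_X]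
theorem BH_Fz (e : ℕ) : BH e 1 (Fz e) := (BH_pw e).d

theorem Fz_comm (e f : ℕ) : V (Fz e) (Fz f) = V (Fz f) (Fz e) := by
  rcases e with _ | e
  · rw [Fz_zero, V_zero, map_zero]; rfl
  rcases f with _ | f
  · rw [Fz_zero, V_zero, map_zero]; rfl
  have h1 : V (Fz (e + 1)) (Fz (f + 1)) = d (pw f * (pw e * X 1)) := by
    rw [Fz_succ e]; unfold Fz; rw [V_d, der_pw, V_X, dn_zero]
  have h2 : V (Fz (f + 1)) (Fz (e + 1)) = d (pw e * (pw f * X 1)) := by
    rw [Fz_succ f]; unfold Fz; rw [V_d, der_pw, V_X, dn_zero]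
  rw [h1, h2]
  congr 1; ring

/-! ### the derivations `D_j` -/

/-- the action of the `j`-th Riemann flow on Morse germs -/
noncomputable def Dj (j : ℕ) : Derivation ℚ A A :=
  mkDerivation ℚ (fun n => if n < 3 then 0 else sg (N (Fz (j + 2)) (X n)))

theorem Dj_X (j n : ℕ) (h : 3 ≤ n) : Dj j (X n) = sg (N (Fz (j + 2)) (X n)) := by
  unfold Dj
  rw [mkDerivation_X, if_neg (by omega)]
theorem Dj_X_low (j n : ℕ) (h : n < 3) : Dj j (X n) = 0 := by
  unfold Dj
  rw [mkDerivation_X, if_pos h]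

theorem sg_N_X2 (j : ℕ) : sg (N (Fz (j + 2)) (X 2)) = 0 := by
  rw [N_apply, V_X, d_X, map_sub, map_mul, map_mul,
    sg_zero_of_BH ((BH_Fz (j + 2)).dn 2) (by omega), sg_zero_of_BH (BH_Fz (j + 2)).d (by omega)]
  ring

theorem sg_N (j : ℕ) (a : A) : sg (N (Fz (j + 2)) a) = Dj j (sg a) := by
  induction a using MvPolynomial.induction_on with
  | C c =>
    rw [show sg (C c) = C c from aeval_C _ _ |>.trans rfl, ← algebraMap_eq, Derivation.map_algebraMap,
      Derivation.map_algebraMap, map_zero]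
  | add p q hp hq => rw [map_add, map_add, hp, hq, map_add, map_add]
  | mul_X p i hp =>
    rw [Derivation.leibniz, map_add, smul_eq_mul, smul_eq_mul, map_mul, map_mul, hp, map_mul,
      Derivation.leibniz, smul_eq_mul, smul_eq_mul]
    congr 2
    rcases Nat.lt_or_ge i 3 with h | h
    · interval_cases i
      · rw [sg_X0, map_zero, N_apply, V_X, dn_zero, d_X, map_sub, map_mul, map_mul, sg_X1,
          sg_zero_of_BH (BH_Fz (j + 2)) (by omega)]
        ring
      · rw [sg_X1, N_X1, map_zero, map_zero]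
      · rw [sg_X2, sg_N_X2, Derivation.map_one_eq_zero]
    · rw [sg_X i h, Dj_X j i h]

theorem sg_Dj {j : ℕ} {a : A} (ha : sg a = a) : sg (Dj j a) = Dj j a := by
  rw [← ha, ← sg_N, sg_sg]

theorem Dj_comm (i j : ℕ) {a : A} (ha : sg a = a) : Dj i (Dj j a) = Dj j (Dj i a) := by
  have h := congrArg sg (N_ID (Fz (i + 2)) (Fz (j + 2)) a)
  rw [Fz_comm, sub_self, N_zero, mul_zero, add_zero] at h
  simp only [map_mul, map_sub, sg_X2, sg_N, ha, one_mul, zero_mul, sub_zero, Derivation.map_one_eq_zero] at h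
  exact sub_eq_zero.1 h

theorem Dj_WZ (j : ℕ) {a : A} {c : ℤ} (h : WZ c a) : WZ (c - (2 * j + 1)) (Dj j a) := by
  refine der_WH (Dj j) (2 * (j : ℤ) + 1) 0 (fun n => ?_) h ?_
  · rcases Nat.lt_or_ge n 3 with h | h
    · left; exact Dj_X_low j n h
    · right
      refine ⟨(n : ℤ) - 2 - (2 * j + 1), by ring, ?_⟩
      rw [Dj_X j n h]
      have h1 : BH (1 + (j + 2)) (n + 1 + 2) (N (Fz (j + 2)) (X n)) :=
        (BH_Fz (j + 2)).N (BH_X n) (by omega)
      exact h1.sg.congr (by push_cast; ring)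
  · ring

/-! ### the constants `κ_j` -/

/-- restriction to `u = x²/2` -/
noncomputable def thh : A →ₐ[ℚ] Polynomial ℚ :=
  aeval (fun n => (Polynomial.derivative)^[n] (Polynomial.C (1 / 2 : ℚ) * Polynomial.X ^ 2))

theorem thh_X (n : ℕ) : thh (X n) =
    (Polynomial.derivative)^[n] (Polynomial.C (1 / 2 : ℚ) * Polynomial.X ^ 2) := by
  unfold thh; rw [aeval_X]

theorem thh_d (a : A) : thh (d a) = Polynomial.derivative (thh a) := by
  induction a using MvPolynomial.induction_on with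
  | C c =>
    rw [← algebraMap_eq, Derivation.map_algebraMap, AlgHom.commutes, map_zero, Polynomial.algebraMap_eq,
      Polynomial.derivative_C]
  | add p q hp hq => rw [map_add, map_add, hp, hq, map_add, Polynomial.derivative_add]
  | mul_X p i hp =>
    rw [Derivation.leibniz, map_add, smul_eq_mul, smul_eq_mul, map_mul, map_mul, hp, map_mul,
      Polynomial.derivative_mul, d_X, thh_X, thh_X, Function.iterate_succ_apply']
    ring

theorem thh_dn (n : ℕ) (a : A) : thh (dn n a) = (Polynomial.derivative)^[n] (thh a) := by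
  induction n with
  | zero => rfl
  | succ n ih => rw [dn_succ, thh_d, ih, Function.iterate_succ_apply']

theorem ev_sg (a : A) : Polynomial.eval 0 (thh (sg a)) = Polynomial.eval 0 (thh a) := by
  induction a using MvPolynomial.induction_on with
  | C c => rw [show sg (C c) = C c from aeval_C _ _ |>.trans rfl]
  | add p q hp hq => rw [map_add, map_add, map_add, Polynomial.eval_add, Polynomial.eval_add, hp, hq]
  | mul_X p i hp =>
    rw [map_mul, map_mul, map_mul, Polynomial.eval_mul, Polynomial.eval_mul, hp]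
    congr 1
    rcases Nat.lt_or_ge i 3 with h | h
    · interval_cases i
      · rw [sg_X0, thh_X]; simp
      · rw [sg_X1, thh_X]; simp [Polynomial.derivative_X_pow]
      · rw [sg_X2, thh_X]; simp [Polynomial.derivative_X_pow]; norm_num
    · rw [sg_X i h]

theorem kappa (j : ℕ) : ∃ c : ℚ, c ≠ 0 ∧ Dj j (X (2 * j + 3)) = C c := by
  have h0 : sg (Dj j (X (2 * j + 3))) = Dj j (X (2 * j + 3)) := by
    rw [Dj_X j _ (by omega), sg_sg]
  have h1 : WZ 0 (Dj j (X (2 * j + 3))) :=
    (Dj_WZ j (isWeightedHomogeneous_X ℚ _ (2 * j + 3) : WZ _ _)).congr (by push_cast; ring)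
  obtain ⟨c, hc⟩ := zero_const h0 h1
  refine ⟨c, ?_, hc⟩
  have h2 : Polynomial.eval 0 (thh (Dj j (X (2 * j + 3)))) = Polynomial.eval 0 (thh (C c)) := by rw [hc]
  rw [Dj_X j _ (by omega), N_apply, V_X, d_X, map_sub, map_mul, map_mul, sg_X2, one_mul,
    sg_zero_of_BH (BH_Fz (j + 2)).d (by omega), zero_mul, sub_zero, ev_sg, Fz, ← dn_succ', thh_dn, pw,
    map_smul, map_pow, thh_X, Function.iterate_zero, id, mul_pow, ← Polynomial.C_pow, ← pow_mul] at h2
  rw [show thh (C c) = Polynomial.C c from aeval_C _ _] at h2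
  rw [Polynomial.eval_C] at h2
  rw [← h2, show 2 * j + 3 + 1 = 2 * (j + 2) by ring]
  rw [Polynomial.iterate_derivative_smul, Polynomial.iterate_derivative_C_mul, Polynomial.iterate_derivative_X_pow_eq_smul]
  rw [Nat.sub_self, pow_zero, Nat.descFactorial_self]
  simp only [Polynomial.eval_smul, Polynomial.eval_mul, Polynomial.eval_C, Polynomial.eval_one, smul_eq_mul]
  have h3 : (((2 * (j + 2)).factorial : ℕ) : ℚ) ≠ 0 := Nat.cast_ne_zero.2 (Nat.factorial_ne_zero _)
  have h4 : (((j + 2).factorial : ℕ) : ℚ)⁻¹ ≠ 0 := inv_ne_zero (Nat.cast_ne_zero.2 (Nat.factorial_ne_zero _))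
  have h5 : ((1 : ℚ) / 2) ^ (j + 2) ≠ 0 := by positivity
  simpa [Polynomial.eval_smul] using ⟨Nat.factorial_ne_zero _, Nat.factorial_ne_zero _⟩

end Pool.Agent.Y665.RH
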