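import Pool.Agent.Y665.RH.Base

/-!
# Bihomogeneity
-/

set_option autoImplicit false
set_option linter.all false

open MvPolynomial Finset

namespace Pool.Agent.Y665.RH

section gen

variable {M : Type*} [AddCancelCommMonoid M] {w : ℕ → M}

theorem pderiv_zero_of_WH {a : A} {K : M} (ha : IsWeightedHomogeneous w a K) (n : ℕ)
    (h : ∀ K1, K1 + w n ≠ K) : pderiv n a = 0 := by
  induction ha using IsWeightedHomogeneous.induction_on with
  | zero => exact map_zero _
  | add p q hp hq h1 h2 => rw [map_add, h1, h2, add_zero]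
  | monomial t r ht =>
    rw [pderiv_monomial]
    by_cases h0 : t n = 0
    · rw [h0]; simp
    · exfalso
      refine h (Finsupp.weight w (t - Finsupp.single n 1)) ?_
      rw [Finsupp.weight_sub_single_add h0, ht]

theorem der_WH (D : Derivation ℚ A A) (s r : M)
    (h : ∀ n, D (X n) = 0 ∨ ∃ c, c + s = w n + r ∧ IsWeightedHomogeneous w (D (X n)) c)
    {a : A} {K K' : M} (ha : IsWeightedHomogeneous w a K) (hK : K' + s = K + r) :
    IsWeightedHomogeneous w (D a) K' := by
  rw [der_eq D a _ (pd_bd a)]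
  refine IsWeightedHomogeneous.sum _ _ _ fun n _ => ?_
  rcases h n with h0 | ⟨c, hc, hD⟩
  · rw [h0, mul_zero]; exact isWeightedHomogeneous_zero ℚ w K'
  · by_cases h1 : ∃ K1, K1 + w n = K
    · obtain ⟨K1, hK1⟩ := h1
      have h2 : (pderiv n a).IsWeightedHomogeneous w K1 := ha.pderiv hK1
      have h3 : K1 + c = K' := by
        apply add_right_cancel (b := s)
        rw [add_assoc, hc, ← add_assoc, hK1, hK]
      rw [← h3]
      exact h2.mul hD
    · push Not at h1
      rw [pderiv_zero_of_WH ha n h1, zero_mul]; exact isWeightedHomogeneous_zero ℚ w K'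

theorem der_WH_zero (D : Derivation ℚ A A) (s r : M)
    (h : ∀ n, D (X n) = 0 ∨ ∃ c, c + s = w n + r ∧ IsWeightedHomogeneous w (D (X n)) c)
    {a : A} {K : M} (ha : IsWeightedHomogeneous w a K) (hK : ∀ K', K' + s ≠ K + r) :
    D a = 0 := by
  rw [der_eq D a _ (pd_bd a)]
  refine Finset.sum_eq_zero fun n _ => ?_
  rcases h n with h0 | ⟨c, hc, hD⟩
  · rw [h0, mul_zero]
  · by_cases h1 : ∃ K1, K1 + w n = K
    · obtain ⟨K1, hK1⟩ := h1
      exfalso
      refine hK (K1 + c) ?_
      rw [add_assoc, hc, ← add_assoc, hK1]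
    · push Not at h1
      rw [pderiv_zero_of_WH ha n h1, zero_mul]

end gen

/-- `a` is homogeneous of degree `m` in the `u_n`, and of differential degree `k` -/
def BH (m k : ℕ) (a : A) : Prop := IsWeightedHomogeneous (fun n : ℕ => ((1 : ℕ), n)) a (m, k)

theorem BH_zero (m k : ℕ) : BH m k 0 := isWeightedHomogeneous_zero ℚ _ _
theorem BH_X (n : ℕ) : BH 1 n (X n) := isWeightedHomogeneous_X ℚ _ n
theorem BH_one : BH 0 0 1 := isWeightedHomogeneous_one ℚ _
theorem BH.add {m k : ℕ} {a b : A} (ha : BH m k a) (hb : BH m k b) : BH m k (a + b) :=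
  IsWeightedHomogeneous.add ha hb
theorem BH.smul {m k : ℕ} {a : A} (ha : BH m k a) (c : ℚ) : BH m k (c • a) := by
  rw [smul_eq_C_mul]; exact IsWeightedHomogeneous.C_mul ha c
theorem BH.neg {m k : ℕ} {a : A} (ha : BH m k a) : BH m k (-a) :=
  IsWeightedHomogeneous.neg ha
theorem BH.sub {m k : ℕ} {a b : A} (ha : BH m k a) (hb : BH m k b) : BH m k (a - b) :=
  IsWeightedHomogeneous.sub ha hb
theorem BH.sum {ι : Type*} {m k : ℕ} (s : Finset ι) (f : ι → A) (h : ∀ i ∈ s, BH m k (f i)) :
    BH m k (∑ i ∈ s, f i) := by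
  classical
  induction s using Finset.induction_on with
  | empty => exact BH_zero m k
  | insert i s hi ih =>
    rw [Finset.sum_insert hi]
    exact (h i (Finset.mem_insert_self i s)).add (ih fun j hj => h j (Finset.mem_insert_of_mem hj))
theorem BH.mul {m k m' k' : ℕ} {a b : A} (ha : BH m k a) (hb : BH m' k' b) :
    BH (m + m') (k + k') (a * b) := IsWeightedHomogeneous.mul ha hb
theorem BH.pow {m k : ℕ} {a : A} (ha : BH m k a) (n : ℕ) : BH (n * m) (n * k) (a ^ n) := by
  have := IsWeightedHomogeneous.pow ha n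
  simpa [BH] using this

theorem BH.congr {m k m' k' : ℕ} {a : A} (ha : BH m k a) (h1 : m = m') (h2 : k = k') : BH m' k' a := by
  subst h1; subst h2; exact ha

theorem BH.d {m k : ℕ} {a : A} (ha : BH m k a) : BH m (k + 1) (d a) := by
  refine der_WH RH.d (0, 0) (0, 1) (fun n => Or.inr ⟨(1, n + 1), ?_, ?_⟩) ha ?_
  · simp
  · rw [d_X]; exact BH_X (n + 1)
  · simp

theorem BH.dn {m k : ℕ} {a : A} (ha : BH m k a) (n : ℕ) : BH m (k + n) (dn n a) := by
  induction n with
  | zero => exact ha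
  | succ n ih => rw [dn_succ]; exact ih.d

theorem BH.V {m k m' k' m'' : ℕ} {F a : A} (hF : BH m' k' F) (ha : BH m k a) (hm : m'' + 1 = m + m') :
    BH m'' (k + k') (V F a) := by
  refine der_WH (RH.V F) (1, 0) (m', k') (fun n => Or.inr ⟨(m', k' + n), ?_, ?_⟩) ha ?_
  · simp only [Prod.mk_add_mk, Prod.mk.injEq]; omega
  · rw [V_X]; exact hF.dn n
  · simp only [Prod.mk_add_mk, Prod.mk.injEq]; omega

theorem BH.pd {m k : ℕ} {a : A} (n : ℕ) (ha : BH (m + 1) (k + n) a) : BH m k (pderiv n a) :=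
  IsWeightedHomogeneous.pderiv ha (by simp)

theorem BH.pd_zero {m k : ℕ} {a : A} (n : ℕ) (hn : k < n) (ha : BH m k a) : pderiv n a = 0 := by
  refine pderiv_zero_of_WH ha n ?_
  rintro ⟨x, y⟩ h
  simp only [Prod.mk_add_mk, Prod.mk.injEq] at h
  omega

theorem BH.E {m k : ℕ} {a : A} (ha : BH (m + 1) k a) : BH m k (E a) := by
  unfold RH.E
  refine BH.sum _ _ fun n _ => ?_
  by_cases hn : n ≤ k
  · have h1 : BH m (k - n) (pderiv n a) := BH.pd n (ha.congr rfl (by omega))
    exact ((h1.dn n).congr rfl (by omega)).smul _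
  · rw [ha.pd_zero n (by omega), map_zero, smul_zero]; exact BH_zero _ _

/-- the derivation `u_2 V_F - (∂_x F) ∂_x` -/
noncomputable def N (F : A) : Derivation ℚ A A := (X 2 : A) • V F - (d F) • d

theorem N_apply (F a : A) : N F a = X 2 * V F a - d F * d a := rfl

theorem N_X1 (F : A) : N F (X 1) = 0 := by
  rw [N_apply, V_X, d_X, dn_one]; ring

theorem N_zero (a : A) : N 0 a = 0 := by rw [N_apply, V_zero, map_zero]; simp
theorem N_add (F G a : A) : N (F + G) a = N F a + N G a := by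
  rw [N_apply, N_apply, N_apply, V_add, map_add, Derivation.add_apply]; ring
theorem N_X1' (a : A) : N (X 1) a = 0 := by
  rw [N_apply, V_X1, d_X]; ring

theorem BH.N {m k m' k' : ℕ} {F a : A} (hF : BH m' k' F) (ha : BH m k a) (hm : 1 ≤ m + m') :
    BH (m + m') (k + k' + 2) (N F a) := by
  rw [N_apply]
  refine BH.sub ?_ ?_
  · have h1 : BH (m + m' - 1) (k + k') (RH.V F a) := hF.V ha (by omega)
    exact ((BH_X 2).mul h1).congr (by omega) (by omega)
  · exact (hF.d.mul ha.d).congr (by omega) (by omega)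

theorem pd_N_zero (F a : A) (ha : pderiv 0 a = 0) : pderiv 0 (N F a) = N (pderiv 0 F) a := by
  rw [N_apply, N_apply, map_sub, Derivation.leibniz, Derivation.leibniz, pd_V_zero, ha, map_zero, pd_d_zero, pd_d_zero,
    ha, map_zero, pd_X, if_neg (by omega)]
  simp only [smul_eq_mul]
  ring

/-- division by `u_1` -/
noncomputable def dv (a : A) : A := a.divMonomial (Finsupp.single 1 1)

theorem dv_mul {a : A} (h : X 1 ∣ a) : X 1 * dv a = a := by
  obtain ⟨b, rfl⟩ := h
  unfold dv
  rw [X_mul_divMonomial]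

theorem dv_X_mul (b : A) : dv (X 1 * b) = b := X_mul_divMonomial _ _
theorem dv_zero : dv 0 = 0 := zero_divMonomial _

theorem X1_ne : (X 1 : A) ≠ 0 := X_ne_zero _

theorem BH.dv {m k : ℕ} {a : A} (ha : BH (m + 1) (k + 1) a) : BH m k (dv a) := by
  intro t ht
  unfold RH.dv at ht
  rw [coeff_divMonomial] at ht
  have := ha ht
  rw [map_add, Finsupp.weight_single, one_smul] at this
  have h2 : Finsupp.weight (fun n : ℕ => ((1 : ℕ), n)) t = (m, k) := by
    apply add_left_cancel (a := ((1 : ℕ), 1))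
    rw [this]; simp only [Prod.mk_add_mk, Prod.mk.injEq]; omega
  exact h2

theorem pd_dv {a : A} (h : X 1 ∣ a) : pderiv 0 (dv a) = dv (pderiv 0 a) := by
  obtain ⟨b, rfl⟩ := h
  rw [dv_X_mul, Derivation.leibniz, pd_X, if_neg (by omega), smul_zero, add_zero, smul_eq_mul, dv_X_mul]

end Pool.Agent.Y665.RH
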