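import Pool.Agent.Y665.RH.Poin

/-!
# The normal form of a density
-/

set_option autoImplicit false
set_option linter.all false

open MvPolynomial Finset

namespace Pool.Agent.Y665.RH

/-- only monomials `u_λ`, `λ ∈ 𝒫'` -/
def IsNF (f : A) : Prop := ∀ t, coeff t f ≠ 0 → t 0 = 0 ∧ t 1 = 0 ∧ ∃ L, 2 ≤ t L ∧ ∀ j, L < j → t j = 0

theorem IsNF_zero : IsNF 0 := fun t ht => absurd (coeff_zero t) ht
theorem IsNF.add {f g : A} (hf : IsNF f) (hg : IsNF g) : IsNF (f + g) := by
  intro t ht
  rw [coeff_add] at ht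
  by_cases h : coeff t f = 0
  · exact hg t (by intro h2; apply ht; rw [h, h2, add_zero])
  · exact hf t h
theorem IsNF.smul {f : A} (hf : IsNF f) (c : ℚ) : IsNF (c • f) := by
  intro t ht
  rw [coeff_smul] at ht
  exact hf t (right_ne_zero_of_mul (a := c) ht)

/-- polynomials in `u_2, u_3, …`, bihomogeneous -/
structure C0 (m k : ℕ) (a : A) : Prop where
  bh : BH m k a
  p0 : pderiv 0 a = 0
  p1 : pderiv 1 a = 0

theorem C0.d {m k : ℕ} {a : A} (h : C0 m k a) : C0 m (k + 1) (d a) :=
  ⟨h.bh.d, by rw [pd_d_zero, h.p0, map_zero], by rw [pd_d_succ, h.p0, h.p1, map_zero, add_zero]⟩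

theorem C0.mul {m k m' k' : ℕ} {a b : A} (h : C0 m k a) (h' : C0 m' k' b) : C0 (m + m') (k + k') (a * b) :=
  ⟨h.bh.mul h'.bh, by rw [Derivation.leibniz, h.p0, h'.p0, smul_zero, smul_zero, add_zero],
    by rw [Derivation.leibniz, h.p1, h'.p1, smul_zero, smul_zero, add_zero]⟩
theorem C0.add {m k : ℕ} {a b : A} (h : C0 m k a) (h' : C0 m k b) : C0 m k (a + b) :=
  ⟨h.bh.add h'.bh, by rw [map_add, h.p0, h'.p0, add_zero], by rw [map_add, h.p1, h'.p1, add_zero]⟩
theorem C0.smul {m k : ℕ} {a : A} (h : C0 m k a) (c : ℚ) : C0 m k (c • a) :=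
  ⟨h.bh.smul c, by rw [Derivation.map_smul, h.p0, smul_zero], by rw [Derivation.map_smul, h.p1, smul_zero]⟩
theorem C0.congr {m k m' k' : ℕ} {a : A} (h : C0 m k a) (h1 : m = m') (h2 : k = k') : C0 m' k' a := by
  subst h1; subst h2; exact h
theorem C0_X (n : ℕ) (hn : 2 ≤ n) : C0 1 n (X n) :=
  ⟨BH_X n, by rw [pd_X, if_neg (by omega)], by rw [pd_X, if_neg (by omega)]⟩
theorem C0.pow {m k : ℕ} {a : A} (h : C0 m k a) (n : ℕ) : C0 (n * m) (n * k) (a ^ n) :=
  ⟨h.bh.pow n, by rw [Derivation.leibniz_pow, h.p0, smul_zero, smul_zero],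
    by rw [Derivation.leibniz_pow, h.p1, smul_zero, smul_zero]⟩

theorem pd_monomial_zero {t : ℕ →₀ ℕ} {i : ℕ} (h : t i = 0) (c : ℚ) : pderiv i (monomial t c : A) = 0 := by
  rw [pderiv_monomial, h]; simp

theorem C0_monomial {m k : ℕ} {a : A} (h : C0 m k a) {t : ℕ →₀ ℕ} (ht : coeff t a ≠ 0) (c : ℚ) :
    C0 m k (monomial t c) :=
  ⟨isWeightedHomogeneous_monomial _ _ _ (h.bh ht), pd_monomial_zero (supp_pd h.p0 ht) c,
    pd_monomial_zero (supp_pd h.p1 ht) c⟩

/-- reduction modulo exact densities -/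
def QA (m k : ℕ) (a : A) : Prop := ∃ f S, IsNF f ∧ BH m k f ∧ a = f + d S

theorem QA.add {m k : ℕ} {a b : A} (ha : QA m k a) (hb : QA m k b) : QA m k (a + b) := by
  obtain ⟨f, S, h1, h2, rfl⟩ := ha
  obtain ⟨g, T, h3, h4, rfl⟩ := hb
  exact ⟨f + g, S + T, h1.add h3, h2.add h4, by rw [map_add]; ring⟩
theorem QA.smul {m k : ℕ} {a : A} (ha : QA m k a) (c : ℚ) : QA m k (c • a) := by
  obtain ⟨f, S, h1, h2, rfl⟩ := ha
  exact ⟨c • f, c • S, h1.smul c, h2.smul c, by rw [smul_add, Derivation.map_smul]⟩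
theorem QA_zero (m k : ℕ) : QA m k 0 := ⟨0, 0, IsNF_zero, BH_zero _ _, by simp⟩
theorem QA_d (m k : ℕ) (S : A) : QA m k (d S) := ⟨0, S, IsNF_zero, BH_zero _ _, by simp⟩
theorem QA.sum {ι : Type*} {m k : ℕ} (s : Finset ι) (f : ι → A) (h : ∀ i ∈ s, QA m k (f i)) :
    QA m k (∑ i ∈ s, f i) := by
  classical
  induction s using Finset.induction_on with
  | empty => exact QA_zero m k
  | insert i s hi ih =>
    rw [Finset.sum_insert hi]
    exact (h i (Finset.mem_insert_self i s)).add (ih fun j hj => h j (Finset.mem_insert_of_mem hj))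

theorem stageA (L : ℕ) : ∀ (m k : ℕ) (a : A), 2 ≤ m → C0 m k a → (∀ j, L + 2 < j → pderiv j a = 0) →
    QA m k a := by
  induction L with
  | zero =>
    intro m k a hm ha hj
    refine ⟨a, 0, ?_, ha.bh, by simp⟩
    intro t ht
    refine ⟨supp_pd ha.p0 ht, supp_pd ha.p1 ht, 2, ?_, fun j h => supp_pd (hj j (by omega)) ht⟩
    have h1 := weight_fst t
    rw [ha.bh ht] at h1
    have h2 : t.sum (fun _ m => m) = t 2 := by
      rw [Finsupp.sum, Finset.sum_eq_single 2]
      · intro b hb hb2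
        exfalso
        apply Finsupp.mem_support_iff.1 hb
        rcases Nat.lt_trichotomy b 2 with h | h | h
        · interval_cases b
          · exact supp_pd ha.p0 ht
          · exact supp_pd ha.p1 ht
        · exact absurd h hb2
        · exact supp_pd (hj b (by omega)) ht
      · intro h; exact Finsupp.notMem_support_iff.1 h
    simp only at h1
    omega
  | succ L ih =>
    intro m k a hm ha hj
    rw [a.as_sum]
    refine QA.sum _ _ fun t ht => ?_
    have ht' := mem_support_iff.1 ht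
    have hmon := C0_monomial ha ht' (coeff t a)
    have hj' : ∀ j, L + 1 + 2 < j → t j = 0 := fun j h => supp_pd (hj j h) ht'
    by_cases h0 : t (L + 3) = 0
    · refine ih m k _ hm hmon fun j h => pd_monomial_zero ?_ _
      rcases Nat.lt_or_ge (L + 3) j with h' | h'
      · exact hj' j (by omega)
      · rw [show j = L + 3 by omega]; exact h0
    by_cases h1 : t (L + 3) = 1
    · -- linear in the highest derivative
      set r : ℕ →₀ ℕ := (t.erase (L + 3)).erase (L + 2) with hr
      set c := t (L + 2) with hc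
      have e1 : t.erase (L + 3) + Finsupp.single (L + 3) (t (L + 3)) = t := Finsupp.erase_add_single _ t
      have e2 : (t.erase (L + 3)).erase (L + 2) + Finsupp.single (L + 2) ((t.erase (L + 3)) (L + 2)) = t.erase (L + 3) :=
        Finsupp.erase_add_single _ _
      rw [Finsupp.erase_ne (show L + 2 ≠ L + 3 by omega), ← hc, ← hr] at e2
      have hmt : (monomial t (1 : ℚ) : A) = monomial r 1 * X (L + 2) ^ c * X (L + 3) := by
        rw [X_pow_eq_monomial, monomial_mul, mul_one, e2, show (X (L + 3) : A) = monomial (Finsupp.single (L + 3) 1) 1 from rfl,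
          monomial_mul, mul_one]
        rw [h1] at e1
        rw [e1]
      have hrj : ∀ j, L + 1 < j → r j = 0 := by
        intro j h
        rw [hr]
        by_cases h2 : j = L + 2
        · rw [h2, Finsupp.erase_same]
        · rw [Finsupp.erase_ne h2]
          by_cases h3 : j = L + 3
          · rw [h3, Finsupp.erase_same]
          · rw [Finsupp.erase_ne h3]; exact hj' j (by omega)
      have hr0 : r 0 = 0 := by
        rw [hr, Finsupp.erase_ne (by omega), Finsupp.erase_ne (by omega)]; exact supp_pd ha.p0 ht'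
      have hr1 : r 1 = 0 := by
        rw [hr, Finsupp.erase_ne (by omega), Finsupp.erase_ne (by omega)]; exact supp_pd ha.p1 ht'
      have key : (monomial t (1 : ℚ) : A) = ((c : ℚ) + 1)⁻¹ • (d (X (L + 2) ^ (c + 1) * monomial r 1)) -
          ((c : ℚ) + 1)⁻¹ • (X (L + 2) ^ (c + 1) * d (monomial r 1)) := by
        rw [← smul_sub, Derivation.leibniz, Derivation.leibniz_pow, d_X, smul_eq_mul, smul_eq_mul, add_sub_cancel_left,
          hmt, Nat.add_sub_cancel, ← Nat.cast_smul_eq_nsmul ℚ, smul_eq_mul, mul_smul_comm, smul_smul]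
        have : ((c : ℚ) + 1)⁻¹ * ((c + 1 : ℕ) : ℚ) = 1 := by
          push_cast; exact inv_mul_cancel₀ (by positivity)
        rw [this, one_smul]
        ring
      have hrw : ∃ m1 k1, BH m1 k1 (monomial r 1 : A) ∧ m1 + (c + 1) = m ∧ k1 + (c + 1) * (L + 2) + 1 = k := by
        have hw : Finsupp.weight (fun n : ℕ => ((1 : ℕ), n)) t = (m, k) := ha.bh ht'
        rw [← e1, map_add, Finsupp.weight_single, h1, ← e2, map_add, Finsupp.weight_single] at hw
        refine ⟨(Finsupp.weight (fun n : ℕ => ((1 : ℕ), n)) r).1, (Finsupp.weight (fun n : ℕ => ((1 : ℕ), n)) r).2,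
          isWeightedHomogeneous_monomial _ _ _ rfl, ?_, ?_⟩
        · have := congrArg Prod.fst hw
          simp at this; omega
        · have := congrArg Prod.snd hw
          simp at this
          have e : (c + 1) * (L + 2) = c * (L + 2) + (L + 2) := by ring
          omega
      obtain ⟨m1, k1, hb, hm1, hk1⟩ := hrw
      have hCr : C0 m1 k1 (monomial r 1 : A) := ⟨hb, pd_monomial_zero hr0 1, pd_monomial_zero hr1 1⟩
      have hfin : QA m k (monomial t (1 : ℚ)) := by
        rw [key, sub_eq_add_neg, ← smul_neg, ← neg_one_smul ℚ (X (L + 2) ^ (c + 1) * d (monomial r (1 : ℚ)))]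
        refine ((QA_d m k _).smul _).add (QA.smul (QA.smul ?_ _) _)
        have hC : C0 m k (X (L + 2) ^ (c + 1) * d (monomial r (1 : ℚ))) :=
          (((C0_X (L + 2) (by omega)).pow (c + 1)).mul hCr.d).congr (by omega) (by omega)
        refine ih m k _ hm hC fun j h => ?_
        obtain ⟨i, rfl⟩ : ∃ i, j = i + 1 := ⟨j - 1, by omega⟩
        rw [Derivation.leibniz, Derivation.leibniz_pow, pd_X, if_neg (by omega), pd_d_succ,
          pd_monomial_zero (hrj (i + 1) (by omega)), pd_monomial_zero (hrj i (by omega))]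
        simp
      have hs : (monomial t (coeff t a) : A) = (coeff t a) • monomial t 1 := by
        rw [smul_monomial, smul_eq_mul, mul_one]
      rw [hs]
      exact hfin.smul _
    · -- already in normal form
      refine ⟨monomial t (coeff t a), 0, ?_, hmon.bh, by simp⟩
      intro s hs
      rw [coeff_monomial] at hs
      split_ifs at hs with h
      · subst h
        exact ⟨supp_pd ha.p0 ht', supp_pd ha.p1 ht', L + 3, by omega, fun j h => hj' j (by omega)⟩
      · exact absurd rfl hs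

theorem stageA' {m k : ℕ} {a : A} (hm : 2 ≤ m) (ha : C0 m k a) : QA m k a :=
  stageA (bd a) m k a hm ha fun j hj => pd_bd a j (by omega)

/-- reduction modulo exact densities and `V_{u u_1}` -/
def QB (m k : ℕ) (a : A) : Prop := ∃ R f S, BH m k R ∧ pderiv 0 R = 0 ∧ IsNF f ∧ BH (m + 1) (k + 1) f ∧
  a + V (Fz 2) R = f + d S

theorem QB.add {m k : ℕ} {a b : A} (ha : QB m k a) (hb : QB m k b) : QB m k (a + b) := by
  obtain ⟨R, f, S, h1, h2, h3, h4, h5⟩ := ha
  obtain ⟨R', f', S', h1', h2', h3', h4', h5'⟩ := hb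
  refine ⟨R + R', f + f', S + S', h1.add h1', by rw [map_add, h2, h2', add_zero], h3.add h3', h4.add h4', ?_⟩
  rw [map_add, map_add]
  linear_combination h5 + h5'
theorem QB.smul {m k : ℕ} {a : A} (ha : QB m k a) (c : ℚ) : QB m k (c • a) := by
  obtain ⟨R, f, S, h1, h2, h3, h4, h5⟩ := ha
  refine ⟨c • R, c • f, c • S, h1.smul c, by rw [Derivation.map_smul, h2, smul_zero], h3.smul c, h4.smul c, ?_⟩
  rw [Derivation.map_smul, Derivation.map_smul, ← smul_add, h5, smul_add]
theorem QB_zero (m k : ℕ) : QB m k 0 := ⟨0, 0, 0, BH_zero _ _, map_zero _, IsNF_zero, BH_zero _ _, by simp⟩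
theorem QB_d (m k : ℕ) (S : A) : QB m k (d S) := ⟨0, 0, S, BH_zero _ _, map_zero _, IsNF_zero, BH_zero _ _, by simp⟩
theorem QB_V {m k : ℕ} {R : A} (h1 : BH m k R) (h2 : pderiv 0 R = 0) : QB m k (V (Fz 2) R) :=
  ⟨-R, 0, 0, h1.neg, by rw [map_neg, h2, neg_zero], IsNF_zero, BH_zero _ _, by rw [map_neg]; simp⟩
theorem QB_of_QA {m k : ℕ} {a : A} (h : QA (m + 1) (k + 1) a) : QB m k a := by
  obtain ⟨f, S, h1, h2, h3⟩ := h
  exact ⟨0, f, S, BH_zero _ _, map_zero _, h1, h2, by rw [map_zero, add_zero, h3]⟩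
theorem QB.sum {ι : Type*} {m k : ℕ} (s : Finset ι) (f : ι → A) (h : ∀ i ∈ s, QB m k (f i)) :
    QB m k (∑ i ∈ s, f i) := by
  classical
  induction s using Finset.induction_on with
  | empty => exact QB_zero m k
  | insert i s hi ih =>
    rw [Finset.sum_insert hi]
    exact (h i (Finset.mem_insert_self i s)).add (ih fun j hj => h j (Finset.mem_insert_of_mem hj))

/-- the weighted Euler derivation -/
noncomputable def Wd : Derivation ℚ A A :=
  mkDerivation ℚ (fun n => ((if n = 0 then (0 : ℚ) else if n = 1 then 1 else n + 1)) • (X n : A))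

/-- the remaining part of `V_{u u_1}` -/
noncomputable def Td : Derivation ℚ A A := V (Fz 2) - (X 0 : A) • d - (X 1 : A) • Wd

theorem V_Fz2 (a : A) : V (Fz 2) a = X 0 * d a + X 1 * Wd a + Td a := by
  have : Td a = V (Fz 2) a - X 0 * d a - X 1 * Wd a := rfl
  rw [this]; ring

theorem Wd_X (n : ℕ) (hn : 2 ≤ n) : Wd (X n) = ((n : ℚ) + 1) • (X n : A) := by
  unfold Wd
  rw [mkDerivation_X, if_neg (by omega), if_neg (by omega)]
theorem Wd_X1 : Wd (X 1) = (X 1 : A) := by
  unfold Wd
  rw [mkDerivation_X, if_neg (by omega), if_pos rfl, one_smul]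

theorem Wd_C0 {m k : ℕ} {a : A} (h : C0 m k a) : Wd a = ((m : ℚ) + k) • a := by
  rw [a.as_sum, map_sum, Finset.smul_sum]
  refine Finset.sum_congr rfl fun t ht => ?_
  have ht' := mem_support_iff.1 ht
  have hw : Finsupp.weight (fun n : ℕ => ((1 : ℕ), n)) t = (m, k) := h.bh ht'
  have h0 := supp_pd h.p0 ht'
  have h1 := supp_pd h.p1 ht'
  have hgen : ∀ (t : ℕ →₀ ℕ), t 0 = 0 → t 1 = 0 → ∀ m k, Finsupp.weight (fun n : ℕ => ((1 : ℕ), n)) t = (m, k) →
      Wd (monomial t (1 : ℚ)) = ((m : ℚ) + k) • monomial t 1 := by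
    intro t
    induction t using Finsupp.induction_linear with
    | zero =>
      intro _ _ m k h
      rw [map_zero] at h
      have hm := congrArg Prod.fst h
      have hk := congrArg Prod.snd h
      simp only [Prod.fst_zero, Prod.snd_zero] at hm hk
      rw [← hm, ← hk, show (monomial (0 : ℕ →₀ ℕ) (1 : ℚ)) = 1 from rfl, Derivation.map_one_eq_zero]
      simp
    | add t1 t2 i1 i2 =>
      intro h0 h1 m k h
      rw [Finsupp.add_apply] at h0 h1
      rw [map_add] at h
      have j1 := i1 (by omega) (by omega) (Finsupp.weight (fun n : ℕ => ((1 : ℕ), n)) t1).1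
        (Finsupp.weight (fun n : ℕ => ((1 : ℕ), n)) t1).2 rfl
      have j2 := i2 (by omega) (by omega) (Finsupp.weight (fun n : ℕ => ((1 : ℕ), n)) t2).1
        (Finsupp.weight (fun n : ℕ => ((1 : ℕ), n)) t2).2 rfl
      rw [show (monomial (t1 + t2) (1 : ℚ)) = monomial t1 1 * monomial t2 1 by
        rw [monomial_mul, one_mul], Derivation.leibniz, j1, j2]
      have hm := congrArg Prod.fst h
      have hk := congrArg Prod.snd h
      simp only [Prod.fst_add, Prod.snd_add] at hm hk
      rw [← hm, ← hk]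
      simp only [smul_eq_C_mul, smul_eq_mul]
      push_cast
      simp only [map_add]
      ring
    | single i e =>
      intro h0 h1 m k h
      rw [Finsupp.weight_single] at h
      have hm := congrArg Prod.fst h
      have hk := congrArg Prod.snd h
      simp at hm hk
      rw [← hm, ← hk, show (monomial (Finsupp.single i e) (1 : ℚ)) = X i ^ e by rw [X_pow_eq_monomial]]
      rcases Nat.eq_zero_or_pos e with he | he
      · subst he; simp
      have hi : 2 ≤ i := by
        by_contra hlt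
        have : i = 0 ∨ i = 1 := by omega
        rcases this with h | h
        · subst h; simp at h0; omega
        · subst h; simp at h1; omega
      rw [Derivation.leibniz_pow, Wd_X i hi]
      obtain ⟨e', rfl⟩ : ∃ e', e = e' + 1 := ⟨e - 1, by omega⟩
      rw [Nat.add_sub_cancel, ← Nat.cast_smul_eq_nsmul ℚ]
      simp only [smul_eq_C_mul, smul_eq_mul]
      push_cast
      simp only [map_add, map_mul, map_one]
      ring
  have h2 := hgen t h0 h1 m k hw
  have hs : (monomial t (coeff t a) : A) = (coeff t a) • monomial t 1 := by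
    rw [smul_monomial, smul_eq_mul, mul_one]
  rw [hs, Derivation.map_smul, h2, smul_comm]

theorem Td_X1 : Td (X 1) = 0 := by
  have : Td (X 1) = V (Fz 2) (X 1) - X 0 * d (X 1) - X 1 * Wd (X 1) := rfl
  rw [this, V_X, dn_one, Fz_succ, pw_one, Derivation.leibniz, d_X, d_X, Wd_X1, smul_eq_mul, smul_eq_mul]
  ring

theorem pd1_dn (n : ℕ) (a : A) : pderiv 1 (dn (n + 1) a) = dn (n + 1) (pderiv 1 a) + ((n : ℚ) + 1) • dn n (pderiv 0 a) := by
  induction n with
  | zero => rw [dn_succ, pd_d_succ, dn_zero, dn_succ, dn_zero, dn_zero]; simp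
  | succ n ih =>
    rw [dn_succ, pd_d_succ, ih, map_add, Derivation.map_smul, pd_dn_zero, ← dn_succ, ← dn_succ]
    push_cast
    rw [add_assoc]
    congr 1
    rw [show (n : ℚ) + 1 + 1 = ((n : ℚ) + 1) + 1 from rfl, add_smul ((n : ℚ) + 1) 1, one_smul]

theorem BH_Wd {m k : ℕ} {a : A} (h : BH m k a) : BH m k (Wd a) := by
  refine der_WH Wd 0 0 (fun n => Or.inr ⟨(1, n), by simp, ?_⟩) h (by simp)
  unfold Wd
  rw [mkDerivation_X]
  exact (BH_X n).smul _

theorem C0_Td_X (n : ℕ) (hn : 2 ≤ n) : C0 2 (n + 1) (Td (X n)) := by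
  have h : Td (X n) = V (Fz 2) (X n) - X 0 * d (X n) - X 1 * Wd (X n) := rfl
  have hV : V (Fz 2) (X n) = dn (n + 1) (pw 2) := by rw [V_X, Fz, ← dn_succ']
  refine ⟨?_, ?_, ?_⟩
  · rw [h]
    refine ((BH.V (BH_Fz 2) (BH_X n) (by omega)).congr rfl (by omega)).sub ?_ |>.sub ?_
    · exact ((BH_X 0).mul (BH_X n).d).congr rfl (by omega)
    · exact ((BH_X 1).mul (BH_Wd (BH_X n))).congr rfl (by omega)
  · rw [h, hV, Wd_X n hn, map_sub, map_sub, pd_dn_zero, pd_pw, pw_one, dn_X, d_X, Derivation.leibniz, Derivation.leibniz,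
      pd_X, pd_X, pd_X, Derivation.map_smul, pd_X, if_neg (by omega), if_pos rfl, if_neg (by omega), if_neg (by omega)]
    simp
  · obtain ⟨n', rfl⟩ : ∃ n', n = n' + 1 := ⟨n - 1, by omega⟩
    rw [h, hV, Wd_X _ hn, map_sub, map_sub, pd1_dn, pd_pw, pw_one, dn_X, show (1 : ℕ) = 0 + 1 from rfl, pd_pw_succ, map_zero,
      d_X, Derivation.leibniz, Derivation.leibniz,
      pd_X, pd_X, pd_X, Derivation.map_smul, pd_X, if_neg (by omega), if_neg (by omega), if_pos rfl, if_neg (by omega)]
    simp only [smul_eq_mul, mul_zero, smul_zero, zero_add, add_zero, mul_one, sub_zero]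
    push_cast
    ring

theorem C0_Td {m k : ℕ} {a : A} (h : C0 m k a) : C0 (m + 1) (k + 1) (Td a) := by
  have hT : Td a = V (Fz 2) a - X 0 * d a - X 1 * Wd a := rfl
  have hbd := pd_bd a
  have h0 : ∀ i, i < 2 → pderiv i (Td a) = 0 := by
    intro i hi
    rw [der_eq Td a _ hbd, map_sum]
    refine Finset.sum_eq_zero fun n _ => ?_
    rcases Nat.lt_or_ge n 2 with hn | hn
    · have : pderiv n a = 0 := by
        interval_cases n
        · exact h.p0
        · exact h.p1
      rw [this, zero_mul, map_zero]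
    · have h2 : pderiv i (pderiv n a) = 0 := by
        rw [pd_comm]
        have : pderiv i a = 0 := by
          interval_cases i
          · exact h.p0
          · exact h.p1
        rw [this, map_zero]
      have h3 : pderiv i (Td (X n)) = 0 := by
        interval_cases i
        · exact (C0_Td_X n hn).p0
        · exact (C0_Td_X n hn).p1
      rw [Derivation.leibniz, h2, h3, smul_zero, smul_zero, add_zero]
  refine ⟨?_, h0 0 (by omega), h0 1 (by omega)⟩
  rw [hT]
  refine (BH.sub ?_ ?_).sub ?_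
  · exact (BH.V (BH_Fz 2) h.bh (by omega : m + 1 + 1 = m + 2)).congr rfl rfl
  · exact ((BH_X 0).mul h.bh.d).congr (by omega) (by omega)
  · exact ((BH_X 1).mul (BH_Wd h.bh)).congr (by omega) (by omega)

theorem Td_X1_pow (q : ℕ) (a : A) : Td (X 1 ^ q * a) = X 1 ^ q * Td a := by
  rw [Derivation.leibniz, Derivation.leibniz_pow, Td_X1]
  simp

theorem Wd_X1_pow (q : ℕ) : Wd (X 1 ^ q) = (q : ℚ) • (X 1 ^ q : A) := by
  rcases q with _ | q
  · simp
  rw [Derivation.leibniz_pow, Wd_X1, Nat.add_sub_cancel, smul_eq_mul, ← pow_succ, ← Nat.cast_smul_eq_nsmul ℚ]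

theorem stageB (q : ℕ) : ∀ (m k m' k' : ℕ) (a : A), m' + q = m + 1 → k' + q = k + 1 → 2 ≤ m → C0 m' k' a →
    QB m k (X 1 ^ q * a) := by
  induction q with
  | zero =>
    intro m k m' k' a h1 h2 hm ha
    rw [pow_zero, one_mul]
    exact QB_of_QA (stageA' (by omega) (ha.congr (by omega) (by omega)))
  | succ q ih =>
    intro m k m' k' a h1 h2 hm ha
    set M : A := X 1 ^ q * a with hM
    have hMb : BH m k M := (((BH_X 1).pow q).mul ha.bh).congr (by omega) (by omega)
    have hM0 : pderiv 0 M = 0 := by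
      rw [hM, Derivation.leibniz, ha.p0, Derivation.leibniz_pow, pd_X, if_neg (by omega)]; simp
    have hV := V_Fz2 M
    have hW : Wd M = ((q : ℚ) + m' + k') • M := by
      rw [hM, Derivation.leibniz, Wd_C0 ha, Wd_X1_pow]
      simp only [smul_eq_C_mul, smul_eq_mul, map_add]
      ring
    have hTM : Td M = X 1 ^ q * Td a := Td_X1_pow q a
    have hd : d (X 0 * M) = X 0 * d M + X 1 * M := by
      rw [Derivation.leibniz, d_X, smul_eq_mul, smul_eq_mul]; ring
    have hTQ : QB m k (X 1 ^ q * Td a) := ih m k (m' + 1) (k' + 1) (Td a) (by omega) (by omega) hm (C0_Td ha)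
    set c : ℚ := (q : ℚ) + m' + k' - 1 with hc
    have hcpos : 0 < c := by
      have h3 : (3 : ℚ) ≤ (q : ℚ) + m' + 1 := by
        have : 3 ≤ q + m' + 1 := by omega
        exact_mod_cast this
      have h4 : (0 : ℚ) ≤ (k' : ℚ) := Nat.cast_nonneg _
      rw [hc]; linarith
    have hfin : X 1 ^ (q + 1) * a = c⁻¹ • (V (Fz 2) M + (-1 : ℚ) • d (X 0 * M) + (-1 : ℚ) • (X 1 ^ q * Td a)) := by
      have h5 : V (Fz 2) M + (-1 : ℚ) • d (X 0 * M) + (-1 : ℚ) • (X 1 ^ q * Td a) = c • (X 1 * M) := by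
        rw [hV, hW, hTM, hd, hc]
        simp only [smul_eq_C_mul, map_add, map_sub, map_neg, map_one]
        ring
      rw [h5, smul_smul, inv_mul_cancel₀ hcpos.ne', one_smul, hM]
      ring
    rw [hfin]
    exact (((QB_V hMb hM0).add ((QB_d m k _).smul _)).add (hTQ.smul _)).smul _

theorem normal_form {m k : ℕ} {a : A} (hm : 2 ≤ m) (ha : BH (m + 1) (k + 1) a) (h0 : pderiv 0 a = 0) :
    QB m k a := by
  rw [a.as_sum]
  refine QB.sum _ _ fun t ht => ?_
  have ht' := mem_support_iff.1 ht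
  have hw : Finsupp.weight (fun n : ℕ => ((1 : ℕ), n)) t = (m + 1, k + 1) := ha ht'
  have e1 : t.erase 1 + Finsupp.single 1 (t 1) = t := Finsupp.erase_add_single _ t
  have hmon : (monomial t (coeff t a) : A) = X 1 ^ (t 1) * monomial (t.erase 1) (coeff t a) := by
    rw [X_pow_eq_monomial, monomial_mul, one_mul, add_comm, e1]
  rw [hmon]
  rw [← e1, map_add, Finsupp.weight_single] at hw
  have hw1 := congrArg Prod.fst hw
  have hw2 := congrArg Prod.snd hw
  simp only [Prod.fst_add, Prod.snd_add, Prod.smul_fst, Prod.smul_snd, smul_eq_mul, mul_one] at hw1 hw2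
  have et : (t.erase 1 + Finsupp.single 1 (t 1) : ℕ →₀ ℕ) 1 = t 1 := by rw [e1]
  rw [et] at *
  refine stageB (t 1) m k _ _ _ hw1 hw2 hm ⟨isWeightedHomogeneous_monomial _ _ _ rfl, pd_monomial_zero ?_ _, pd_monomial_zero ?_ _⟩
  · rw [Finsupp.erase_ne (by omega)]; exact supp_pd h0 ht'
  · exact Finsupp.erase_same

end Pool.Agent.Y665.RH
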