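import Pool.Agent.Y665.RH.Germ

/-!
# Poincaré lemma along the `D_j`; homogenisation
-/

set_option autoImplicit false
set_option linter.all false

open MvPolynomial Finset

namespace Pool.Agent.Y665.RH

theorem iter_sg (J : ℕ) {w : A} (hw : sg w = w) (n : ℕ) : sg ((Dj J)^[n] w) = (Dj J)^[n] w := by
  induction n with
  | zero => exact hw
  | succ n ih => rw [Function.iterate_succ_apply']; exact sg_Dj ih

theorem iter_WZ (J : ℕ) {w : A} {c : ℤ} (h : WZ c w) (n : ℕ) :
    WZ (c - n * (2 * J + 1)) ((Dj J)^[n] w) := by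
  induction n with
  | zero => exact h.congr (by simp)
  | succ n ih => rw [Function.iterate_succ_apply']; exact (Dj_WZ J ih).congr (by push_cast; ring)

theorem iter_zero (J j : ℕ) {w : A} (hw : sg w = w) (h : Dj j w = 0) (n : ℕ) :
    Dj j ((Dj J)^[n] w) = 0 := by
  induction n with
  | zero => exact h
  | succ n ih => rw [Function.iterate_succ_apply', Dj_comm j J (iter_sg J hw n), ih, map_zero]

theorem integ (J : ℕ) {a : A} (hsa : sg a = a) (ha1 : Dj J a = 1) (haW : WZ (2 * J + 1) a)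
    {w : A} (hw : sg w = w) {c : ℤ} (hW : WZ c w) :
    ∃ r, sg r = r ∧ WZ (c + (2 * J + 1)) r ∧ Dj J r = w ∧
      ∀ j, Dj j a = 0 → Dj j w = 0 → Dj j r = 0 := by
  set S : ℕ → A := fun n => ∑ i ∈ range n, ((-1 : ℚ) ^ i / ((i + 1).factorial : ℚ)) •
    (a ^ (i + 1) * (Dj J)^[i] w) with hS
  have h1 : ∀ n, Dj J (S n) = w - ((-1 : ℚ) ^ n / (n.factorial : ℚ)) • (a ^ n * (Dj J)^[n] w) := by
    intro n
    induction n with
    | zero => simp [hS]
    | succ n ih =>
      have h2 : S (n + 1) = S n + ((-1 : ℚ) ^ n / ((n + 1).factorial : ℚ)) •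
        (a ^ (n + 1) * (Dj J)^[n] w) := by rw [hS]; simp only [Finset.sum_range_succ]
      rw [h2, map_add, ih, Derivation.map_smul, Derivation.leibniz, Derivation.leibniz_pow, ha1,
        ← Function.iterate_succ_apply' (Dj J) n w]
      simp only [Nat.add_sub_cancel, smul_eq_mul, mul_one]
      have h3 : ((n + 1).factorial : ℚ) = (n + 1) * n.factorial := by
        rw [Nat.factorial_succ]; push_cast; ring
      have h4 : (n.factorial : ℚ) ≠ 0 := Nat.cast_ne_zero.2 (Nat.factorial_ne_zero _)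
      have h5 : ((n : ℚ) + 1) ≠ 0 := by positivity
      rw [smul_add, mul_smul_comm, ← Nat.cast_smul_eq_nsmul ℚ, smul_smul, h3]
      have h6 : (-1 : ℚ) ^ n / (((n : ℚ) + 1) * n.factorial) * ((n + 1 : ℕ) : ℚ) = (-1 : ℚ) ^ n / n.factorial := by
        push_cast; field_simp
      rw [h6, pow_succ (-1 : ℚ) n]
      rw [mul_comm ((Dj J)^[n] w)]
      simp only [mul_neg, mul_one, neg_div, neg_smul]
      ring
  obtain ⟨n, hn⟩ : ∃ n : ℕ, c - n * (2 * J + 1) < 0 := by
    refine ⟨(c + 1).toNat, ?_⟩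
    have h2 := Int.self_le_toNat (c + 1)
    have h3 : (0 : ℤ) ≤ J := Int.natCast_nonneg J
    nlinarith [Int.natCast_nonneg ((c + 1).toNat)]
  have h0 : (Dj J)^[n] w = 0 := neg_zero' (iter_sg J hw n) (iter_WZ J hW n) hn
  refine ⟨S n, ?_, ?_, ?_, ?_⟩
  · rw [hS]
    simp only [map_sum, map_smul, map_mul, map_pow, hsa, iter_sg J hw]
  · rw [hS]
    refine IsWeightedHomogeneous.sum _ _ _ fun i _ => ?_
    have h2 := ((haW.pow (i + 1)).mul (iter_WZ J hW i)).smul ((-1 : ℚ) ^ i / ((i + 1).factorial : ℚ))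
    exact h2.congr (by push_cast; ring)
  · rw [h1, h0, mul_zero, smul_zero, sub_zero]
  · intro j hj1 hj2
    rw [hS, map_sum]
    refine Finset.sum_eq_zero fun i _ => ?_
    rw [Derivation.map_smul, Derivation.leibniz, iter_zero J j hw hj2, Derivation.leibniz_pow, hj1]
    simp

theorem slice (J : ℕ) : ∃ a : A, sg a = a ∧ Dj J a = 1 ∧ WZ (2 * J + 1) a ∧ ∀ j, J < j → Dj j a = 0 := by
  obtain ⟨c, hc, hD⟩ := kappa J
  have h1 : sg (X (2 * J + 3)) = X (2 * J + 3) := sg_X _ (by omega)
  have h2' : WZ (((2 * J + 3 : ℕ) : ℤ) - 2) (X (2 * J + 3)) := isWeightedHomogeneous_X ℚ _ (2 * J + 3)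
  have h2 : WZ (2 * (J : ℤ) + 1) (X (2 * J + 3)) := h2'.congr (by push_cast; ring)
  refine ⟨c⁻¹ • X (2 * J + 3), ?_, ?_, h2.smul _, ?_⟩
  · rw [map_smul, h1]
  · rw [Derivation.map_smul, hD, smul_eq_C_mul, ← C_mul, inv_mul_cancel₀ hc, C_1]
  · intro j hj
    rw [Derivation.map_smul, neg_zero' (sg_Dj h1) (Dj_WZ j h2) (by omega), smul_zero]

theorem poincare (J : ℕ) : ∀ (c : ℤ) (w : ℕ → A), (∀ j, sg (w j) = w j) →
    (∀ j : ℕ, WZ (c - (2 * j + 1)) (w j)) → (∀ i j, Dj i (w j) = Dj j (w i)) →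
    (∀ j, J ≤ j → w j = 0) → ∃ r, sg r = r ∧ WZ c r ∧ ∀ j, Dj j r = w j := by
  induction J with
  | zero =>
    intro c w _ _ _ h0
    exact ⟨0, map_zero _, WZ_zero _, fun j => by rw [map_zero, h0 j (Nat.zero_le _)]⟩
  | succ J ih =>
    intro c w h1 h2 h3 h4
    obtain ⟨a, ha1, ha2, ha3, ha4⟩ := slice J
    obtain ⟨r1, hr1, hr2, hr3, hr4⟩ := integ J ha1 ha2 ha3 (h1 J) (h2 J)
    have hr2' : WZ c r1 := hr2.congr (by ring)
    have hr5 : ∀ j, J < j → Dj j r1 = 0 := fun j hj =>
      hr4 j (ha4 j hj) (by rw [h3, h4 j (by omega), map_zero])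
    obtain ⟨r2, hs1, hs2, hs3⟩ := ih c (fun j => w j - Dj j r1)
      (fun j => by rw [map_sub, h1, sg_Dj hr1])
      (fun j => (h2 j).sub (Dj_WZ j hr2'))
      (fun i j => by rw [map_sub, map_sub, h3, Dj_comm i j hr1])
      (fun j hj => by
        rcases Nat.eq_or_lt_of_le hj with h | h
        · subst h; rw [hr3, sub_self]
        · rw [hr5 j h, h4 j (by omega), sub_self])
    refine ⟨r1 + r2, by rw [map_add, hr1, hs1], hr2'.add hs2, fun j => ?_⟩
    rw [map_add, hs3]; ring

/-! ### homogenisation -/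

theorem sg_C (c : ℚ) : sg (C c) = C c := (aeval_C _ _).trans rfl

theorem sg_monomial_fix {t : ℕ →₀ ℕ} (h : ∀ n, n < 3 → t n = 0) (c : ℚ) :
    sg (monomial t c) = monomial t c := by
  rw [monomial_eq, map_mul, sg_C, map_finsuppProd]
  congr 1
  refine Finsupp.prod_congr fun n hn => ?_
  rw [map_pow, sg_X n (by
    by_contra h3
    exact Finsupp.mem_support_iff.1 hn (h n (by omega)))]

theorem sg_monomial {t : ℕ →₀ ℕ} (h : ∀ n, n < 2 → t n = 0) (c : ℚ) :
    sg (monomial t c) = monomial (t.erase 2) c := by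
  have h1 : (monomial t c : A) = monomial (t.erase 2) c * X 2 ^ (t 2) := by
    rw [X_pow_eq_monomial, monomial_mul, mul_one, Finsupp.erase_add_single]
  rw [h1, map_mul, map_pow, sg_X2, one_pow, mul_one]
  apply sg_monomial_fix
  intro n hn
  rcases Nat.lt_or_ge n 2 with h2 | h2
  · rw [Finsupp.erase_ne (by omega)]; exact h n h2
  · rw [show n = 2 by omega, Finsupp.erase_same]

theorem weight_fst (t : ℕ →₀ ℕ) : (Finsupp.weight (fun n : ℕ => ((1 : ℕ), n)) t).1 = t.sum fun _ m => m := by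
  induction t using Finsupp.induction_linear with
  | zero => simp
  | add t1 t2 h1 h2 =>
    rw [map_add, Prod.fst_add, h1, h2, Finsupp.sum_add_index' (fun _ => rfl) (fun _ _ _ => rfl)]
  | single i m => rw [Finsupp.weight_single, Finsupp.sum_single_index rfl]; simp

theorem homogenize {r : A} (hr : sg r = r) {W M : ℕ} (hW : WZ W r) (hWM : W ≤ M) :
    ∃ ρ, BH M (W + 2 * M) ρ ∧ pderiv 0 ρ = 0 ∧ pderiv 1 ρ = 0 ∧ sg ρ = r := by
  have hs : ∀ t ∈ r.support, (∀ n, n < 3 → t n = 0) := fun t ht n hn => supp_sg hr (mem_support_iff.1 ht) n hn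
  have hle : ∀ t ∈ r.support, (t.sum fun _ m => m) ≤ M := by
    intro t ht
    have h1 := deg_le_weight (hs t ht)
    rw [hW (mem_support_iff.1 ht)] at h1
    omega
  refine ⟨∑ t ∈ r.support, monomial (t + Finsupp.single 2 (M - t.sum fun _ m => m)) (coeff t r), ?_, ?_, ?_, ?_⟩
  · refine BH.sum _ _ fun t ht => ?_
    refine isWeightedHomogeneous_monomial _ _ _ ?_
    have h1 := hle t ht
    have h2 := weight_rel t
    rw [hW (mem_support_iff.1 ht)] at h2
    have h3 := weight_fst t
    rw [map_add, Finsupp.weight_single]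
    rw [h3] at h2
    refine Prod.ext ?_ ?_
    · rw [Prod.fst_add, h3]; simp; omega
    · rw [Prod.snd_add]; simp; omega
  · rw [map_sum]
    refine Finset.sum_eq_zero fun t ht => ?_
    rw [pderiv_monomial]
    have : (t + Finsupp.single 2 (M - t.sum fun _ m => m) : ℕ →₀ ℕ) 0 = 0 := by
      rw [Finsupp.add_apply, hs t ht 0 (by omega), Finsupp.single_eq_of_ne (by omega), add_zero]
    rw [this]; simp
  · rw [map_sum]
    refine Finset.sum_eq_zero fun t ht => ?_
    rw [pderiv_monomial]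
    have : (t + Finsupp.single 2 (M - t.sum fun _ m => m) : ℕ →₀ ℕ) 1 = 0 := by
      rw [Finsupp.add_apply, hs t ht 1 (by omega), Finsupp.single_eq_of_ne (by omega), add_zero]
    rw [this]; simp
  · rw [map_sum]
    conv_rhs => rw [r.as_sum]
    refine Finset.sum_congr rfl fun t ht => ?_
    rw [sg_monomial (fun n hn => by
      rw [Finsupp.add_apply, hs t ht n (by omega), Finsupp.single_eq_of_ne (by omega), add_zero])]
    congr 2
    ext n
    by_cases h2 : n = 2
    · subst h2; rw [Finsupp.erase_same, hs t ht 2 (by omega)]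
    · rw [Finsupp.erase_ne h2, Finsupp.add_apply, Finsupp.single_eq_of_ne h2, add_zero]

theorem supp_pd {q : A} {i : ℕ} (h : pderiv i q = 0) {t : ℕ →₀ ℕ} (ht : coeff t q ≠ 0) : t i = 0 := by
  by_contra h0
  have h2 : coeff (t - Finsupp.single i 1) (pderiv i q) = 0 := by rw [h, coeff_zero]
  rw [coeff_pderiv] at h2
  have h3 : t - Finsupp.single i 1 + Finsupp.single i 1 = t := by
    ext j
    simp only [Finsupp.coe_add, Finsupp.coe_tsub, Pi.add_apply, Pi.sub_apply]
    by_cases hi : j = i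
    · subst hi; simp; omega
    · rw [Finsupp.single_eq_of_ne hi]; simp
  rw [h3] at h2
  have h4 : (((t - Finsupp.single i 1 : ℕ →₀ ℕ) i : ℕ) : ℚ) + 1 ≠ 0 := by positivity
  rcases mul_eq_zero.1 h2 with h | h
  · exact ht h
  · exact h4 h

theorem zero_of_sg {q : A} {M k : ℕ} (hq : BH M k q) (h0 : pderiv 0 q = 0) (h1 : pderiv 1 q = 0)
    (hs : sg q = 0) : q = 0 := by
  by_contra hne
  obtain ⟨s, hs1⟩ := MvPolynomial.ne_zero_iff.1 hne
  have hsupp : ∀ t, coeff t q ≠ 0 → ∀ n, n < 2 → t n = 0 := by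
    intro t ht n hn
    interval_cases n
    · exact supp_pd h0 ht
    · exact supp_pd h1 ht
  have hdeg : ∀ t, coeff t q ≠ 0 → (t.sum fun _ m => m) = M := by
    intro t ht
    rw [← weight_fst, hq ht]
  have h2 : sg q = ∑ t ∈ q.support, monomial (t.erase 2) (coeff t q) := by
    conv_lhs => rw [q.as_sum]
    rw [map_sum]
    exact Finset.sum_congr rfl fun t ht => sg_monomial (hsupp t (mem_support_iff.1 ht)) _
  have h3 : coeff (s.erase 2) (sg q) = coeff s q := by
    rw [h2, coeff_sum]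
    rw [Finset.sum_eq_single s]
    · rw [coeff_monomial, if_pos rfl]
    · intro t ht hts
      rw [coeff_monomial, if_neg]
      intro he
      apply hts
      have ht' := mem_support_iff.1 ht
      have e1 : t.erase 2 + Finsupp.single 2 (t 2) = t := Finsupp.erase_add_single 2 t
      have e2 : s.erase 2 + Finsupp.single 2 (s 2) = s := Finsupp.erase_add_single 2 s
      have e3 : (t.sum fun _ m => m) = (s.sum fun _ m => m) := by rw [hdeg t ht', hdeg s hs1]
      rw [← e1, ← e2, Finsupp.sum_add_index' (fun _ => rfl) (fun _ _ _ => rfl),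
        Finsupp.sum_add_index' (fun _ => rfl) (fun _ _ _ => rfl), he,
        Finsupp.sum_single_index rfl, Finsupp.sum_single_index rfl] at e3
      have e4 : t 2 = s 2 := by
        have := Nat.add_left_cancel e3
        simpa using this
      rw [← e1, ← e2, he, e4]
    · intro h; rw [coeff_monomial, if_pos rfl]; exact notMem_support_iff.1 h
  rw [hs, coeff_zero] at h3
  exact hs1 h3.symm

/-- `u_1 ↦ 0` -/
noncomputable def ta : A →ₐ[ℚ] A := aeval (fun n => if n = 1 then (0 : A) else X n)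

theorem ta_X1 : ta (X 1) = 0 := by simp [ta]
theorem ta_X (n : ℕ) (h : n ≠ 1) : ta (X n) = X n := by
  unfold ta; rw [aeval_X, if_neg h]
theorem ta_C (c : ℚ) : ta (C c) = C c := (aeval_C _ _).trans rfl

theorem X1_dvd_sub_ta (a : A) : X 1 ∣ a - ta a := by
  induction a using MvPolynomial.induction_on with
  | C c => rw [ta_C, sub_self]; exact dvd_zero _
  | add p q hp hq =>
    rw [map_add, show p + q - (ta p + ta q) = (p - ta p) + (q - ta q) by ring]
    exact dvd_add hp hq
  | mul_X p i hp =>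
    by_cases h : i = 1
    · subst h; rw [map_mul, ta_X1, mul_zero, sub_zero]; exact dvd_mul_left _ _
    · rw [map_mul, ta_X i h, show p * X i - ta p * X i = (p - ta p) * X i by ring]
      exact Dvd.dvd.mul_right hp _

theorem X1_dvd_of_ta {a : A} (h : ta a = 0) : X 1 ∣ a := by
  have := X1_dvd_sub_ta a
  rwa [h, sub_zero] at this

theorem ta_of_X1_dvd {a : A} (h : X 1 ∣ a) : ta a = 0 := by
  obtain ⟨b, rfl⟩ := h
  rw [map_mul, ta_X1, zero_mul]

theorem pd0_ta (a : A) : pderiv 0 (ta a) = ta (pderiv 0 a) := by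
  induction a using MvPolynomial.induction_on with
  | C c => rw [ta_C, pderiv_C, map_zero]
  | add p q hp hq => rw [map_add, map_add, hp, hq, map_add, map_add]
  | mul_X p i hp =>
    rw [map_mul, Derivation.leibniz, hp, Derivation.leibniz, map_add, smul_eq_mul, smul_eq_mul, smul_eq_mul,
      smul_eq_mul, map_mul, map_mul]
    congr 2
    by_cases h : i = 1
    · subst h; rw [ta_X1, map_zero, pd_X, if_neg (by omega), map_zero]
    · rw [ta_X i h, pd_X]; split_ifs <;> simp

theorem pd1_ta (a : A) : pderiv 1 (ta a) = 0 := by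
  induction a using MvPolynomial.induction_on with
  | C c => rw [ta_C, pderiv_C]
  | add p q hp hq => rw [map_add, map_add, hp, hq, add_zero]
  | mul_X p i hp =>
    rw [map_mul, Derivation.leibniz, hp, smul_zero, add_zero]
    by_cases h : i = 1
    · subst h; rw [ta_X1, map_zero, smul_zero]
    · rw [ta_X i h, pd_X, if_neg h, smul_zero]

theorem sg_ta (a : A) : sg (ta a) = sg a := by
  have : (sg.comp ta) = sg := by
    apply MvPolynomial.algHom_ext
    intro n
    rw [AlgHom.comp_apply]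
    by_cases h : n = 1
    · subst h; rw [ta_X1, map_zero, sg_X1]
    · rw [ta_X n h]
  exact DFunLike.congr_fun this a

theorem ta_monomial_BH (t : ℕ →₀ ℕ) : IsWeightedHomogeneous (fun n : ℕ => ((1 : ℕ), n))
    (ta (monomial t 1)) (Finsupp.weight (fun n : ℕ => ((1 : ℕ), n)) t) := by
  induction t using Finsupp.induction_linear with
  | zero =>
    rw [show (monomial (0 : ℕ →₀ ℕ) (1 : ℚ)) = 1 from rfl, map_one, map_zero]
    exact isWeightedHomogeneous_one ℚ _
  | add t1 t2 h1 h2 =>
    rw [map_add, show (monomial (t1 + t2) (1 : ℚ)) = monomial t1 1 * monomial t2 1 by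
      rw [monomial_mul, one_mul], map_mul]
    exact h1.mul h2
  | single i m =>
    rw [Finsupp.weight_single, show (monomial (Finsupp.single i m) (1 : ℚ)) = X i ^ m by
      rw [X_pow_eq_monomial], map_pow]
    refine IsWeightedHomogeneous.pow ?_ m
    by_cases h : i = 1
    · subst h; rw [ta_X1]; exact isWeightedHomogeneous_zero ℚ _ _
    · rw [ta_X i h]; exact isWeightedHomogeneous_X ℚ _ i

theorem BH.ta {m k : ℕ} {a : A} (ha : BH m k a) : BH m k (ta a) := by
  refine IsWeightedHomogeneous.induction_on (motive := fun p _ => BH m k (RH.ta p)) ?_ ?_ ?_ ha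
  · rw [map_zero]; exact BH_zero _ _
  · intro p q _ _ hp hq; rw [map_add]; exact hp.add hq
  · intro t r ht
    have h1 := ta_monomial_BH t
    rw [ht] at h1
    have h2 : (monomial t r : A) = r • monomial t 1 := by rw [smul_monomial, smul_eq_mul, mul_one]
    rw [h2, map_smul]
    exact BH.smul h1 r

/-- divisibility by `u_1` of a translation covariant family can be checked at `u = 0`, `u_2 = 1` -/
theorem div_family (t : ℕ → A) (m k : ℕ → ℕ) (hBH : ∀ e, BH (m e) (k e) (t e)) (h0 : t 0 = 0)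
    (hcov : ∀ e, pderiv 0 (t (e + 1)) = t e) (hs : ∀ e, sg (t e) = 0) : ∀ e, X 1 ∣ t e := by
  intro e
  apply X1_dvd_of_ta
  induction e with
  | zero => rw [h0, map_zero]
  | succ e ih =>
    refine zero_of_sg (hBH (e + 1)).ta ?_ (pd1_ta _) (by rw [sg_ta, hs])
    rw [pd0_ta, hcov, ih]

end Pool.Agent.Y665.RH
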