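import Pool.Agent.Y665.RH.Ser

/-!
# The recursion
-/

set_option autoImplicit false
set_option linter.all false

open MvPolynomial Finset

namespace Pool.Agent.Y665.RH

/-- the Hamiltonian densities built from the sequence `f = (ρ_n, R_n)` -/
noncomputable def Hs (f : ℕ → A × A) : ℕ → ℕ → A
  | 0, e => pw (e + 1)
  | n + 1, e => -(((n : ℚ) + 1)⁻¹ • (dv (∑ i : Fin (n + 1), N (d (E (Hs f i.1 e))) (f (n - i.1)).1) +
      ∑ i : Fin (n + 1), V (d (E (Hs f i.1 e))) (f (n - i.1)).2))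
termination_by n _ => n
decreasing_by all_goals exact i.2

noncomputable def Gs (f : ℕ → A × A) (n e : ℕ) : A := E (Hs f n e)
noncomputable def Fs (f : ℕ → A × A) (n e : ℕ) : A := d (E (Hs f n e))

noncomputable def tt (f : ℕ → A × A) (e n : ℕ) : A := ∑ p ∈ antidiagonal n, N (Fs f p.1 e) (f p.2).1
noncomputable def ww (f : ℕ → A × A) (e n : ℕ) : A := ∑ p ∈ antidiagonal n, V (Fs f p.1 e) (f p.2).2

theorem Hs_zero (f : ℕ → A × A) (e : ℕ) : Hs f 0 e = pw (e + 1) := by rw [Hs]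
theorem Hs_succ (f : ℕ → A × A) (n e : ℕ) : Hs f (n + 1) e =
    -(((n : ℚ) + 1)⁻¹ • (dv (tt f e n) + ww f e n)) := by
  rw [Hs, tt, ww, Finset.Nat.sum_antidiagonal_eq_sum_range_succ_mk, Finset.Nat.sum_antidiagonal_eq_sum_range_succ_mk,
    Finset.sum_range, Finset.sum_range]
  rfl

theorem Hs_congr (n : ℕ) : ∀ (f g : ℕ → A × A), (∀ m, m < n → f m = g m) → ∀ e, Hs f n e = Hs g n e := by
  induction n using Nat.strong_induction_on with
  | _ n ih =>
    intro f g h e
    rcases n with _ | n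
    · rw [Hs_zero, Hs_zero]
    · rw [Hs_succ, Hs_succ, tt, tt, ww, ww]
      have h1 : ∀ p ∈ antidiagonal n, Fs f p.1 e = Fs g p.1 e ∧ f p.2 = g p.2 := by
        intro p hp
        rw [HasAntidiagonal.mem_antidiagonal] at hp
        refine ⟨?_, h _ (by omega)⟩
        unfold Fs
        rw [ih p.1 (by omega) f g (fun m hm => h m (by omega)) e]
      rw [Finset.sum_congr rfl fun p hp => by rw [(h1 p hp).1, (h1 p hp).2]]
      congr 3
      exact Finset.sum_congr rfl fun p hp => by rw [(h1 p hp).1, (h1 p hp).2]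

theorem Fs_congr (n : ℕ) (f g : ℕ → A × A) (h : ∀ m, m < n → f m = g m) (e : ℕ) : Fs f n e = Fs g n e := by
  unfold Fs; rw [Hs_congr n f g h]

theorem tt_congr (n : ℕ) (f g : ℕ → A × A) (h : ∀ m, m ≤ n → f m = g m) (e : ℕ) : tt f e n = tt g e n := by
  unfold tt
  refine Finset.sum_congr rfl fun p hp => ?_
  rw [HasAntidiagonal.mem_antidiagonal] at hp
  rw [Fs_congr p.1 f g (fun m hm => h m (by omega)), h p.2 (by omega)]
theorem ww_congr (n : ℕ) (f g : ℕ → A × A) (h : ∀ m, m ≤ n → f m = g m) (e : ℕ) : ww f e n = ww g e n := by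
  unfold ww
  refine Finset.sum_congr rfl fun p hp => ?_
  rw [HasAntidiagonal.mem_antidiagonal] at hp
  rw [Fs_congr p.1 f g (fun m hm => h m (by omega)), h p.2 (by omega)]

theorem Fs_zero (f : ℕ → A × A) (e : ℕ) : Fs f 0 e = Fz e := by
  unfold Fs Fz; rw [Hs_zero, E_pw]

/-! ### `e = 0` and `e = 1` -/

theorem Fs_e0 (f : ℕ → A × A) (n : ℕ) : Fs f n 0 = 0 := by
  induction n using Nat.strong_induction_on with
  | _ n ih =>
    rcases n with _ | n
    · rw [Fs_zero, Fz_zero]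
    · have h1 : tt f 0 n = 0 := by
        unfold tt
        refine Finset.sum_eq_zero fun p hp => ?_
        rw [HasAntidiagonal.mem_antidiagonal] at hp
        rw [ih p.1 (by omega), N_zero]
      have h2 : ww f 0 n = 0 := by
        unfold ww
        refine Finset.sum_eq_zero fun p hp => ?_
        rw [HasAntidiagonal.mem_antidiagonal] at hp
        rw [ih p.1 (by omega), V_zero]; rfl
      unfold Fs
      rw [Hs_succ, h1, h2, dv_zero, add_zero, smul_zero, neg_zero, E_zero, map_zero]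

theorem tt_e0 (f : ℕ → A × A) (n : ℕ) : tt f 0 n = 0 := by
  unfold tt
  exact Finset.sum_eq_zero fun p hp => by rw [Fs_e0, N_zero]
theorem ww_e0 (f : ℕ → A × A) (n : ℕ) : ww f 0 n = 0 := by
  unfold ww
  exact Finset.sum_eq_zero fun p hp => by rw [Fs_e0, V_zero]; rfl
theorem Hs_e0 (f : ℕ → A × A) (n : ℕ) : Hs f (n + 1) 0 = 0 := by
  rw [Hs_succ, tt_e0, ww_e0, dv_zero, add_zero, smul_zero, neg_zero]

theorem Fs_e1 (f : ℕ → A × A) (n : ℕ) : Fs f (n + 1) 1 = 0 := by
  induction n using Nat.strong_induction_on with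
  | _ n ih =>
    have hF : ∀ p : ℕ × ℕ, p ∈ antidiagonal n → Fs f p.1 1 = if p.1 = 0 then X 1 else 0 := by
      intro p hp
      rw [HasAntidiagonal.mem_antidiagonal] at hp
      split_ifs with h
      · rw [h, Fs_zero, Fz_one]
      · obtain ⟨k, hk⟩ : ∃ k, p.1 = k + 1 := ⟨p.1 - 1, by omega⟩
        rw [hk]; exact ih k (by omega)
    have h1 : tt f 1 n = 0 := by
      unfold tt
      refine Finset.sum_eq_zero fun p hp => ?_
      rw [hF p hp]
      split_ifs
      · exact N_X1' _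
      · exact N_zero _
    have h2 : ww f 1 n ∈ Ex := by
      unfold ww
      refine Ex.sum_mem fun p hp => ?_
      rw [hF p hp]
      split_ifs
      · rw [V_X1]; exact d_mem_Ex _
      · rw [V_zero]; exact Ex.zero_mem
    unfold Fs
    rw [Hs_succ, h1, dv_zero, zero_add, E_of_Ex (Ex.neg_mem (Ex.smul_mem _ h2)), map_zero]

theorem Fs_e1' (f : ℕ → A × A) (n : ℕ) : Fs f n 1 = if n = 0 then X 1 else 0 := by
  rcases n with _ | n
  · rw [if_pos rfl, Fs_zero, Fz_one]
  · rw [if_neg (by omega), Fs_e1]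

theorem tt_e1 (f : ℕ → A × A) (n : ℕ) : tt f 1 n = 0 := by
  unfold tt
  refine Finset.sum_eq_zero fun p hp => ?_
  rw [Fs_e1']
  split_ifs
  · exact N_X1' _
  · exact N_zero _

/-! ### the inductive property -/

structure PP (n : ℕ) (f : ℕ → A × A) : Prop where
  bh : BH (6 * n + 8) (18 * n + 16) (f n).1
  p0 : pderiv 0 (f n).1 = 0
  bhR : BH (6 * n + 8) (18 * n + 17) (f n).2
  p0R : pderiv 0 (f n).2 = 0
  dvd : ∀ e, X 1 ∣ tt f e n
  nf : ∃ g S, IsNF g ∧ BH (6 * n + 9) (18 * n + 18) g ∧ dv (tt f 2 n) + ww f 2 n = g + d S ∧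
    (n = 0 → g = (25 : ℚ) • X 2 ^ 9)

theorem PP_congr (n : ℕ) (f g : ℕ → A × A) (h : ∀ m, m ≤ n → f m = g m) (hf : PP n f) : PP n g := by
  obtain ⟨h1, h2, h3, h4, h5, h6⟩ := hf
  have h0 := h n le_rfl
  rw [h0] at h1 h2 h3 h4
  refine ⟨h1, h2, h3, h4, fun e => ?_, ?_⟩
  · rw [← tt_congr n f g h]; exact h5 e
  · rw [← tt_congr n f g h, ← ww_congr n f g h]; exact h6

theorem BH_Fs_of {f : ℕ → A × A} {m e : ℕ} (h : BH (6 * m + e + 1) (18 * m) (Hs f m e)) :
    BH (6 * m + e) (18 * m + 1) (Fs f m e) := by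
  unfold Fs
  exact (BH.E h).d

theorem BH_tt_of {f : ℕ → A × A} {n e : ℕ} (hH : ∀ m, m ≤ n → BH (6 * m + e + 1) (18 * m) (Hs f m e))
    (hf : ∀ m, m ≤ n → BH (6 * m + 8) (18 * m + 16) (f m).1) :
    BH (6 * n + e + 8) (18 * n + 19) (tt f e n) := by
  unfold tt
  refine BH.sum _ _ fun p hp => ?_
  rw [HasAntidiagonal.mem_antidiagonal] at hp
  exact (BH.N (BH_Fs_of (hH p.1 (by omega))) (hf p.2 (by omega)) (by omega)).congr (by omega) (by omega)

theorem BH_ww_of {f : ℕ → A × A} {n e : ℕ} (hH : ∀ m, m ≤ n → BH (6 * m + e + 1) (18 * m) (Hs f m e))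
    (hf : ∀ m, m ≤ n → BH (6 * m + 8) (18 * m + 17) (f m).2) :
    BH (6 * n + e + 7) (18 * n + 18) (ww f e n) := by
  unfold ww
  refine BH.sum _ _ fun p hp => ?_
  rw [HasAntidiagonal.mem_antidiagonal] at hp
  exact (BH.V (m'' := 6 * n + e + 7) (BH_Fs_of (hH p.1 (by omega))) (hf p.2 (by omega)) (by omega)).congr
    (by omega) (by omega)

theorem BH_Hs {f : ℕ → A × A} (n : ℕ) (hf : ∀ m, m < n → BH (6 * m + 8) (18 * m + 16) (f m).1)
    (hf' : ∀ m, m < n → BH (6 * m + 8) (18 * m + 17) (f m).2) (e : ℕ) :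
    ∀ m, m ≤ n → BH (6 * m + e + 1) (18 * m) (Hs f m e) := by
  intro m
  induction m using Nat.strong_induction_on with
  | _ m ih =>
    intro hm
    rcases m with _ | m
    · rw [Hs_zero]; exact (BH_pw (e + 1)).congr (by omega) (by omega)
    · rw [Hs_succ]
      have hH : ∀ k, k ≤ m → BH (6 * k + e + 1) (18 * k) (Hs f k e) := fun k hk => ih k (by omega) (by omega)
      refine (BH.smul (BH.add ?_ ?_) _).neg
      · exact BH.dv ((BH_tt_of hH fun k hk => hf k (by omega)).congr (by omega) (by omega))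
      · exact (BH_ww_of hH fun k hk => hf' k (by omega)).congr (by omega) (by omega)

/-! ### translation covariance -/

theorem pd_tt_of {f : ℕ → A × A} {n e : ℕ} (hF : ∀ m, m ≤ n → pderiv 0 (Fs f m (e + 1)) = Fs f m e)
    (hf : ∀ m, m ≤ n → pderiv 0 (f m).1 = 0) : pderiv 0 (tt f (e + 1) n) = tt f e n := by
  unfold tt
  rw [map_sum]
  refine Finset.sum_congr rfl fun p hp => ?_
  rw [HasAntidiagonal.mem_antidiagonal] at hp
  rw [pd_N_zero _ _ (hf p.2 (by omega)), hF p.1 (by omega)]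

theorem pd_ww_of {f : ℕ → A × A} {n e : ℕ} (hF : ∀ m, m ≤ n → pderiv 0 (Fs f m (e + 1)) = Fs f m e)
    (hf : ∀ m, m ≤ n → pderiv 0 (f m).2 = 0) : pderiv 0 (ww f (e + 1) n) = ww f e n := by
  unfold ww
  rw [map_sum]
  refine Finset.sum_congr rfl fun p hp => ?_
  rw [HasAntidiagonal.mem_antidiagonal] at hp
  rw [pd_V_zero, hf p.2 (by omega), map_zero, add_zero, hF p.1 (by omega)]

theorem pd_Hs {f : ℕ → A × A} (n : ℕ) (hf : ∀ m, m < n → PP m f) (e : ℕ) :
    ∀ m, m ≤ n → pderiv 0 (Hs f m (e + 1)) = Hs f m e := by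
  intro m
  induction m using Nat.strong_induction_on with
  | _ m ih =>
    intro hm
    rcases m with _ | m
    · rw [Hs_zero, Hs_zero, pd_pw]
    · have hF : ∀ k, k ≤ m → pderiv 0 (Fs f k (e + 1)) = Fs f k e := fun k hk => by
        unfold Fs
        rw [pd_d_zero, pd_E_zero, ih k (by omega) (by omega)]
      rw [Hs_succ, Hs_succ, map_neg, Derivation.map_smul, map_add, pd_dv ((hf m (by omega)).dvd _),
        pd_tt_of hF fun k hk => (hf k (by omega)).p0, pd_ww_of hF fun k hk => (hf k (by omega)).p0R]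

theorem pd_Fs {f : ℕ → A × A} (n : ℕ) (hf : ∀ m, m < n → PP m f) (e m : ℕ) (hm : m ≤ n) :
    pderiv 0 (Fs f m (e + 1)) = Fs f m e := by
  unfold Fs
  rw [pd_d_zero, pd_E_zero, pd_Hs n hf e m hm]

/-! ### the series -/

noncomputable def HS (f : ℕ → A × A) (e : ℕ) : PS := PowerSeries.mk fun n => Hs f n e
noncomputable def GS (f : ℕ → A × A) (e : ℕ) : PS := PowerSeries.mk fun n => Gs f n e
noncomputable def FS (f : ℕ → A × A) (e : ℕ) : PS := PowerSeries.mk fun n => Fs f n e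
noncomputable def rS (f : ℕ → A × A) : PS := PowerSeries.mk fun n => (f n).1
noncomputable def RS (f : ℕ → A × A) : PS := PowerSeries.mk fun n => (f n).2
noncomputable def nS (f : ℕ → A × A) (e : ℕ) : PS := PowerSeries.mk fun n => dv (tt f e n)

theorem FS_eq (f : ℕ → A × A) (e : ℕ) : FS f e = dS (GS f e) := by
  ext1 n; rw [coeff_dS, FS, GS, PowerSeries.coeff_mk, PowerSeries.coeff_mk]; rfl

theorem coeff_NS_FS (f : ℕ → A × A) (e n : ℕ) : PowerSeries.coeff n (NS (FS f e) (rS f)) = tt f e n := by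
  rw [coeff_NS, tt]
  exact Finset.sum_congr rfl fun p _ => by rw [FS, rS, PowerSeries.coeff_mk, PowerSeries.coeff_mk]
theorem coeff_VS_FS (f : ℕ → A × A) (e n : ℕ) : PowerSeries.coeff n (VS (FS f e) (RS f)) = ww f e n := by
  rw [coeff_VS, ww]
  exact Finset.sum_congr rfl fun p _ => by rw [FS, RS, PowerSeries.coeff_mk, PowerSeries.coeff_mk]

/-- the commutator of two flows -/
noncomputable def kap (f : ℕ → A × A) (e e' : ℕ) : PS := VS (FS f e) (GS f e') - VS (FS f e') (GS f e)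

theorem dS_kap (f : ℕ → A × A) (e e' : ℕ) : dS (kap f e e') = VS (FS f e) (FS f e') - VS (FS f e') (FS f e) := by
  rw [kap, dS_sub, dS_VS, dS_VS, ← FS_eq, ← FS_eq]

/-- the variational derivative of the bracket of two Hamiltonians -/
theorem E_coeff (f : ℕ → A × A) (e e' k : ℕ) : E (PowerSeries.coeff k (VS (FS f e') (HS f e))) =
    PowerSeries.coeff k (-(kap f e e')) := by
  rw [coeff_VS, E_sum, kap, map_neg, map_sub, coeff_VS, coeff_VS,
    ← Finset.Nat.sum_antidiagonal_swap (n := k) (f := fun p => V (PowerSeries.coeff p.1 (FS f e)) (PowerSeries.coeff p.2 (GS f e'))),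
    ← Finset.sum_sub_distrib, ← Finset.sum_neg_distrib]
  refine Finset.sum_congr rfl fun p _ => ?_
  rw [FS, FS, HS, GS, GS, Prod.fst_swap, Prod.snd_swap]
  simp only [PowerSeries.coeff_mk]
  unfold Fs Gs
  rw [E_bracket]; ring

theorem smul_sum_split (m : ℕ) (h : ℕ → ℕ → A) : (((m : ℚ) + 1)) • ∑ p ∈ antidiagonal (m + 1), h p.1 p.2 =
    ∑ p ∈ antidiagonal (m + 1), ((p.1 : ℚ) • h p.1 p.2) + ∑ p ∈ antidiagonal (m + 1), ((p.2 : ℚ) • h p.1 p.2) := by
  rw [Finset.smul_sum, ← Finset.sum_add_distrib]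
  refine Finset.sum_congr rfl fun p hp => ?_
  rw [HasAntidiagonal.mem_antidiagonal] at hp
  rw [← add_smul]
  congr 1
  have : ((p.1 + p.2 : ℕ) : ℚ) = ((m + 1 : ℕ) : ℚ) := by rw [hp]
  push_cast at this
  linarith

/-- the Hamiltonians evolve with `μ` -/
noncomputable def QS (f : ℕ → A × A) (e : ℕ) : PS := nS f e + VS (FS f e) (RS f)

theorem ode (f : ℕ → A × A) (e n : ℕ) : ((n : ℚ) + 1) • Hs f (n + 1) e = -PowerSeries.coeff n (QS f e) := by
  rw [QS, map_add, coeff_VS_FS, nS, PowerSeries.coeff_mk, Hs_succ, smul_neg, smul_smul,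
    mul_inv_cancel₀ (by positivity), one_smul]

theorem half (f : ℕ → A × A) (e e' m : ℕ) :
    ∑ p ∈ antidiagonal (m + 1), ((p.2 : ℚ) • V (Fs f p.1 e') (Hs f p.2 e)) =
      -PowerSeries.coeff m (VS (FS f e') (QS f e)) := by
  rw [Finset.Nat.sum_antidiagonal_succ', coeff_VS, ← Finset.sum_neg_distrib]
  simp only [Nat.cast_zero, zero_smul, zero_add]
  refine Finset.sum_congr rfl fun p _ => ?_
  rw [← Derivation.map_smul, Nat.cast_add, Nat.cast_one, ode, map_neg, FS, PowerSeries.coeff_mk]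

theorem comm_step (f : ℕ → A × A) (e e' m : ℕ) :
    ((m : ℚ) + 1) • PowerSeries.coeff (m + 1) (VS (FS f e') (HS f e)) +
      PowerSeries.coeff m (VS (FS f e') (QS f e) - VS (FS f e) (QS f e')) ∈ Ex := by
  have h1 : PowerSeries.coeff (m + 1) (VS (FS f e') (HS f e)) =
      ∑ p ∈ antidiagonal (m + 1), (fun i j => V (Fs f i e') (Hs f j e)) p.1 p.2 := by
    rw [coeff_VS]
    exact Finset.sum_congr rfl fun p _ => by rw [FS, HS, PowerSeries.coeff_mk, PowerSeries.coeff_mk]
  rw [h1, smul_sum_split m (fun i j => V (Fs f i e') (Hs f j e)), map_sub, half]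
  have h2 : ∑ p ∈ antidiagonal (m + 1), ((p.1 : ℚ) • V (Fs f p.1 e') (Hs f p.2 e)) +
      ∑ p ∈ antidiagonal (m + 1), ((p.2 : ℚ) • V (Fs f p.1 e) (Hs f p.2 e')) ∈ Ex := by
    rw [← Finset.Nat.sum_antidiagonal_swap (n := m + 1) (f := fun p => ((p.2 : ℚ) • V (Fs f p.1 e) (Hs f p.2 e'))),
      ← Finset.sum_add_distrib]
    refine Ex.sum_mem fun p _ => ?_
    rw [Prod.fst_swap, Prod.snd_swap, ← smul_add]
    exact Ex.smul_mem _ (anti _ _)
  rw [half] at h2
  have h3 : ∀ x y z : A, x + -y ∈ Ex → (x + -z) + (z - y) ∈ Ex := by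
    intro x y z h
    have : (x + -z) + (z - y) = x + -y := by ring
    rw [this]; exact h
  exact h3 _ _ _ h2

theorem commute_aux {f : ℕ → A × A} {n : ℕ} (hf : ∀ m, m < n → PP m f) :
    ∀ m, m ≤ n → ∀ e e', PowerSeries.coeff m (kap f e e') = 0 := by
  intro m
  induction m using Nat.strong_induction_on with
  | _ m ih =>
    intro hm e e'
    rcases m with _ | m
    · rw [kap, map_sub, coeff_VS, coeff_VS, Finset.Nat.antidiagonal_zero, Finset.sum_singleton, Finset.sum_singleton,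
        FS, FS, GS, GS]
      simp only [PowerSeries.coeff_mk]
      unfold Fs Gs
      rw [Hs_zero, Hs_zero, E_pw, E_pw]
      show V (Fz e) (pw e') - V (Fz e') (pw e) = 0
      rcases e with _ | e
      · rw [Fz_zero, V_zero, der_pw_zero]; simp
      rcases e' with _ | e'
      · rw [Fz_zero, V_zero, der_pw_zero]; simp
      rw [der_pw, der_pw, V_X, V_X, dn_zero, dn_zero, Fz_succ, Fz_succ]
      ring
    · have hZ : ∀ e e', Z m (kap f e e') := fun e e' i hi => ih i (by omega) (by omega) e e'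
      have hK : Z m (VS (FS f e') (FS f e) - VS (FS f e) (FS f e')) := by
        rw [← dS_kap]; exact (hZ e' e).dS
      have hn : ∀ e, Z m (uS 1 * nS f e - NS (FS f e) (rS f)) := by
        intro e i hi
        rw [map_sub, coeff_uS_mul, coeff_NS_FS, nS, PowerSeries.coeff_mk, dv_mul ((hf i (by omega)).dvd e), sub_self]
      obtain ⟨B, hB⟩ := key_identity (hn e) (hn e') hK
      have h1 := comm_step f e e' m
      have h2 : PowerSeries.coeff m (VS (FS f e') (QS f e) - VS (FS f e) (QS f e')) ∈ Ex := by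
        have h3 := VS_comm (FS f e') (FS f e) (RS f)
        have h4 : VS (FS f e') (QS f e) - VS (FS f e) (QS f e') =
            (VS (FS f e') (nS f e) - VS (FS f e) (nS f e') + dS B) - dS B +
              VS (VS (FS f e') (FS f e) - VS (FS f e) (FS f e')) (RS f) := by
          rw [← h3, QS, QS, VS_add, VS_add]; ring
        rw [h4, map_add, map_sub, hB m le_rfl, hK.VS1 (RS f) m le_rfl, zero_sub, add_zero, coeff_dS]
        exact Ex.neg_mem (d_mem_Ex _)
      have h5 : ((m : ℚ) + 1) • PowerSeries.coeff (m + 1) (VS (FS f e') (HS f e)) ∈ Ex := by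
        have := Ex.sub_mem h1 h2
        rwa [add_sub_cancel_right] at this
      have h6 : PowerSeries.coeff (m + 1) (VS (FS f e') (HS f e)) ∈ Ex := by
        have := Ex.smul_mem (((m : ℚ) + 1)⁻¹) h5
        rwa [smul_smul, inv_mul_cancel₀ (by positivity), one_smul] at this
      have h7 := E_coeff f e e' (m + 1)
      rw [E_of_Ex h6, map_neg] at h7
      exact neg_eq_zero.1 h7.symm

theorem commute {f : ℕ → A × A} {n : ℕ} (hf : ∀ m, m < n → PP m f) (e e' : ℕ) : Z n (kap f e e') :=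
  fun i hi => commute_aux hf i hi e e'

end Pool.Agent.Y665.RH
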