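import Pool.Agent.Y665.RH.NF

/-!
# Power series of differential polynomials
-/

set_option autoImplicit false
set_option linter.all false

open MvPolynomial Finset

namespace Pool.Agent.Y665.RH

abbrev PS := PowerSeries A
abbrev Op := Module.End ℚ A

open PowerSeries (coeff mk)

/-- coefficientwise `∂_x` -/
noncomputable def dS (a : PS) : PS := PowerSeries.mk fun n => d (PowerSeries.coeff n a)
/-- the evolutionary derivation -/
noncomputable def VS (F a : PS) : PS := PowerSeries.mk fun n =>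
  ∑ p ∈ antidiagonal n, V (PowerSeries.coeff p.1 F) (PowerSeries.coeff p.2 a)

theorem coeff_dS (n : ℕ) (a : PS) : PowerSeries.coeff n (dS a) = d (PowerSeries.coeff n a) :=
  PowerSeries.coeff_mk _ _
theorem coeff_VS (n : ℕ) (F a : PS) : PowerSeries.coeff n (VS F a) =
    ∑ p ∈ antidiagonal n, V (PowerSeries.coeff p.1 F) (PowerSeries.coeff p.2 a) := PowerSeries.coeff_mk _ _

noncomputable def mS (a : PS) : PowerSeries Op := PowerSeries.mk fun n => LinearMap.mulLeft ℚ (PowerSeries.coeff n a)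
noncomputable def vS (F : PS) : PowerSeries Op := PowerSeries.mk fun n => ((V (PowerSeries.coeff n F) : Derivation ℚ A A) : A →ₗ[ℚ] A)

theorem coeff_mS (n : ℕ) (a : PS) : PowerSeries.coeff n (mS a) = LinearMap.mulLeft ℚ (PowerSeries.coeff n a) :=
  PowerSeries.coeff_mk _ _
theorem coeff_vS (n : ℕ) (a : PS) : PowerSeries.coeff n (vS a) =
    ((V (PowerSeries.coeff n a) : Derivation ℚ A A) : A →ₗ[ℚ] A) :=
  PowerSeries.coeff_mk _ _

theorem mS_inj {a b : PS} (h : mS a = mS b) : a = b := by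
  ext1 n
  have h1 := congrArg (fun z : PowerSeries Op => PowerSeries.coeff n z (1 : A)) h
  simpa [coeff_mS] using h1
theorem mS_add (a b : PS) : mS (a + b) = mS a + mS b := by
  ext1 n
  rw [map_add, coeff_mS, coeff_mS, coeff_mS, map_add]
  refine LinearMap.ext fun x => ?_
  rw [LinearMap.add_apply, LinearMap.mulLeft_apply, LinearMap.mulLeft_apply, LinearMap.mulLeft_apply, add_mul]
theorem mS_mul (a b : PS) : mS (a * b) = mS a * mS b := by
  ext1 n
  rw [coeff_mS, PowerSeries.coeff_mul, PowerSeries.coeff_mul]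
  refine LinearMap.ext fun x => ?_
  rw [LinearMap.mulLeft_apply, LinearMap.sum_apply, Finset.sum_mul]
  refine Finset.sum_congr rfl fun p _ => ?_
  rw [coeff_mS, coeff_mS, Module.End.mul_apply, LinearMap.mulLeft_apply, LinearMap.mulLeft_apply, mul_assoc]

theorem vS_mS (F a : PS) : vS F * mS a = mS a * vS F + mS (VS F a) := by
  ext1 n
  rw [map_add, PowerSeries.coeff_mul, PowerSeries.coeff_mul, coeff_mS, coeff_VS]
  refine LinearMap.ext fun x => ?_
  rw [LinearMap.add_apply, LinearMap.sum_apply, LinearMap.sum_apply, LinearMap.mulLeft_apply, Finset.sum_mul]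
  rw [← Finset.Nat.sum_antidiagonal_swap (n := n) (f := fun p => (PowerSeries.coeff p.1 (mS a) * PowerSeries.coeff p.2 (vS F)) x),
    ← Finset.sum_add_distrib]
  refine Finset.sum_congr rfl fun p _ => ?_
  rw [Prod.fst_swap, Prod.snd_swap, coeff_mS, coeff_vS, Module.End.mul_apply, Module.End.mul_apply, LinearMap.mulLeft_apply,
    LinearMap.mulLeft_apply]
  show V (PowerSeries.coeff p.1 F) (PowerSeries.coeff p.2 a * x) = _
  rw [Derivation.leibniz, smul_eq_mul, smul_eq_mul]
  show _ = PowerSeries.coeff p.2 a * V (PowerSeries.coeff p.1 F) x + _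
  ring

theorem VS_mul (F a b : PS) : VS F (a * b) = a * VS F b + b * VS F a := by
  apply mS_inj
  have h1 := vS_mS F (a * b)
  have h2 := vS_mS F a
  have h3 := vS_mS F b
  rw [mS_mul] at h1
  have h4 : vS F * (mS a * mS b) = mS a * mS b * vS F + (mS a * mS (VS F b) + mS (VS F a) * mS b) := by
    rw [← mul_assoc, h2, add_mul, mul_assoc, h3, mul_add, ← mul_assoc]
    abel
  rw [h4] at h1
  have h5 := add_left_cancel h1
  rw [← h5, mS_add, mS_mul, mul_comm b, mS_mul]

theorem vS_vS (F G : PS) : vS F * vS G - vS G * vS F = vS (VS F G - VS G F) := by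
  ext1 n
  rw [map_sub, PowerSeries.coeff_mul, PowerSeries.coeff_mul, coeff_vS, map_sub, coeff_VS, coeff_VS]
  refine LinearMap.ext fun x => ?_
  rw [LinearMap.sub_apply, LinearMap.sum_apply, LinearMap.sum_apply]
  rw [← Finset.Nat.sum_antidiagonal_swap (n := n) (f := fun p => (PowerSeries.coeff p.1 (vS G) * PowerSeries.coeff p.2 (vS F)) x),
    ← Finset.Nat.sum_antidiagonal_swap (n := n) (f := fun p => V (PowerSeries.coeff p.1 G) (PowerSeries.coeff p.2 F)),
    ← Finset.sum_sub_distrib, ← Finset.sum_sub_distrib]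
  show _ = V (∑ p ∈ antidiagonal n, _) x
  rw [V_sum]
  refine Finset.sum_congr rfl fun p _ => ?_
  rw [Prod.fst_swap, Prod.snd_swap, coeff_vS, coeff_vS, Module.End.mul_apply, Module.End.mul_apply]
  exact V_comm _ _ _

theorem VS_comm (F G a : PS) : VS F (VS G a) - VS G (VS F a) = VS (VS F G - VS G F) a := by
  apply mS_inj
  have hn : ∀ x y : PS, mS (x - y) = mS x - mS y := by
    intro x y
    rw [eq_sub_iff_add_eq, ← mS_add, sub_add_cancel]
  have h1 : ∀ X Y : PS, mS (VS X Y) = vS X * mS Y - mS Y * vS X := fun X Y => by rw [vS_mS]; abel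
  rw [hn, h1, h1, h1, h1, h1, ← vS_vS]
  simp only [mul_sub, sub_mul, mul_assoc]
  abel

theorem dS_VS (F a : PS) : dS (VS F a) = VS F (dS a) := by
  ext1 n
  rw [coeff_dS, coeff_VS, coeff_VS, map_sum]
  exact Finset.sum_congr rfl fun p _ => by rw [coeff_dS, V_d]
theorem dS_mul (a b : PS) : dS (a * b) = a * dS b + b * dS a := by
  ext1 n
  rw [coeff_dS, map_add, PowerSeries.coeff_mul, PowerSeries.coeff_mul, mul_comm b, PowerSeries.coeff_mul, map_sum,
    ← Finset.sum_add_distrib]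
  refine Finset.sum_congr rfl fun p _ => ?_
  rw [coeff_dS, coeff_dS, Derivation.leibniz, smul_eq_mul, smul_eq_mul]; ring
theorem dS_add (a b : PS) : dS (a + b) = dS a + dS b := by
  ext1 n; simp only [coeff_dS, map_add]
theorem dS_sub (a b : PS) : dS (a - b) = dS a - dS b := by
  ext1 n; simp only [coeff_dS, map_sub]
theorem VS_add (F a b : PS) : VS F (a + b) = VS F a + VS F b := by
  ext1 n; simp only [coeff_VS, map_add, Finset.sum_add_distrib]
theorem VS_sub (F a b : PS) : VS F (a - b) = VS F a - VS F b := by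
  ext1 n; simp only [coeff_VS, map_sub, Finset.sum_sub_distrib]
theorem VS_sub' (F G a : PS) : VS (F - G) a = VS F a - VS G a := by
  ext1 n
  simp only [coeff_VS, map_sub, V_sub, Derivation.sub_apply, Finset.sum_sub_distrib]

/-- the constant series `u_n` -/
noncomputable def uS (n : ℕ) : PS := PowerSeries.C (X n)

theorem dS_u (n : ℕ) : dS (uS n) = uS (n + 1) := by
  ext1 k
  rw [coeff_dS, uS, uS, PowerSeries.coeff_C, PowerSeries.coeff_C]
  split_ifs
  · exact d_X n
  · exact map_zero _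

theorem coeff_VS_C (k : ℕ) (F : PS) (a : A) : PowerSeries.coeff k (VS F (PowerSeries.C a)) = V (PowerSeries.coeff k F) a := by
  rw [coeff_VS, Finset.sum_eq_single (k, 0)]
  · rw [PowerSeries.coeff_C, if_pos rfl]
  · intro p hp hne
    rw [PowerSeries.coeff_C, if_neg, map_zero]
    intro h0
    apply hne
    rw [HasAntidiagonal.mem_antidiagonal] at hp
    ext
    · simp; omega
    · simpa using h0
  · intro h; exact absurd (HasAntidiagonal.mem_antidiagonal.2 (by simp)) h

theorem VS_u1 (F : PS) : VS F (uS 1) = dS F := by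
  ext1 k; rw [uS, coeff_VS_C, V_X, dn_one, coeff_dS]
theorem VS_u2 (F : PS) : VS F (uS 2) = dS (dS F) := by
  ext1 k; rw [uS, coeff_VS_C, V_X, coeff_dS, coeff_dS, dn_succ, dn_one]

/-- `u_2 V_F - (∂F) ∂` -/
noncomputable def NS (F a : PS) : PS := uS 2 * VS F a - dS F * dS a

theorem coeff_uS_mul (k n : ℕ) (a : PS) : PowerSeries.coeff n (uS k * a) = X k * PowerSeries.coeff n a :=
  PowerSeries.coeff_C_mul _ _ _

theorem coeff_NS (n : ℕ) (F a : PS) : PowerSeries.coeff n (NS F a) =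
    ∑ p ∈ antidiagonal n, N (PowerSeries.coeff p.1 F) (PowerSeries.coeff p.2 a) := by
  rw [NS, map_sub, coeff_uS_mul, coeff_VS, PowerSeries.coeff_mul, Finset.mul_sum, ← Finset.sum_sub_distrib]
  refine Finset.sum_congr rfl fun p _ => ?_
  rw [coeff_dS, coeff_dS, N_apply]

theorem NS_ID (F G a : PS) : uS 2 * (NS F (NS G a) - NS G (NS F a)) =
    NS F (uS 2) * NS G a - NS G (uS 2) * NS F a + uS 2 ^ 2 * NS (VS F G - VS G F) a := by
  have h3 := VS_comm F G a
  rw [VS_sub'] at h3
  simp only [NS, VS_sub, dS_sub, VS_mul, dS_mul, VS_u2, dS_u, VS_sub', dS_VS] at h3 ⊢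
  linear_combination (uS 2) ^ 3 * h3

/-! ### calculus modulo `μ^{m+1}` -/

/-- all coefficients up to `m` vanish -/
def Z (m : ℕ) (a : PS) : Prop := ∀ i, i ≤ m → PowerSeries.coeff i a = 0

theorem Z.add {m : ℕ} {a b : PS} (ha : Z m a) (hb : Z m b) : Z m (a + b) := fun i hi => by
  rw [map_add, ha i hi, hb i hi, add_zero]
theorem Z.sub {m : ℕ} {a b : PS} (ha : Z m a) (hb : Z m b) : Z m (a - b) := fun i hi => by
  rw [map_sub, ha i hi, hb i hi, sub_zero]
theorem Z.neg {m : ℕ} {a : PS} (ha : Z m a) : Z m (-a) := fun i hi => by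
  rw [map_neg, ha i hi, neg_zero]
theorem Z.mul {m : ℕ} {a : PS} (b : PS) (ha : Z m a) : Z m (b * a) := fun i hi => by
  rw [PowerSeries.coeff_mul]
  refine Finset.sum_eq_zero fun p hp => ?_
  rw [HasAntidiagonal.mem_antidiagonal] at hp
  rw [ha p.2 (by omega), mul_zero]
theorem Z.dS {m : ℕ} {a : PS} (ha : Z m a) : Z m (dS a) := fun i hi => by
  rw [coeff_dS, ha i hi, map_zero]
theorem Z.VS2 {m : ℕ} {a : PS} (F : PS) (ha : Z m a) : Z m (VS F a) := fun i hi => by
  rw [coeff_VS]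
  refine Finset.sum_eq_zero fun p hp => ?_
  rw [HasAntidiagonal.mem_antidiagonal] at hp
  rw [ha p.2 (by omega), map_zero]
theorem Z.VS1 {m : ℕ} {F : PS} (a : PS) (hF : Z m F) : Z m (VS F a) := fun i hi => by
  rw [coeff_VS]
  refine Finset.sum_eq_zero fun p hp => ?_
  rw [HasAntidiagonal.mem_antidiagonal] at hp
  rw [hF p.1 (by omega), V_zero]; rfl
theorem Z.cancel {m k : ℕ} {a : PS} (h : Z m (uS k * a)) : Z m a := fun i hi => by
  have := h i hi
  rw [coeff_uS_mul] at this
  rcases mul_eq_zero.1 this with h | h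
  · exact absurd h (X_ne_zero k)
  · exact h

/-- the key identity -/
theorem key_identity {m : ℕ} {F G ρ nF nG : PS} (hF : Z m (uS 1 * nF - NS F ρ)) (hG : Z m (uS 1 * nG - NS G ρ))
    (hK : Z m (VS G F - VS F G)) : ∃ B, Z m (VS G nF - VS F nG + dS B) := by
  set A_ : PS := VS G ρ * dS F - VS F ρ * dS G with hA
  have h1 : Z m (uS 2 * A_ - uS 1 * (nG * dS F - nF * dS G)) := by
    have : uS 2 * A_ - uS 1 * (nG * dS F - nF * dS G) =
        -(dS F * (uS 1 * nG - NS G ρ)) + dS G * (uS 1 * nF - NS F ρ) := by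
      rw [hA, NS, NS]; ring
    rw [this]
    exact (hG.mul _).neg.add (hF.mul _)
  have hdvd : ∀ i, i ≤ m → X 1 ∣ PowerSeries.coeff i A_ := by
    intro i hi
    have h2 := h1 i hi
    rw [map_sub, coeff_uS_mul, coeff_uS_mul, sub_eq_zero] at h2
    have h3 : (X 1 : A) ∣ X 2 * PowerSeries.coeff i A_ := by rw [h2]; exact dvd_mul_right _ _
    rcases (X_prime (i := 1) (R := ℚ)).dvd_or_dvd h3 with h | h
    · exfalso
      rw [X_dvd_X] at h
      omega
    · exact h
  set B : PS := PowerSeries.mk fun i => dv (PowerSeries.coeff i A_) with hB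
  have h2 : Z m (A_ - uS 1 * B) := by
    intro i hi
    rw [map_sub, coeff_uS_mul, hB, PowerSeries.coeff_mk, dv_mul (hdvd i hi), sub_self]
  have h3 : Z m (uS 2 * B - (nG * dS F - nF * dS G)) := by
    apply Z.cancel (k := 1)
    have : uS 1 * (uS 2 * B - (nG * dS F - nF * dS G)) =
        (uS 2 * A_ - uS 1 * (nG * dS F - nF * dS G)) - uS 2 * (A_ - uS 1 * B) := by ring
    rw [this]
    exact h1.sub (h2.mul _)
  refine ⟨B, ?_⟩
  apply Z.cancel (k := 1)
  have h4 : VS G (uS 1 * nF - NS F ρ) = uS 1 * VS G nF + nF * dS G - (uS 2 * VS G (VS F ρ) + VS F ρ * dS (dS G))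
      + (dS F * dS (VS G ρ) + dS ρ * dS (VS G F)) := by
    rw [VS_sub, VS_mul, VS_u1, NS, VS_sub, VS_mul, VS_mul, VS_u2, ← dS_VS, ← dS_VS]
    ring
  have h5 : VS F (uS 1 * nG - NS G ρ) = uS 1 * VS F nG + nG * dS F - (uS 2 * VS F (VS G ρ) + VS G ρ * dS (dS F))
      + (dS G * dS (VS F ρ) + dS ρ * dS (VS F G)) := by
    rw [VS_sub, VS_mul, VS_u1, NS, VS_sub, VS_mul, VS_mul, VS_u2, ← dS_VS, ← dS_VS]
    ring
  have h6 : dS (A_ - uS 1 * B) = (VS G ρ * dS (dS F) + dS F * dS (VS G ρ)) - (VS F ρ * dS (dS G) + dS G * dS (VS F ρ))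
      - (uS 1 * dS B + B * uS 2) := by
    rw [dS_sub, hA, dS_sub, dS_mul, dS_mul, dS_mul, dS_u]
  have h7 := VS_comm G F ρ
  have h8 : dS (VS G F - VS F G) = dS (VS G F) - dS (VS F G) := dS_sub _ _
  have h9 : uS 1 * (VS G nF - VS F nG + dS B) = VS G (uS 1 * nF - NS F ρ) - VS F (uS 1 * nG - NS G ρ)
      + uS 2 * VS (VS G F - VS F G) ρ - dS ρ * dS (VS G F - VS F G) - dS (A_ - uS 1 * B)
      - (uS 2 * B - (nG * dS F - nF * dS G)) := by
    rw [h4, h5, h6, ← h7, h8]
    ring
  rw [h9]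
  exact ((((((hF.VS2 G).sub (hG.VS2 F)).add ((hK.VS1 ρ).mul _)).sub (hK.dS.mul _)).sub h2.dS).sub h3)

end Pool.Agent.Y665.RH
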