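import Pool.Agent.Y665.RH.Rec

/-!
# The inductive step and the existence of the whole sequence
-/

set_option autoImplicit false
set_option linter.all false

open MvPolynomial Finset

namespace Pool.Agent.Y665.RH

theorem PP.BH_Hs {f : ℕ → A × A} {n : ℕ} (hf : ∀ m, m < n → PP m f) (e m : ℕ) (hm : m ≤ n) :
    BH (6 * m + e + 1) (18 * m) (Hs f m e) :=
  RH.BH_Hs n (fun k hk => (hf k hk).bh) (fun k hk => (hf k hk).bhR) e m hm

/-- closedness of the obstruction -/
theorem closed {f : ℕ → A × A} {n : ℕ} (hf : ∀ m, m < n → PP m f) (i j : ℕ) :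
    Dj i (sg (tt f (j + 2) n)) = Dj j (sg (tt f (i + 2) n)) := by
  have hID := congrArg (fun z => sg (PowerSeries.coeff n z)) (NS_ID (FS f (i + 2)) (FS f (j + 2)) (rS f))
  rw [coeff_uS_mul, map_sub, map_mul, sg_X2, one_mul, map_sub, map_add, map_sub, map_add, map_sub] at hID
  -- the iterated terms
  have h1 : ∀ i j, sg (PowerSeries.coeff n (NS (FS f (i + 2)) (NS (FS f (j + 2)) (rS f)))) =
      Dj i (sg (tt f (j + 2) n)) := by
    intro i j
    rw [coeff_NS, map_sum, Finset.sum_eq_single (0, n)]
    · rw [coeff_NS_FS, FS, PowerSeries.coeff_mk, Fs_zero, sg_N]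
    · intro p hp hne
      rw [HasAntidiagonal.mem_antidiagonal] at hp
      have hlt : p.2 < n := by
        by_contra h
        apply hne
        ext
        · simp; omega
        · simp; omega
      rw [coeff_NS_FS]
      obtain ⟨q, hq⟩ := (hf p.2 hlt).dvd (j + 2)
      rw [hq, Derivation.leibniz, N_X1, smul_zero, add_zero, smul_eq_mul, map_mul, sg_X1, zero_mul]
    · intro h; exact absurd (HasAntidiagonal.mem_antidiagonal.2 (by simp)) h
  -- the product terms
  have h2 : ∀ i j, sg (PowerSeries.coeff n (NS (FS f (i + 2)) (uS 2) * NS (FS f (j + 2)) (rS f))) = 0 := by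
    intro i j
    rw [PowerSeries.coeff_mul, map_sum]
    refine Finset.sum_eq_zero fun p hp => ?_
    rw [HasAntidiagonal.mem_antidiagonal] at hp
    rw [map_mul, coeff_NS_FS]
    by_cases hlt : p.2 < n
    · obtain ⟨q, hq⟩ := (hf p.2 hlt).dvd (j + 2)
      rw [hq, map_mul, sg_X1, zero_mul, mul_zero]
    · have hp1 : p.1 = 0 := by omega
      rw [hp1, coeff_NS, Finset.Nat.antidiagonal_zero, Finset.sum_singleton, FS, PowerSeries.coeff_mk, Fs_zero, uS,
        PowerSeries.coeff_C, if_pos rfl, sg_N_X2, zero_mul]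
  have h3 : PowerSeries.coeff n (uS 2 ^ 2 * NS (VS (FS f (i + 2)) (FS f (j + 2)) - VS (FS f (j + 2)) (FS f (i + 2))) (rS f)) = 0 := by
    have hZ : Z n (NS (VS (FS f (i + 2)) (FS f (j + 2)) - VS (FS f (j + 2)) (FS f (i + 2))) (rS f)) := by
      rw [← dS_kap, NS]
      have hk := (commute hf (i + 2) (j + 2)).dS
      exact ((hk.VS1 _).mul _).sub (by rw [mul_comm]; exact hk.dS.mul _)
    exact hZ.mul _ n le_rfl
  rw [h1, h1, h2, h2, h3, map_zero, sub_zero, add_zero] at hID
  exact sub_eq_zero.1 hID

theorem tt_update {f : ℕ → A × A} {n : ℕ} (x : A × A) (e : ℕ) :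
    tt (Function.update f n x) e n = tt (Function.update f n (0, 0)) e n + N (Fz e) x.1 := by
  classical
  have h1 : ∀ y : A × A, tt (Function.update f n y) e n =
      ∑ p ∈ (antidiagonal n).erase (0, n), N (Fs f p.1 e) (f p.2).1 + N (Fz e) y.1 := by
    intro y
    unfold tt
    rw [← Finset.sum_erase_add _ _ (HasAntidiagonal.mem_antidiagonal.2 (by simp : (0, n).1 + (0, n).2 = n))]
    congr 1
    · refine Finset.sum_congr rfl fun p hp => ?_
      rw [Finset.mem_erase, HasAntidiagonal.mem_antidiagonal] at hp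
      have hlt : p.2 ≠ n := by
        intro h
        apply hp.1
        ext
        · simp; omega
        · simp; omega
      rw [Function.update_of_ne hlt, Fs_congr p.1 _ f (fun m hm => Function.update_of_ne (by omega) _ _)]
    · rw [Fs_zero, Function.update_self]
  rw [h1, h1]
  simp

theorem ww_update {f : ℕ → A × A} {n : ℕ} (x : A × A) (e : ℕ) :
    ww (Function.update f n x) e n = ww (Function.update f n (0, 0)) e n + V (Fz e) x.2 := by
  classical
  have h1 : ∀ y : A × A, ww (Function.update f n y) e n =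
      ∑ p ∈ (antidiagonal n).erase (0, n), V (Fs f p.1 e) (f p.2).2 + V (Fz e) y.2 := by
    intro y
    unfold ww
    rw [← Finset.sum_erase_add _ _ (HasAntidiagonal.mem_antidiagonal.2 (by simp : (0, n).1 + (0, n).2 = n))]
    congr 1
    · refine Finset.sum_congr rfl fun p hp => ?_
      rw [Finset.mem_erase, HasAntidiagonal.mem_antidiagonal] at hp
      have hlt : p.2 ≠ n := by
        intro h
        apply hp.1
        ext
        · simp; omega
        · simp; omega
      rw [Function.update_of_ne hlt, Fs_congr p.1 _ f (fun m hm => Function.update_of_ne (by omega) _ _)]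
    · rw [Fs_zero, Function.update_self]
  rw [h1, h1]
  simp

theorem BH_pow2 (k : ℕ) : BH k (2 * k) (X 2 ^ k : A) := ((BH_X 2).pow k).congr (by omega) (by omega)

/-- divisibility from vanishing at `u = u_1 = 0`, `u_2 = 1` -/
theorem dvd_all {f : ℕ → A × A} {n : ℕ} (hf : ∀ m, m < n → PP m f) (hb : BH (6 * n + 8) (18 * n + 16) (f n).1)
    (h0 : pderiv 0 (f n).1 = 0) (hs : ∀ j, sg (tt f (j + 2) n) = 0) : ∀ e, X 1 ∣ tt f e n := by
  have hf1 : ∀ m, m ≤ n → BH (6 * m + 8) (18 * m + 16) (f m).1 := by
    intro m hm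
    rcases Nat.eq_or_lt_of_le hm with h | h
    · subst h; exact hb
    · exact (hf m h).bh
  have hf0 : ∀ m, m ≤ n → pderiv 0 (f m).1 = 0 := by
    intro m hm
    rcases Nat.eq_or_lt_of_le hm with h | h
    · subst h; exact h0
    · exact (hf m h).p0
  refine div_family (fun e => tt f e n) (fun e => 6 * n + e + 8) (fun _ => 18 * n + 19) (fun e => ?_) (tt_e0 f n)
    (fun e => ?_) (fun e => ?_)
  · exact BH_tt_of (fun m hm => PP.BH_Hs hf e m hm) hf1
  · exact pd_tt_of (fun m hm => pd_Fs n hf e m hm) hf0
  · rcases e with _ | _ | j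
    · simp only [tt_e0, map_zero]
    · simp only [zero_add, tt_e1, map_zero]
    · exact hs j

theorem step (n : ℕ) (hn : 0 < n) (f : ℕ → A × A) (hf : ∀ m, m < n → PP m f) :
    ∃ x, PP n (Function.update f n x) := by
  classical
  set f0 := Function.update f n ((0 : A), (0 : A)) with hf0d
  have hf0 : ∀ m, m < n → PP m f0 := fun m hm =>
    PP_congr m f f0 (fun k hk => (Function.update_of_ne (by omega) _ _).symm) (hf m hm)
  have hbS : ∀ e, BH (6 * n + e + 8) (18 * n + 19) (tt f0 e n) := by
    intro e
    refine BH_tt_of (fun m hm => PP.BH_Hs hf0 e m hm) ?_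
    intro m hm
    rcases Nat.eq_or_lt_of_le hm with h | h
    · subst h; rw [hf0d, Function.update_self]; exact BH_zero _ _
    · exact (hf0 m h).bh
  -- solve along the Riemann flows
  obtain ⟨r, hr1, hr2, hr3⟩ := poincare (3 * n) (6 * n) (fun j => -sg (tt f0 (j + 2) n))
    (fun j => by rw [map_neg, sg_sg])
    (fun j => ((hbS (j + 2)).sg.congr (by push_cast; ring)).neg)
    (fun i j => by rw [map_neg, map_neg, closed hf0])
    (fun j hj => by
      rw [neg_eq_zero]
      exact neg_zero' (sg_sg _) (hbS (j + 2)).sg (by push_cast; omega))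
  obtain ⟨ρ, hρ1, hρ2, _, hρ3⟩ := homogenize (W := 6 * n) (M := 6 * n + 8) hr1 (hr2.congr (by push_cast; ring)) (by omega)
  have hρb : BH (6 * n + 8) (18 * n + 16) ρ := hρ1.congr rfl (by omega)
  -- the first component
  have hdv : ∀ y, ∀ e, X 1 ∣ tt (Function.update f n (ρ, y)) e n := by
    intro y
    have hf1 : ∀ m, m < n → PP m (Function.update f n (ρ, y)) := fun m hm =>
      PP_congr m f _ (fun k hk => (Function.update_of_ne (by omega) _ _).symm) (hf m hm)
    refine dvd_all hf1 ?_ ?_ ?_
    · rw [Function.update_self]; exact hρb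
    · rw [Function.update_self]; exact hρ2
    · intro j
      rw [tt_update, map_add, sg_N]
      simp only
      rw [hρ3, hr3]
      simp [hf0d]
  -- the second component
  set δ : A := dv (tt (Function.update f n (ρ, (0 : A))) 2 n) + ww f0 2 n with hδ
  have hf1 : ∀ m, m < n → PP m (Function.update f n (ρ, (0 : A))) := fun m hm =>
      PP_congr m f _ (fun k hk => (Function.update_of_ne (by omega) _ _).symm) (hf m hm)
  have hδb : BH (6 * n + 8 + 1) (18 * n + 17 + 1) δ := by
    rw [hδ]
    refine BH.add ?_ ?_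
    · apply BH.dv
      refine (BH_tt_of (e := 2) (fun m hm => PP.BH_Hs hf1 2 m hm) ?_).congr (by omega) (by omega)
      intro m hm
      rcases Nat.eq_or_lt_of_le hm with h | h
      · subst h; rw [Function.update_self]; exact hρb
      · exact (hf1 m h).bh
    · refine (BH_ww_of (e := 2) (fun m hm => PP.BH_Hs hf0 2 m hm) ?_).congr (by omega) (by omega)
      intro m hm
      rcases Nat.eq_or_lt_of_le hm with h | h
      · subst h; rw [hf0d, Function.update_self]; exact BH_zero _ _
      · exact (hf0 m h).bhR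
  have hδ0 : pderiv 0 δ = 0 := by
    rw [hδ, map_add, pd_dv (hdv 0 2)]
    rw [pd_tt_of (e := 1) (fun m hm => pd_Fs n hf1 1 m hm) (by
      intro m hm
      rcases Nat.eq_or_lt_of_le hm with h | h
      · subst h; rw [Function.update_self]; exact hρ2
      · exact (hf1 m h).p0), tt_e1, dv_zero, zero_add]
    rw [pd_ww_of (e := 1) (fun m hm => pd_Fs n hf0 1 m hm) (by
      intro m hm
      rcases Nat.eq_or_lt_of_le hm with h | h
      · subst h; rw [hf0d, Function.update_self]; exact map_zero _
      · exact (hf0 m h).p0R)]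
    unfold ww
    refine Finset.sum_eq_zero fun p hp => ?_
    rw [HasAntidiagonal.mem_antidiagonal] at hp
    rw [Fs_e1']
    split_ifs with h
    · have h2 : p.2 = n := by omega
      rw [h2, hf0d, Function.update_self]; exact map_zero _
    · rw [V_zero]; rfl
  obtain ⟨y, g, S, hy1, hy2, hg1, hg2, hg3⟩ := normal_form (by omega : 2 ≤ 6 * n + 8) hδb hδ0
  refine ⟨(ρ, y), ?_, ?_, ?_, ?_, hdv y, g, S, hg1, hg2, ?_, fun h => absurd h (by omega)⟩
  · rw [Function.update_self]; exact hρb
  · rw [Function.update_self]; exact hρ2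
  · rw [Function.update_self]; exact hy1
  · rw [Function.update_self]; exact hy2
  · rw [← hg3, hδ, ww_update, tt_update, tt_update (f := f) (ρ, (0 : A))]
    simp only
    ring

theorem PP_zero (f : ℕ → A × A) (h : f 0 = (X 2 ^ 8, 0)) : PP 0 f := by
  have h1 : (f 0).1 = X 2 ^ 8 := by rw [h]
  have h2 : (f 0).2 = 0 := by rw [h]
  have hb : BH (6 * 0 + 8) (18 * 0 + 16) (f 0).1 := by rw [h1]; exact (BH_pow2 8).congr (by omega) (by omega)
  have h0 : pderiv 0 (f 0).1 = 0 := by
    rw [h1, Derivation.leibniz_pow, pd_X, if_neg (by omega)]; simp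
  have htt : ∀ e, tt f e 0 = N (Fz e) (X 2 ^ 8) := by
    intro e
    rw [tt, Finset.Nat.antidiagonal_zero, Finset.sum_singleton, Fs_zero, h1]
  have hww : ww f 2 0 = 0 := by
    rw [ww, Finset.Nat.antidiagonal_zero, Finset.sum_singleton, h2, map_zero]
  refine ⟨hb, h0, by rw [h2]; exact BH_zero _ _, by rw [h2]; exact map_zero _, ?_, ?_⟩
  · refine dvd_all (fun m hm => absurd hm (by omega)) hb h0 fun j => ?_
    rw [htt, sg_N, map_pow, sg_X2, one_pow, Derivation.map_one_eq_zero]
  · refine ⟨(25 : ℚ) • X 2 ^ 9, -d (X 1 * X 2 ^ 8) |> fun _ => -(X 1 * X 2 ^ 8), ?_, ?_, ?_, fun _ => rfl⟩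
    · apply IsNF.smul
      intro t ht
      rw [X_pow_eq_monomial, coeff_monomial] at ht
      split_ifs at ht with h
      · subst h
        refine ⟨by simp, by simp, 2, by simp, fun j hj => ?_⟩
        rw [Finsupp.single_eq_of_ne (by omega)]
      · exact absurd rfl ht
    · exact ((BH_pow2 9).congr (by omega) (by omega)).smul _
    · rw [hww, add_zero, htt]
      have h3 : N (Fz 2) (X 2 ^ 8) = X 1 * (24 * X 2 ^ 9 - 8 * (X 1 * X 2 ^ 7 * X 3)) := by
        rw [N_apply, Derivation.leibniz_pow, Derivation.leibniz_pow, V_X, d_X, Fz_succ, pw_one, Derivation.leibniz, d_X, d_X,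
          show (2 : ℕ) = 0 + 1 + 1 from rfl, dn_succ, dn_succ, dn_zero]
        simp only [Derivation.leibniz, d_X, smul_eq_mul, map_add, nsmul_eq_mul, zero_add]
        push_cast
        ring_nf
      rw [h3, dv_X_mul, map_neg, Derivation.leibniz, Derivation.leibniz_pow, d_X, d_X]
      simp only [smul_eq_mul, nsmul_eq_mul, smul_eq_C_mul]
      have h4 : (C (25 : ℚ) : A) = 25 := rfl
      rw [h4]
      push_cast
      ring

theorem exists_seq {α : Type*} [Inhabited α] (P : ℕ → (ℕ → α) → Prop)
    (hloc : ∀ n f g, (∀ m, m ≤ n → f m = g m) → P n f → P n g)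
    (hstep : ∀ n f, (∀ m, m < n → P m f) → ∃ x, P n (Function.update f n x)) : ∃ f, ∀ n, P n f := by
  classical
  let F : ℕ → (ℕ → α) := fun n => Nat.rec (fun _ => default)
    (fun k f => if h : ∃ x, P k (Function.update f k x) then Function.update f k h.choose else f) n
  have hFs : ∀ k, F (k + 1) = if h : ∃ x, P k (Function.update (F k) k x) then Function.update (F k) k h.choose else F k :=
    fun k => rfl
  have hsame : ∀ k m, m < k → ∀ j, F (k + j) m = F k m := by
    intro k m hm j
    induction j with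
    | zero => rfl
    | succ j ih =>
      rw [← add_assoc, hFs]
      split_ifs with h
      · rw [Function.update_of_ne (by omega), ih]
      · exact ih
  have hP : ∀ k, ∀ m, m < k → P m (F k) := by
    intro k
    induction k with
    | zero => intro m hm; omega
    | succ k ih =>
      intro m hm
      rcases Nat.lt_succ_iff_lt_or_eq.1 hm with h | h
      · refine hloc m (F k) _ (fun i hi => ?_) (ih m h)
        exact (hsame k i (by omega) 1).symm
      · subst h
        have hex := hstep m (F m) ih
        rw [hFs, dif_pos hex]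
        exact hex.choose_spec
  refine ⟨fun n => F (n + 1) n, fun n => ?_⟩
  refine hloc n (F (n + 1)) _ (fun m hm => ?_) (hP (n + 1) n (by omega))
  have := hsame (m + 1) m (by omega) (n - m)
  rw [show m + 1 + (n - m) = n + 1 by omega] at this
  exact this

theorem exists_PP : ∃ f : ℕ → A × A, ∀ n, PP n f := by
  refine exists_seq PP PP_congr fun n f hf => ?_
  rcases Nat.eq_zero_or_pos n with h | h
  · subst h
    exact ⟨(X 2 ^ 8, 0), PP_zero _ (Function.update_self _ _ _)⟩
  · exact step n h f hf

end Pool.Agent.Y665.RH
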